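import Pool.Agent.Helper74.PCGDefs

/-!
The Roberts-Spencer characterisation of clique graphs, and its reformulation by core functions.
-/

namespace Pool.Agent.Helper74

/-- The graph has an edge cover by complete sets with the Helly property. -/
def HasRS {V : Type} (H : SimpleGraph V) : Prop :=
  ∃ F : Set (Set V), (∀ C ∈ F, H.IsClique C) ∧
    (∀ a b, H.Adj a b → ∃ C ∈ F, a ∈ C ∧ b ∈ C) ∧
    ∀ 𝒢 ⊆ F, 𝒢.Nonempty → (∀ C ∈ 𝒢, ∀ D ∈ 𝒢, (C ∩ D).Nonempty) → (⋂₀ 𝒢).Nonempty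

theorem exists_max_clique {W : Type} [Finite W] (G : SimpleGraph W) (s : Set W)
    (hs : G.IsClique s) : ∃ t, s ⊆ t ∧ Maximal G.IsClique t := by
  obtain ⟨t, h1, h2⟩ := Set.Finite.exists_le_maximal (s := {t : Set W | G.IsClique t})
    (Set.toFinite _) hs
  exact ⟨t, h1, h2⟩

theorem hasRS_of_isCliqueGraph {V : Type} (H : SimpleGraph V) (h : IsCliqueGraph H) :
    HasRS H := by
  obtain ⟨W, hW, G, ⟨e⟩⟩ := h
  let c : W → Set V := fun w => {v | w ∈ (e v).1}
  have hcl : ∀ v, G.IsClique (e v).1 := fun v => (e v).2.prop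
  refine ⟨Set.range c, ?_, ?_, ?_⟩
  · rintro _ ⟨w, rfl⟩ a ha b hb hab
    rw [← e.map_adj_iff]
    refine ⟨fun h => hab (e.injective h), ⟨w, ha, hb⟩⟩
  · intro a b hab
    rw [← e.map_adj_iff] at hab
    obtain ⟨w, h1, h2⟩ := hab.2
    exact ⟨c w, ⟨w, rfl⟩, h1, h2⟩
  · intro 𝒢 h𝒢 hne hpair
    let S : Set W := {w | c w ∈ 𝒢}
    have hS : G.IsClique S := by
      intro a ha b hb hab
      obtain ⟨v, hv1, hv2⟩ := hpair _ ha _ hb
      exact hcl v hv1 hv2 hab
    obtain ⟨t, h1, h2⟩ := exists_max_clique G S hS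
    refine ⟨e.symm ⟨t, h2⟩, ?_⟩
    intro C hC
    obtain ⟨w, rfl⟩ := h𝒢 hC
    have : w ∈ t := h1 hC
    simpa [c] using this

theorem isCliqueGraph_of_hasRS {V : Type} [Finite V] [Nonempty V] (H : SimpleGraph V)
    (h : HasRS H) : IsCliqueGraph H := by
  obtain ⟨F, hF, hcov, hhel⟩ := h
  let W := {C : Set V // C.Nonempty ∧ (C ∈ F ∨ ∃ v, C = {v})}
  let G : SimpleGraph W :=
    { Adj := fun C D => C ≠ D ∧ (C.1 ∩ D.1).Nonempty
      symm := ⟨fun s t h => ⟨h.1.symm, by rw [Set.inter_comm]; exact h.2⟩⟩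
      loopless := ⟨fun s h => h.1 rfl⟩ }
  let Q : V → Set W := fun v => {C | v ∈ C.1}
  let sg : V → W := fun v => ⟨{v}, Set.singleton_nonempty v, Or.inr ⟨v, rfl⟩⟩
  have hQcl : ∀ v, G.IsClique (Q v) := by
    intro v C hC D hD hne
    exact ⟨hne, ⟨v, hC, hD⟩⟩
  have hQmax : ∀ v, Maximal G.IsClique (Q v) := by
    intro v
    refine ⟨hQcl v, ?_⟩
    intro S hS hle D hD
    by_cases hDv : D = sg v
    · rw [hDv]; exact Set.mem_singleton v
    · have h1 : sg v ∈ S := hle (Set.mem_singleton v)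
      have h2 := hS hD h1 hDv
      obtain ⟨x, hx1, hx2⟩ := h2.2
      have : x = v := hx2
      rw [this] at hx1
      exact hx1
  let φ : V → {s : Set W // Maximal G.IsClique s} := fun v => ⟨Q v, hQmax v⟩
  have hinj : Function.Injective φ := by
    intro v w h
    have h1 : Q v = Q w := congrArg Subtype.val h
    have h2 : sg v ∈ Q v := Set.mem_singleton v
    rw [h1] at h2
    exact (h2 : w = v).symm
  have hsurj : Function.Surjective φ := by
    rintro ⟨S, hS⟩
    have hne : S.Nonempty := by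
      by_contra hcon
      rw [Set.not_nonempty_iff_eq_empty] at hcon
      obtain ⟨v⟩ := ‹Nonempty V›
      have h1 : S ⊆ Q v := by rw [hcon]; exact Set.empty_subset _
      have h2 := hS.2 (hQcl v) h1
      have h3 : sg v ∈ Q v := Set.mem_singleton v
      have := h2 h3
      rw [hcon] at this
      exact this
    have hpair : ∀ C ∈ S, ∀ D ∈ S, (C.1 ∩ D.1).Nonempty := by
      intro C hC D hD
      by_cases hCD : C = D
      · rw [hCD, Set.inter_self]; exact D.2.1
      · exact (hS.1 hC hD hCD).2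
    have hcommon : ∃ v, ∀ C ∈ S, v ∈ C.1 := by
      by_cases hsing : ∃ v, sg v ∈ S
      · obtain ⟨v, hv⟩ := hsing
        refine ⟨v, ?_⟩
        intro C hC
        obtain ⟨x, hx1, hx2⟩ := hpair C hC _ hv
        have : x = v := hx2
        rw [← this]; exact hx1
      · have hsub : (Subtype.val '' S) ⊆ F := by
          rintro _ ⟨C, hC, rfl⟩
          rcases C.2.2 with h | ⟨v, hv⟩
          · exact h
          · exfalso
            apply hsing
            refine ⟨v, ?_⟩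
            have : C = sg v := Subtype.ext hv
            rw [← this]; exact hC
        obtain ⟨v, hv⟩ := hhel _ hsub (hne.image _) (by
          rintro _ ⟨C, hC, rfl⟩ _ ⟨D, hD, rfl⟩
          exact hpair C hC D hD)
        exact ⟨v, fun C hC => hv _ ⟨C, hC, rfl⟩⟩
    obtain ⟨v, hv⟩ := hcommon
    refine ⟨v, Subtype.ext ?_⟩
    have h1 : S ⊆ Q v := fun C hC => hv C hC
    exact Set.Subset.antisymm (hS.2 (hQcl v) h1) h1
  refine ⟨W, inferInstance, G, ⟨⟨Equiv.ofBijective φ ⟨hinj, hsurj⟩, ?_⟩⟩⟩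
  intro a b
  constructor
  · rintro ⟨h1, C, hC1, hC2⟩
    have hab : a ≠ b := fun h => h1 (by rw [h])
    rcases C.2.2 with h | ⟨v, hv⟩
    · exact hF _ h hC1 hC2 hab
    · exfalso
      have e1 : a = v := by
        have : a ∈ C.1 := hC1
        rw [hv] at this; exact this
      have e2 : b = v := by
        have : b ∈ C.1 := hC2
        rw [hv] at this; exact this
      exact hab (e1.trans e2.symm)
  · intro hab
    obtain ⟨C, hC, h1, h2⟩ := hcov a b hab
    refine ⟨fun h => hab.ne (hinj h), ⟨⟨C, ⟨a, h1⟩, Or.inl hC⟩, h1, h2⟩⟩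

/-- A clique graph has at least one vertex. -/
theorem nonempty_of_isCliqueGraph {V : Type} (H : SimpleGraph V) (h : IsCliqueGraph H) :
    Nonempty V := by
  obtain ⟨W, hW, G, ⟨e⟩⟩ := h
  obtain ⟨t, h1, h2⟩ := exists_max_clique G ∅ (by simp)
  exact ⟨e.symm ⟨t, h2⟩⟩

/-- Core functions: every edge `ab` gets a complete set `K a b` containing it. -/
structure CoreFn {V : Type} (H : SimpleGraph V) (K : V → V → Set V) : Prop where
  symm : ∀ a b, K a b = K b a
  mem : ∀ a b, H.Adj a b → a ∈ K a b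
  clique : ∀ a b, H.Adj a b → H.IsClique (K a b)
  clos : ∀ a b, H.Adj a b → ∀ c ∈ K a b, ∀ d ∈ K a b, c ≠ d → K c d ⊆ K a b
  tri : ∀ a b c, H.Adj a b → H.Adj b c → H.Adj a c → ∃ w, w ∈ K a b ∧ w ∈ K b c ∧ w ∈ K a c

theorem exists_core_of_hasRS {V : Type} (H : SimpleGraph V) (h : HasRS H) :
    ∃ K, CoreFn H K := by
  obtain ⟨F, hF, hcov, hhel⟩ := h
  refine ⟨fun a b => ⋂₀ {C | C ∈ F ∧ a ∈ C ∧ b ∈ C}, ?_, ?_, ?_, ?_, ?_⟩
  · intro a b
    congr 1
    ext C
    simp only [Set.mem_ofPred_eq]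
    tauto
  · intro a b _ C hC
    exact hC.2.1
  · intro a b hab x hx y hy hxy
    obtain ⟨C, hC, h1, h2⟩ := hcov a b hab
    exact hF C hC (hx C ⟨hC, h1, h2⟩) (hy C ⟨hC, h1, h2⟩) hxy
  · intro a b _ c hc d hd _ x hx C hC
    exact hx C ⟨hC.1, hc C hC, hd C hC⟩
  · intro a b c hab hbc hac
    have := hhel {C | C ∈ F ∧ ((a ∈ C ∧ b ∈ C) ∨ (b ∈ C ∧ c ∈ C) ∨ (a ∈ C ∧ c ∈ C))}
      (fun C hC => hC.1)
      (by
        obtain ⟨C, hC, h1, h2⟩ := hcov a b hab
        exact ⟨C, hC, Or.inl ⟨h1, h2⟩⟩)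
      (by
        rintro C ⟨_, hC⟩ D ⟨_, hD⟩
        rcases hC with ⟨h1, h2⟩ | ⟨h1, h2⟩ | ⟨h1, h2⟩ <;>
        rcases hD with ⟨h3, h4⟩ | ⟨h3, h4⟩ | ⟨h3, h4⟩
        · exact ⟨a, h1, h3⟩
        · exact ⟨b, h2, h3⟩
        · exact ⟨a, h1, h3⟩
        · exact ⟨b, h1, h4⟩
        · exact ⟨b, h1, h3⟩
        · exact ⟨c, h2, h4⟩
        · exact ⟨a, h1, h3⟩
        · exact ⟨c, h2, h4⟩
        · exact ⟨a, h1, h3⟩)
    obtain ⟨w, hw⟩ := this
    exact ⟨w, fun C hC => hw C ⟨hC.1, Or.inl hC.2⟩, fun C hC => hw C ⟨hC.1, Or.inr (Or.inl hC.2)⟩,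
      fun C hC => hw C ⟨hC.1, Or.inr (Or.inr hC.2)⟩⟩

theorem hasRS_of_core {V : Type} [Finite V] (H : SimpleGraph V) (K : V → V → Set V)
    (hK : CoreFn H K) : HasRS H := by
  classical
  have hmem2 : ∀ a b, H.Adj a b → b ∈ K a b := by
    intro a b hab
    rw [hK.symm]
    exact hK.mem b a hab.symm
  refine ⟨{C | H.IsClique C ∧ ∀ c ∈ C, ∀ d ∈ C, c ≠ d → K c d ⊆ C}, fun C hC => hC.1, ?_, ?_⟩
  · intro a b hab
    exact ⟨K a b, ⟨hK.clique a b hab, hK.clos a b hab⟩, hK.mem a b hab, hmem2 a b hab⟩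
  · have key : ∀ n : ℕ, ∀ 𝒢 : Finset (Set V), 𝒢.card = n → 𝒢.Nonempty →
        (∀ C ∈ 𝒢, H.IsClique C ∧ ∀ c ∈ C, ∀ d ∈ C, c ≠ d → K c d ⊆ C) →
        (∀ C ∈ 𝒢, ∀ D ∈ 𝒢, (C ∩ D).Nonempty) → ∃ v, ∀ C ∈ 𝒢, v ∈ C := by
      intro n
      induction n using Nat.strong_induction_on with
      | _ n ih =>
        intro 𝒢 hcard hne hF hpair
        by_cases h3 : n ≤ 2
        · obtain ⟨C, hC⟩ := hne
          by_cases hD : ∃ D ∈ 𝒢, D ≠ C
          · obtain ⟨D, hD, hDC⟩ := hD
            obtain ⟨v, hv1, hv2⟩ := hpair C hC D hD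
            refine ⟨v, ?_⟩
            intro E hE
            by_contra hvE
            have hEC : E ≠ C := fun h => hvE (by rw [h]; exact hv1)
            have hED : E ≠ D := fun h => hvE (by rw [h]; exact hv2)
            have : ({C, D, E} : Finset (Set V)) ⊆ 𝒢 := by
              intro x hx
              simp only [Finset.mem_insert, Finset.mem_singleton] at hx
              rcases hx with rfl | rfl | rfl <;> assumption
            have h4 := Finset.card_le_card this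
            rw [Finset.card_eq_three.2 ⟨C, D, E, hDC.symm, hEC.symm, hED.symm, rfl⟩] at h4
            omega
          · push Not at hD
            obtain ⟨v, hv, _⟩ := hpair C hC C hC
            exact ⟨v, fun D hD' => by rw [hD D hD']; exact hv⟩
        · have h3' : 2 < 𝒢.card := by omega
          obtain ⟨C1, hC1, C2, hC2, C3, hC3, h12, h13, h23⟩ := Finset.two_lt_card.1 h3'
          have sub : ∀ C ∈ 𝒢, ∃ v, ∀ D ∈ 𝒢, D ≠ C → v ∈ D := by
            intro C hC
            have hc : (𝒢.erase C).card < n := by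
              rw [Finset.card_erase_of_mem hC]; omega
            obtain ⟨v, hv⟩ := ih _ hc (𝒢.erase C) rfl (by
              rw [← Finset.card_pos, Finset.card_erase_of_mem hC]; omega)
              (fun D hD => hF D (Finset.mem_of_mem_erase hD))
              (fun D hD E hE => hpair D (Finset.mem_of_mem_erase hD) E
                (Finset.mem_of_mem_erase hE))
            exact ⟨v, fun D hD hDC => hv D (Finset.mem_erase.2 ⟨hDC, hD⟩)⟩
          obtain ⟨v1, hv1⟩ := sub C1 hC1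
          obtain ⟨v2, hv2⟩ := sub C2 hC2
          obtain ⟨v3, hv3⟩ := sub C3 hC3
          by_cases g1 : v1 ∈ C1
          · refine ⟨v1, fun D hD => ?_⟩
            by_cases hDC : D = C1
            · rw [hDC]; exact g1
            · exact hv1 D hD hDC
          by_cases g2 : v2 ∈ C2
          · refine ⟨v2, fun D hD => ?_⟩
            by_cases hDC : D = C2
            · rw [hDC]; exact g2
            · exact hv2 D hD hDC
          by_cases g3 : v3 ∈ C3
          · refine ⟨v3, fun D hD => ?_⟩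
            by_cases hDC : D = C3
            · rw [hDC]; exact g3
            · exact hv3 D hD hDC
          have n12 : v1 ≠ v2 := fun h => g1 (by rw [h]; exact hv2 C1 hC1 h12)
          have n13 : v1 ≠ v3 := fun h => g1 (by rw [h]; exact hv3 C1 hC1 h13)
          have n23 : v2 ≠ v3 := fun h => g2 (by rw [h]; exact hv3 C2 hC2 h23)
          have m1 : v1 ∈ C2 := hv1 C2 hC2 h12.symm
          have m2 : v1 ∈ C3 := hv1 C3 hC3 h13.symm
          have m3 : v2 ∈ C1 := hv2 C1 hC1 h12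
          have m4 : v2 ∈ C3 := hv2 C3 hC3 h23.symm
          have m5 : v3 ∈ C1 := hv3 C1 hC1 h13
          have m6 : v3 ∈ C2 := hv3 C2 hC2 h23
          obtain ⟨w, w1, w2, w3⟩ := hK.tri v1 v2 v3 ((hF C3 hC3).1 m2 m4 n12)
            ((hF C1 hC1).1 m3 m5 n23) ((hF C2 hC2).1 m1 m6 n13)
          refine ⟨w, fun D hD => ?_⟩
          by_cases e3 : D = C3
          · rw [e3]; exact (hF C3 hC3).2 v1 m2 v2 m4 n12 w1
          by_cases e1 : D = C1
          · rw [e1]; exact (hF C1 hC1).2 v2 m3 v3 m5 n23 w2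
          exact (hF D hD).2 v1 (hv1 D hD e1) v3 (hv3 D hD e3) n13 w3
    intro 𝒢 h𝒢 hne hpair
    have hfin : 𝒢.Finite := Set.toFinite 𝒢
    obtain ⟨v, hv⟩ := key _ hfin.toFinset rfl (by
        obtain ⟨C, hC⟩ := hne
        exact ⟨C, hfin.mem_toFinset.2 hC⟩)
      (fun C hC => h𝒢 (hfin.mem_toFinset.1 hC))
      (fun C hC D hD => hpair C (hfin.mem_toFinset.1 hC) D (hfin.mem_toFinset.1 hD))
    exact ⟨v, fun C hC => hv C (hfin.mem_toFinset.2 hC)⟩

/-- Clique graphs are the nonempty graphs with a core function. -/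
theorem isCliqueGraph_iff_core {V : Type} [Finite V] [Nonempty V] (H : SimpleGraph V) :
    IsCliqueGraph H ↔ ∃ K, CoreFn H K :=
  ⟨fun h => exists_core_of_hasRS H (hasRS_of_isCliqueGraph H h),
    fun ⟨K, hK⟩ => isCliqueGraph_of_hasRS H (hasRS_of_core H K hK)⟩

end Pool.Agent.Helper74
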