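import Pool.Agent.Helper74.Formula

/-!
The evaluator for first-order formulas.
-/

namespace Pool.Agent.Helper74

open Function Stk

/-- First-order formulas over one binary relation and one relation of a fixed arity,
with named variables. -/
inductive Fm : Type
  | adj (i j : ℕ)
  | eq (i j : ℕ)
  | rel (t : List ℕ)
  | neg (p : Fm)
  | and (p q : Fm)
  | ex (m : ℕ) (p : Fm)

/-- Semantics of formulas. -/
def Fm.eval (n k : ℕ) (E : ℕ → ℕ → Bool) (R : List ℕ → Bool) : Fm → (ℕ → ℕ) → Bool
  | .adj i j, x => E (x i) (x j)
  | .eq i j, x => decide (x i = x j)
  | .rel t, x => if t.length = k then R (t.map x) else false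
  | .neg p, x => !(p.eval n k E R x)
  | .and p q, x => p.eval n k E R x && q.eval n k E R x
  | .ex m p, x => (List.range n).any (fun v => p.eval n k E R (update x m v))

/-- Table of a function on tuples, in lexicographic order. -/
def tab (n : ℕ) : ℕ → (List ℕ → Bool) → List Bool
  | 0, f => [f []]
  | k + 1, f => (List.range n).flatMap (fun i => tab n k (fun t => f (i :: t)))

theorem flatMap_length {g : ℕ → List Bool} {N : ℕ} (l : List ℕ)
    (h : ∀ i ∈ l, (g i).length = N) : (l.flatMap g).length = l.length * N := by
  induction l with
  | nil => simp
  | cons a l ih =>
    rw [List.flatMap_cons, List.length_append, ih (fun i hi => h i (by simp [hi])),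
      h a (by simp), List.length_cons]
    ring

theorem flatMap_get {g : ℕ → List Bool} {N : ℕ} (l : List ℕ)
    (h : ∀ i ∈ l, (g i).length = N) (i j : ℕ) (hi : i < l.length) (hj : j < N) :
    (l.flatMap g)[i * N + j]? = (g l[i])[j]? := by
  induction l generalizing i with
  | nil => simp at hi
  | cons a l ih =>
    rw [List.flatMap_cons]
    cases i with
    | zero =>
      rw [List.getElem?_append_left (by rw [h a (by simp)]; omega)]
      simp
    | succ i =>
      rw [List.getElem?_append_right (by rw [h a (by simp)]; rw [Nat.succ_mul]; omega)]
      rw [h a (by simp)]
      have : (i + 1) * N + j - N = i * N + j := by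
        rw [Nat.succ_mul]; omega
      rw [this, ih (fun i hi => h i (by simp [hi])) i (by simpa using hi)]
      simp

theorem tab_length (n k : ℕ) (f : List ℕ → Bool) : (tab n k f).length = n ^ k := by
  induction k generalizing f with
  | zero => simp [tab]
  | succ k ih =>
    rw [tab, flatMap_length (N := n ^ k) _ (fun i _ => ih _), List.length_range]
    ring

theorem tab_get (n : ℕ) (t : List ℕ) (ht : ∀ v ∈ t, v < n) (f : List ℕ → Bool) :
    (tab n t.length f)[idx n t]? = some (f t) := by
  induction t generalizing f with
  | nil => simp [tab, idx]
  | cons v t ih =>
    rw [List.length_cons, tab, idx]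
    have hv : v < n := ht v (by simp)
    have ht' : ∀ w ∈ t, w < n := fun w hw => ht w (by simp [hw])
    rw [flatMap_get (N := n ^ t.length) _ (fun i _ => tab_length n _ _) v _ (by simpa using hv)
      (idx_lt n t ht')]
    simp only [List.getElem_range]
    exact ih ht' _

/-- Program evaluating a formula. -/
def evalF (k : ℕ) : ℕ → Fm → Prog Stk
  | l, .adj i j => lookup inp l [i, j]
  | l, .eq i j => eqP l i j
  | l, .rel t => if t.length = k then lookup arr l t else .push res false
  | l, .neg p => .seq (evalF k l p)
      (.ite res tt? (.seq (.pop res) (.push res false)) (.seq (.pop res) (.push res true)))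
  | l, .and p q => .seq (evalF k l p) (.seq (evalF k l q)
      (.ite res tt? (.pop res) (.seq (.pop res) (.seq (.pop res) (.push res false)))))
  | l, .ex m p => .seq (moveAll (var m) (sav l)) (.seq (.push res false)
      (.seq (forS num l (.seq (evalF k (l + 1) p)
        (.seq (.ite res tt? (.seq (.pop res) (.seq (.pop res) (.push res true))) (.pop res))
          (.push (var m) true))))
      (.seq (clear (var m)) (moveAll (sav l) (var m)))))

/-- cost of `evalF` -/
def evalC (n k : ℕ) : Fm → ℕ
  | .adj i j => lookupC n [i, j]
  | .eq _ _ => eqC n
  | .rel t => if t.length = k then lookupC n t else 1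
  | .neg p => evalC n k p + 3
  | .and p q => evalC n k p + (evalC n k q + 4)
  | .ex _ p => (n * 5 + 1) + (1 + (forC n (evalC n k p + (4 + 1)) +
      ((n * 2 + 1) + (n * 5 + 1))))

/-- Invariant on states in which formulas are evaluated. -/
structure Inv (n k l : ℕ) (E : ℕ → ℕ → Bool) (R : List ℕ → Bool) (x : ℕ → ℕ)
    (S : Stacks Stk) : Prop where
  num : (S num).length = n
  inp : S inp = tab n 2 (fun t => E (t.getD 0 0) (t.getD 1 0))
  arr : S arr = tab n k R
  tmp : S tmp = []
  aux : S aux = []
  cnt : ∀ l' ≥ l, S (cnt l') = []
  sav : ∀ l' ≥ l, S (sav l') = []
  var : ∀ i, S (var i) = List.replicate (x i) true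

theorem Inv.upd_res {n k l : ℕ} {E : ℕ → ℕ → Bool} {R : List ℕ → Bool} {x : ℕ → ℕ}
    {S : Stacks Stk} (h : Inv n k l E R x S) (r : List Bool) :
    Inv n k l E R x (update S res r) := by
  constructor
  · simpa using h.num
  · simpa using h.inp
  · simpa using h.arr
  · simpa using h.tmp
  · simpa using h.aux
  · intro l' hl'; simpa using h.cnt l' hl'
  · intro l' hl'; simpa using h.sav l' hl'
  · intro i; simpa using h.var i

theorem any_range_succ (f : ℕ → Bool) (i : ℕ) :
    (List.range (i + 1)).any f = ((List.range i).any f || f i) := by
  rw [List.range_succ]
  simp

theorem runs_evalF (n k : ℕ) (E : ℕ → ℕ → Bool) (R : List ℕ → Bool) (p : Fm) (l : ℕ)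
    (x : ℕ → ℕ) (hx : ∀ i, x i < n) (S : Stacks Stk) (hS : Inv n k l E R x S) :
    Runs (evalF k l p) S (update S res (p.eval n k E R x :: S res)) (evalC n k p) := by
  induction p generalizing l x S with
  | adj i j =>
    have h := runs_lookup (a := inp) (Or.inl rfl) n l [i, j] x hx S hS.num hS.tmp hS.aux hS.cnt
      (fun i => by rw [hS.var i]; simp)
    refine h.to ?_ le_rfl
    have := tab_get n [x i, x j] (by
      intro v hv
      simp only [List.mem_cons, List.not_mem_nil, or_false] at hv
      rcases hv with hv | hv
      · rw [hv]; exact hx i
      · rw [hv]; exact hx j) (fun t => E (t.getD 0 0) (t.getD 1 0))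
    rw [hS.inp]
    have h2 : (List.map x [i, j]) = [x i, x j] := rfl
    rw [h2]
    have h3 : ([x i, x j] : List ℕ).length = 2 := rfl
    rw [h3] at this
    rw [this]
    simp [Fm.eval, tt?]
  | eq i j =>
    exact runs_eqP n l i j x hx S hS.tmp hS.aux hS.cnt hS.var
  | rel t =>
    by_cases ht : t.length = k
    · have h := runs_lookup (a := arr) (Or.inr rfl) n l t x hx S hS.num hS.tmp hS.aux hS.cnt
        (fun i => by rw [hS.var i]; simp)
      simp only [evalF, evalC, Fm.eval, ht, if_true]
      refine h.to ?_ le_rfl
      have := tab_get n (t.map x) (by
        intro v hv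
        rw [List.mem_map] at hv
        obtain ⟨w, _, rfl⟩ := hv
        exact hx w) R
      rw [List.length_map, ht] at this
      rw [hS.arr, this]
      simp [tt?]
    · simp only [evalF, evalC, Fm.eval, ht, if_false]
      exact runs_push res false S
  | neg p ih =>
    have h1 := ih l x hx S hS
    simp only [evalF, evalC, Fm.eval]
    refine h1.seq ?_
    cases hb : p.eval n k E R x with
    | true =>
      refine (runs_iteT (by simp [tt?]) ((runs_pop res _).seq (runs_push res false _))).to ?_
        le_rfl
      simp
    | false =>
      refine (runs_iteF (by simp [tt?]) ((runs_pop res _).seq (runs_push res true _))).to ?_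
        le_rfl
      simp
  | and p q ihp ihq =>
    have h1 := ihp l x hx S hS
    have h2 := ihq l x hx _ (hS.upd_res (p.eval n k E R x :: S res))
    simp only [evalF, evalC, Fm.eval]
    refine h1.seq (h2.seq ?_)
    simp only [update_self, update_idem]
    cases hb : q.eval n k E R x with
    | true =>
      refine (runs_iteT (by simp [tt?]) (runs_pop res _)).to ?_ (by omega)
      simp
    | false =>
      refine (runs_iteF (by simp [tt?]) ((runs_pop res _).seq ((runs_pop res _).seq
        (runs_push res false _)))).to ?_ (by omega)
      simp
  | ex m p ih =>
    simp only [evalF, evalC, Fm.eval]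
    have s1 := runs_moveAll (k := var m) (k' := sav l) (by simp) S
    rw [hS.sav l le_rfl, hS.var m, List.append_nil, List.reverse_replicate,
      List.length_replicate] at s1
    set S1 := update (update S (var m) []) (sav l) (List.replicate (x m) true) with hS1
    have s2 := runs_push res false S1
    have hS1res : S1 res = S res := by simp [hS1]
    rw [hS1res] at s2
    let acc : ℕ → Bool := fun i => (List.range i).any (fun v => p.eval n k E R (update x m v))
    let J : ℕ → Stacks Stk := fun i =>
      update (update S1 (var m) (List.replicate i true)) res (acc i :: S res)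
    have hJ0 : J 0 = update S1 res (false :: S res) := by
      simp only [J, acc, List.range_zero, List.any_nil, List.replicate_zero]
      congr 1
      rw [hS1]
      funext j
      by_cases j1 : j = var m
      · subst j1; simp
      · simp [j1]
    have s3 := runs_forS (src := num) (l := l)
      (body := .seq (evalF k (l + 1) p)
        (.seq (.ite res tt? (.seq (.pop res) (.seq (.pop res) (.push res true))) (.pop res))
          (.push (var m) true))) n (evalC n k p + (4 + 1)) J (by simp) (by simp)
      (by simp only [J, hS1]; simpa using hS.num)
      (by simp only [J, hS1]; simpa using hS.tmp)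
      (by intro i _; simp only [J, hS1]; simpa using hS.cnt l le_rfl)
      (by
        intro i hi r
        have hx' : ∀ j, update x m i j < n := by
          intro j
          by_cases hj : j = m
          · subst hj; simpa using hi
          · simpa [hj] using hx j
        have hInv : Inv n k (l + 1) E R (update x m i) (update (J i) (cnt l) r) := by
          constructor
          · simp only [J, hS1]; simpa using hS.num
          · simp only [J, hS1]; simpa using hS.inp
          · simp only [J, hS1]; simpa using hS.arr
          · simp only [J, hS1]; simpa using hS.tmp
          · simp only [J, hS1]; simpa using hS.aux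
          · intro l' hl'
            have h1 : l' ≠ l := by omega
            simp only [J, hS1]
            simpa [h1] using hS.cnt l' (by omega)
          · intro l' hl'
            have h1 : l' ≠ l := by omega
            simp only [J, hS1]
            simpa [h1] using hS.sav l' (by omega)
          · intro j
            by_cases hj : j = m
            · subst hj
              simp [J]
            · simp only [J, hS1]
              simpa [hj] using hS.var j
        have b1 := ih (l + 1) (update x m i) hx' _ hInv
        have hJres : (update (J i) (cnt l) r) res = acc i :: S res := by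
          simp [J]
        rw [hJres] at b1
        refine b1.seq (Runs.seq (S' := update (update (J i) (cnt l) r) res
          (acc (i + 1) :: S res)) ?_ ?_)
        · have hacc : acc (i + 1) = (acc i || p.eval n k E R (update x m i)) :=
            any_range_succ _ i
          cases hb : p.eval n k E R (update x m i) with
          | true =>
            refine (runs_iteT (by simp [tt?]) ((runs_pop res _).seq ((runs_pop res _).seq
              (runs_push res true _)))).to ?_ (by omega)
            simp [hacc, hb]
          | false =>
            refine (runs_iteF (by simp [tt?]) (runs_pop res _)).to ?_ (by omega)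
            simp [hacc, hb]
        · refine (runs_push (var m) true _).to ?_ le_rfl
          funext j
          by_cases j1 : j = var m
          · subst j1; simp [J, List.replicate_succ]
          · by_cases j2 : j = res
            · subst j2; simp [J]
            · by_cases j3 : j = cnt l
              · subst j3; simp
              · simp [J, j1, j2, j3])
    rw [hJ0] at s3
    have s4 := runs_clear (var m) (J n)
    have hJv : (J n (var m)).length = n := by simp [J]
    rw [hJv] at s4
    have s5 := runs_moveAll (k := sav l) (k' := var m) (by simp) (update (J n) (var m) [])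
    have hJs : (update (J n) (var m) []) (sav l) = List.replicate (x m) true := by
      simp [J, hS1]
    rw [hJs, List.reverse_replicate, List.length_replicate] at s5
    refine (s1.seq (s2.seq (s3.seq (s4.seq s5)))).to ?_ ?_
    · funext j
      by_cases j1 : j = var m
      · subst j1; simp [hS.var]
      · by_cases j2 : j = sav l
        · subst j2; simp [hS.sav l le_rfl]
        · by_cases j3 : j = res
          · subst j3; simp [J, acc]
          · simp [J, hS1, j1, j2, j3]
    · have := hx m
      omega

end Pool.Agent.Helper74
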