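import Pool.Agent.Helper74.Step

/-!
Equivalence between local consistency and the existence of a core function.
-/

namespace Pool.Agent.Helper74

open Function

variable {V : Type}

/-- the list of the first sixteen values -/
def lst (x : ℕ → V) : List V := (List.range 16).map x

theorem lst_eq (x : ℕ → V) : lst x = [x 0, x 1, x 2, x 3, x 4, x 5, x 6, x 7, x 8, x 9, x 10,
    x 11, x 12, x 13, x 14, x 15] := rfl

/-- `x` encodes the restriction of `K` to a 4-clique. -/
def Enc (H : SimpleGraph V) (K : V → V → Set V) (x : ℕ → V) : Prop :=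
  (∀ p ∈ prs, H.Adj (x p.1) (x p.2)) ∧ ∀ p ∈ prs, K (x p.1) (x p.2) = Sx x p.1 p.2

theorem exists_uv {H : SimpleGraph V} (hH : NoAttach H) {K : V → V → Set V} (hK : CoreFn H K)
    {a b : V} (hab : H.Adj a b) :
    ∃ u v, K a b = {w | w = a ∨ w = b ∨ w = u ∨ w = v} := by
  have ha : a ∈ K a b := hK.mem a b hab
  have hb : b ∈ K a b := by rw [hK.symm]; exact hK.mem b a hab.symm
  have hcl := hK.clique a b hab
  by_cases h1 : ∃ w ∈ K a b, w ≠ a ∧ w ≠ b
  · obtain ⟨w, hw, hwa, hwb⟩ := h1
    by_cases h2 : ∃ w' ∈ K a b, w' ≠ a ∧ w' ≠ b ∧ w' ≠ w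
    · obtain ⟨w', hw', h3, h4, h5⟩ := h2
      refine ⟨w, w', ?_⟩
      ext z
      simp only [Set.mem_ofPred_eq]
      constructor
      · intro hz
        by_contra hcon
        push Not at hcon
        obtain ⟨g1, g2, g3, g4⟩ := hcon
        exact no_five hH hab (hcl ha hw hwa.symm) (hcl ha hw' h3.symm) (hcl hb hw hwb.symm)
          (hcl hb hw' h4.symm) (hcl hw hw' h5.symm) (hcl hz ha g1) (hcl hz hb g2)
          (hcl hz hw g3) (hcl hz hw' g4)
      · rintro (rfl | rfl | rfl | rfl) <;> assumption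
    · push Not at h2
      refine ⟨w, w, ?_⟩
      ext z
      simp only [Set.mem_ofPred_eq]
      constructor
      · intro hz
        by_cases g1 : z = a
        · exact Or.inl g1
        by_cases g2 : z = b
        · exact Or.inr (Or.inl g2)
        exact Or.inr (Or.inr (Or.inl (h2 z hz g1 g2)))
      · rintro (rfl | rfl | rfl | rfl) <;> assumption
  · push Not at h1
    refine ⟨a, a, ?_⟩
    ext z
    simp only [Set.mem_ofPred_eq]
    constructor
    · intro hz
      by_cases g1 : z = a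
      · exact Or.inl g1
      · exact Or.inr (Or.inl (h1 z hz g1))
    · rintro (rfl | rfl | rfl | rfl) <;> assumption

theorem prms_uv : ∀ L ∈ prms, ∀ p ∈ prs,
    (L.getD p.1 0, L.getD p.2 0) ∈ prs ∧
    (L.getD (uv p.1 p.2).1 0, L.getD (uv p.1 p.2).2 0)
      = uv (L.getD p.1 0) (L.getD p.2 0) := by
  decide

theorem prms_map (L : List ℕ) (hL : L ∈ prms) (x : ℕ → V) :
    L.map x = lst (fun i => x (L.getD i 0)) := by
  simp only [prms, List.mem_cons, List.not_mem_nil, or_false] at hL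
  rcases hL with rfl | rfl | rfl | rfl <;> rfl

theorem Sx_prm (L : List ℕ) (hL : L ∈ prms) (x : ℕ → V) (p : ℕ × ℕ) (hp : p ∈ prs) :
    Sx (fun i => x (L.getD i 0)) p.1 p.2 = Sx x (L.getD p.1 0) (L.getD p.2 0) := by
  have h := (prms_uv L hL p hp).2
  have h1 : L.getD (uv p.1 p.2).1 0 = (uv (L.getD p.1 0) (L.getD p.2 0)).1 := by rw [← h]
  have h2 : L.getD (uv p.1 p.2).2 0 = (uv (L.getD p.1 0) (L.getD p.2 0)).2 := by rw [← h]
  unfold Sx
  beta_reduce
  rw [h1, h2]

theorem Enc.prm {H : SimpleGraph V} {K : V → V → Set V} {x : ℕ → V} (hx : Enc H K x)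
    (L : List ℕ) (hL : L ∈ prms) : Enc H K (fun i => x (L.getD i 0)) := by
  refine ⟨fun p hp => hx.1 _ (prms_uv L hL p hp).1, fun p hp => ?_⟩
  rw [Sx_prm L hL x p hp]
  exact hx.2 _ (prms_uv L hL p hp).1

theorem stepP_of_enc {H : SimpleGraph V} (hH : NoAttach H) {K : V → V → Set V}
    (hK : CoreFn H K) (R : List V → Prop) (hR : ∀ x, Enc H K x → R (lst x)) (x : ℕ → V)
    (hx : Enc H K x) : StepP H.Adj R x := by
  have hadj := hx.1
  have hSx := hx.2
  refine ⟨hadj, ?_, ?_, ?_, ?_, ?_, ?_⟩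
  · intro p hp a ha b hb
    rw [← hSx p hp] at ha hb
    by_cases hab : a = b
    · exact Or.inl hab
    · exact Or.inr (hK.clique _ _ (hadj p hp) ha hb hab)
  · intro p hp
    rcases core_dom hK (hadj p hp) with h | h
    · left
      intro a ha
      rw [← hSx p hp, h] at ha
      exact ha
    · right
      intro c h1 h2
      rw [← hSx p hp]
      rcases h c h1 h2 with h3 | ⟨w, h3, h4, h5, h6⟩
      · exact Or.inl h3
      · exact Or.inr ⟨w, h3, h4, h5, h6⟩
  · intro p hp q hq h1 h2 w hw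
    rw [← hSx p hp] at h1 h2 ⊢
    rw [← hSx q hq] at hw
    exact hK.clos _ _ (hadj p hp) _ h1 _ h2 (hadj q hq).ne hw
  · intro p hp q hq hpq hpq'
    have hr : (p.1, q.2) ∈ prs := by
      rw [mem_prs] at hp hq ⊢
      exact ⟨hp.1, hq.2.1, hpq'⟩
    have h1 := hSx p hp
    have h2 := hSx q hq
    have h3 := hSx _ hr
    have a1 := hadj p hp
    have a2 := hadj q hq
    have a3 := hadj _ hr
    rw [hpq] at a1
    obtain ⟨w, w1, w2, w3⟩ := hK.tri (x p.1) (x q.1) (x q.2) a1 a2 a3
    refine ⟨w, ?_, ?_, ?_⟩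
    · rw [← h1, hpq]; exact w1
    · rw [← h2]; exact w2
    · rw [← h3]; exact w3
  · intro L hL
    rw [prms_map L hL]
    exact hR _ (hx.prm L hL)
  · intro y h0 h1 h2
    obtain ⟨v1, v2, e1⟩ := exists_uv hH hK h0.symm
    obtain ⟨v3, v4, e2⟩ := exists_uv hH hK h1.symm
    obtain ⟨v5, v6, e3⟩ := exists_uv hH hK h2.symm
    refine ⟨v1, v2, v3, v4, v5, v6, ?_⟩
    let z : ℕ → V := fun i =>
      [x 0, x 1, x 2, y, x 4, x 5, x 6, x 7, v1, v2, x 10, x 11, v3, v4, v5, v6].getD i y
    have hz : lst z = [x 0, x 1, x 2, y, x 4, x 5, x 6, x 7, v1, v2, x 10, x 11, v3, v4, v5,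
        v6] := rfl
    rw [← hz]
    apply hR
    have a01 := hadj (0, 1) (by simp [prs])
    have a02 := hadj (0, 2) (by simp [prs])
    have a12 := hadj (1, 2) (by simp [prs])
    have s01 := hSx (0, 1) (by simp [prs])
    have s02 := hSx (0, 2) (by simp [prs])
    have s12 := hSx (1, 2) (by simp [prs])
    have z0 : z 0 = x 0 := rfl
    have z1 : z 1 = x 1 := rfl
    have z2 : z 2 = x 2 := rfl
    have z3 : z 3 = y := rfl
    have Kz : ∀ i j, i < 4 → j < 4 → i < j → H.Adj (z i) (z j) ∧ K (z i) (z j) = Sx z i j := by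
      intro i j hi hj hij
      interval_cases i <;> interval_cases j <;> first
        | omega
        | exact ⟨a01, s01⟩
        | exact ⟨a02, s02⟩
        | exact ⟨a12, s12⟩
        | skip
      · refine ⟨h0.symm, ?_⟩
        rw [z0, z3, e1]
        ext w
        simp only [Set.mem_ofPred_eq, Sx, uv, z]
        rfl
      · refine ⟨h1.symm, ?_⟩
        rw [z1, z3, e2]
        ext w
        simp only [Set.mem_ofPred_eq, Sx, uv, z]
        rfl
      · refine ⟨h2.symm, ?_⟩
        rw [z2, z3, e3]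
        ext w
        simp only [Set.mem_ofPred_eq, Sx, uv, z]
        rfl
    have Sxs : ∀ i j, i < 4 → j < 4 → Sx z i j = Sx z j i := by
      intro i j hi hj
      unfold Sx
      rw [uv_symm i j hi hj]
      ext w
      simp only [Set.mem_ofPred_eq]
      tauto
    constructor
    · intro p hp
      rw [mem_prs] at hp
      rcases lt_or_gt_of_ne hp.2.2 with h | h
      · exact (Kz _ _ hp.1 hp.2.1 h).1
      · exact (Kz _ _ hp.2.1 hp.1 h).1.symm
    · intro p hp
      rw [mem_prs] at hp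
      rcases lt_or_gt_of_ne hp.2.2 with h | h
      · exact (Kz _ _ hp.1 hp.2.1 h).2
      · rw [hK.symm, Sxs _ _ hp.1 hp.2.1]
        exact (Kz _ _ hp.2.1 hp.1 h).2

section complete

variable [DecidableEq V]

/-- the vertex set encoded by `x` -/
def Qx (x : ℕ → V) : Finset V := {x 0, x 1, x 2, x 3}

theorem mem_Qx {x : ℕ → V} {a : V} : a ∈ Qx x ↔ ∃ i < 4, a = x i := by
  simp only [Qx, Finset.mem_insert, Finset.mem_singleton]
  constructor
  · rintro (h | h | h | h)
    · exact ⟨0, by omega, h⟩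
    · exact ⟨1, by omega, h⟩
    · exact ⟨2, by omega, h⟩
    · exact ⟨3, by omega, h⟩
  · rintro ⟨i, hi, h⟩
    interval_cases i <;> simp [h]

/-- local states given by the consistency relation -/
def PSt (R : List V → Prop) (Q : Finset V) (κ : V → V → Set V) : Prop :=
  ∃ x : ℕ → V, R (lst x) ∧ Q = Qx x ∧ ∀ p ∈ prs, κ (x p.1) (x p.2) = Sx x p.1 p.2

theorem Sx_symm (x : ℕ → V) {i j : ℕ} (hi : i < 4) (hj : j < 4) : Sx x i j = Sx x j i := by
  unfold Sx
  rw [uv_symm i j hi hj]
  ext w
  simp only [Set.mem_ofPred_eq]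
  tauto

theorem prs_symm {p : ℕ × ℕ} (hp : p ∈ prs) : (p.2, p.1) ∈ prs := by
  rw [mem_prs] at hp ⊢
  exact ⟨hp.2.1, hp.1, hp.2.2.symm⟩

theorem localOK_of_PSt {H : SimpleGraph V} {R : List V → Prop}
    (hfix : ∀ x, R (lst x) → StepP H.Adj R x) {Q : Finset V} {κ : V → V → Set V}
    (h : PSt R Q κ) : LocalOK H Q κ := by
  obtain ⟨x, hx, rfl, hκ⟩ := h
  have hS := hfix x hx
  have pair : ∀ a ∈ Qx x, ∀ b ∈ Qx x, a ≠ b → ∃ p ∈ prs, a = x p.1 ∧ b = x p.2 := by
    intro a ha b hb hab
    rw [mem_Qx] at ha hb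
    obtain ⟨i, hi, rfl⟩ := ha
    obtain ⟨j, hj, rfl⟩ := hb
    refine ⟨(i, j), mem_prs.2 ⟨hi, hj, ?_⟩, rfl, rfl⟩
    intro hij
    apply hab
    simp only at hij
    rw [hij]
  refine ⟨?_, ?_, ?_, ?_, ?_, ?_⟩
  · intro a ha b hb hab
    obtain ⟨p, hp, rfl, rfl⟩ := pair a ha b hb hab
    have h2 := mem_prs.1 hp
    rw [hκ p hp]
    have := hκ _ (prs_symm hp)
    simp only at this
    rw [this]
    exact Sx_symm x h2.1 h2.2.1
  · intro a ha b hb hab
    obtain ⟨p, hp, rfl, rfl⟩ := pair a ha b hb hab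
    rw [hκ p hp]
    exact Or.inl rfl
  · intro a ha b hb hab
    obtain ⟨p, hp, rfl, rfl⟩ := pair a ha b hb hab
    rw [hκ p hp]
    intro c hc d hd hcd
    exact (hS.clq p hp c hc d hd).resolve_left hcd
  · intro a ha b hb hab
    obtain ⟨p, hp, rfl, rfl⟩ := pair a ha b hb hab
    rw [hκ p hp]
    rcases hS.dom p hp with h | h
    · left
      ext w
      constructor
      · intro hw
        exact h w hw
      · rintro (h | h)
        · exact Or.inl h
        · exact Or.inr (Or.inl h)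
    · right
      intro c h1 h2
      rcases h c h1 h2 with h3 | ⟨w, h3, h4, h5, h6⟩
      · exact Or.inl h3
      · exact Or.inr ⟨w, h3, h4, h5, h6⟩
  · intro a ha b hb hab c hc d hd hcd h1 h2
    obtain ⟨p, hp, rfl, rfl⟩ := pair a ha b hb hab
    obtain ⟨q, hq, rfl, rfl⟩ := pair c hc d hd hcd
    rw [hκ p hp] at h1 h2 ⊢
    rw [hκ q hq]
    exact fun w hw => hS.clos p hp q hq h1 h2 w hw
  · intro a ha b hb c hc hab hbc hac
    rw [mem_Qx] at ha hb hc
    obtain ⟨i, hi, rfl⟩ := ha
    obtain ⟨j, hj, rfl⟩ := hb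
    obtain ⟨k, hk, rfl⟩ := hc
    have hij : (i, j) ∈ prs := mem_prs.2 ⟨hi, hj, fun h => hab (congrArg x h)⟩
    have hjk : (j, k) ∈ prs := mem_prs.2 ⟨hj, hk, fun h => hbc (congrArg x h)⟩
    have hik : (i, k) ∈ prs := mem_prs.2 ⟨hi, hk, fun h => hac (congrArg x h)⟩
    obtain ⟨w, w1, w2, w3⟩ := hS.tri (i, j) hij (j, k) hjk rfl (fun h => hac (congrArg x h))
    have e1 := hκ _ hij
    have e2 := hκ _ hjk
    have e3 := hκ _ hik
    simp only at e1 e2 e3
    exact ⟨w, by rw [e1]; exact w1, by rw [e2]; exact w2, by rw [e3]; exact w3⟩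

theorem PSt.inj {H : SimpleGraph V} {R : List V → Prop} {x : ℕ → V} (hS : StepP H.Adj R x)
    {i j : ℕ} (hi : i < 4) (hj : j < 4) (h : x i = x j) : i = j := by
  by_contra hij
  have := hS.k4 (i, j) (mem_prs.2 ⟨hi, hj, hij⟩)
  exact this.ne h

/-- move a given vertex of the 4-clique to the last place -/
theorem PSt.reorder {H : SimpleGraph V} {R : List V → Prop}
    (hfix : ∀ x, R (lst x) → StepP H.Adj R x) {Q : Finset V} {κ : V → V → Set V}
    (h : PSt R Q κ) {d : V} (hd : d ∈ Q) :
    ∃ x : ℕ → V, R (lst x) ∧ Q = Qx x ∧ (∀ p ∈ prs, κ (x p.1) (x p.2) = Sx x p.1 p.2) ∧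
      x 3 = d := by
  obtain ⟨x, hx, hQ, hκ⟩ := h
  have hS := hfix x hx
  rw [hQ, mem_Qx] at hd
  obtain ⟨i, hi, rfl⟩ := hd
  have main : ∀ L ∈ prms, L.getD 3 0 = i →
      (∀ a, a ∈ Qx x ↔ a ∈ Qx (fun j => x (L.getD j 0))) →
      ∃ x' : ℕ → V, R (lst x') ∧ Q = Qx x' ∧ (∀ p ∈ prs, κ (x' p.1) (x' p.2) = Sx x' p.1 p.2) ∧
      x' 3 = x i := by
    intro L hL h3 hmem
    refine ⟨fun j => x (L.getD j 0), ?_, ?_, ?_, ?_⟩
    · rw [← prms_map L hL]; exact hS.prm L hL
    · rw [hQ]; ext a; exact hmem a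
    · intro p hp
      rw [Sx_prm L hL x p hp]
      exact hκ _ (prms_uv L hL p hp).1
    · simp only [h3]
  interval_cases i
  · refine main [1, 2, 3, 0, 10, 11, 12, 13, 4, 5, 14, 15, 6, 7, 8, 9] (by simp [prms]) rfl ?_
    intro a
    simp [Qx]
    tauto
  · refine main [0, 2, 3, 1, 6, 7, 8, 9, 4, 5, 14, 15, 10, 11, 12, 13] (by simp [prms]) rfl ?_
    intro a
    simp [Qx]
    tauto
  · refine main [0, 1, 3, 2, 4, 5, 8, 9, 6, 7, 12, 13, 10, 11, 14, 15] (by simp [prms]) rfl ?_
    intro a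
    simp [Qx]
    tauto
  · exact ⟨x, hx, hQ, hκ, rfl⟩

theorem core_of_fix [Finite V] {H : SimpleGraph V} (hH : NoAttach H) (hT : TriCond H)
    (R : List V → Prop) (hfix : ∀ x, R (lst x) → StepP H.Adj R x)
    (hinit : ∀ a b c d, H.Adj a b → H.Adj a c → H.Adj a d → H.Adj b c → H.Adj b d →
      H.Adj c d → ∃ x : ℕ → V, x 0 = a ∧ x 1 = b ∧ x 2 = c ∧ x 3 = d ∧ R (lst x)) :
    ∃ K, CoreFn H K := by
  classical
  obtain ⟨κ, h1, h2⟩ := glue H hH (PSt R) (by
      intro Q hQ
      have hne : Q.Nonempty := by rw [← Finset.card_pos, hQ.2]; omega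
      obtain ⟨a, ha⟩ := hne
      have hne2 : (Q.erase a).Nonempty := by
        rw [← Finset.card_pos, Finset.card_erase_of_mem ha, hQ.2]; omega
      obtain ⟨b, hb⟩ := hne2
      rw [Finset.mem_erase] at hb
      obtain ⟨c, d, hca, hcb, hda, hdb, hcd, hQeq⟩ := four_split hQ ha hb.2 hb.1.symm
      have hc : c ∈ Q := by rw [hQeq]; simp
      have hd : d ∈ Q := by rw [hQeq]; simp
      obtain ⟨x, hx0, hx1, hx2, hx3, hx⟩ := hinit a b c d (hQ.1 ha hb.2 hb.1.symm)
        (hQ.1 ha hc hca.symm) (hQ.1 ha hd hda.symm) (hQ.1 hb.2 hc hcb.symm)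
        (hQ.1 hb.2 hd hdb.symm) (hQ.1 hc hd hcd)
      have hS := hfix x hx
      refine ⟨fun a b => {w | ∃ p ∈ prs, a = x p.1 ∧ b = x p.2 ∧ w ∈ Sx x p.1 p.2}, x, hx, ?_, ?_⟩
      · rw [hQeq, Qx, hx0, hx1, hx2, hx3]
      · intro p hp
        ext w
        simp only [Set.mem_ofPred_eq]
        constructor
        · rintro ⟨q, hq, e1, e2, hw⟩
          have hp' := mem_prs.1 hp
          have hq' := mem_prs.1 hq
          have i1 := PSt.inj hS hp'.1 hq'.1 e1
          have i2 := PSt.inj hS hp'.2.1 hq'.2.1 e2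
          rw [i1, i2]; exact hw
        · intro hw
          exact ⟨p, hp, rfl, rfl, hw⟩)
    (by
      intro Q Q' hQ hQ' hcard κ hκ
      -- the vertex of Q outside Q'
      obtain ⟨d, hdQ, hdQ'⟩ : ∃ d ∈ Q, d ∉ Q' := by
        by_contra hc
        push Not at hc
        have : Q ∩ Q' = Q := Finset.inter_eq_left.2 hc
        rw [this, hQ.2] at hcard
        omega
      obtain ⟨y, hyQ', hyQ⟩ : ∃ y ∈ Q', y ∉ Q := by
        by_contra hc
        push Not at hc
        have : Q ∩ Q' = Q' := Finset.inter_eq_right.2 hc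
        rw [this, hQ'.2] at hcard
        omega
      have hd_unique : ∀ z ∈ Q, z ≠ d → z ∈ Q' := by
        intro z hz hzd
        by_contra hz'
        have hsub : insert z (insert d (Q ∩ Q')) ⊆ Q := by
          intro w hw
          simp only [Finset.mem_insert, Finset.mem_inter] at hw
          rcases hw with rfl | rfl | ⟨hw, _⟩ <;> assumption
        have := Finset.card_le_card hsub
        rw [Finset.card_insert_of_notMem, Finset.card_insert_of_notMem, hcard, hQ.2] at this
        · omega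
        · simp [hdQ']
        · simp [hzd, hz']
      have hy_unique : ∀ z ∈ Q', z ≠ y → z ∈ Q := by
        intro z hz hzy
        by_contra hz'
        have hsub : insert z (insert y (Q ∩ Q')) ⊆ Q' := by
          intro w hw
          simp only [Finset.mem_insert, Finset.mem_inter] at hw
          rcases hw with rfl | rfl | ⟨_, hw⟩ <;> assumption
        have := Finset.card_le_card hsub
        rw [Finset.card_insert_of_notMem, Finset.card_insert_of_notMem, hcard, hQ'.2] at this
        · omega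
        · simp [hyQ]
        · simp [hzy, hz']
      obtain ⟨x, hx, hQx, hκx, hx3⟩ := hκ.reorder hfix hdQ
      have hS := hfix x hx
      have hin : ∀ i < 3, x i ∈ Q ∧ x i ∈ Q' := by
        intro i hi
        have h1 : x i ∈ Q := by rw [hQx, mem_Qx]; exact ⟨i, by omega, rfl⟩
        refine ⟨h1, hd_unique _ h1 ?_⟩
        rw [← hx3]
        intro h
        have := PSt.inj hS (by omega) (by omega) h
        omega
      have hadjy : ∀ i < 3, H.Adj y (x i) := by
        intro i hi
        exact hQ'.1 hyQ' (hin i hi).2 (fun h => hyQ (h ▸ (hin i hi).1))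
      obtain ⟨v1, v2, v3, v4, v5, v6, hv⟩ := hS.face y (hadjy 0 (by omega)) (hadjy 1 (by omega))
        (hadjy 2 (by omega))
      let z : ℕ → V := fun i =>
        [x 0, x 1, x 2, y, x 4, x 5, x 6, x 7, v1, v2, x 10, x 11, v3, v4, v5, v6].getD i y
      have hz : R (lst z) := hv
      have hSz := hfix z hz
      have hzi : ∀ i < 3, z i = x i := by
        intro i hi
        interval_cases i <;> rfl
      have hz3 : z 3 = y := rfl
      have hQ'z : Q' = Qx z := by
        ext w
        rw [mem_Qx]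
        constructor
        · intro hw
          by_cases hwy : w = y
          · exact ⟨3, by omega, hwy⟩
          · have hwQ := hy_unique w hw hwy
            rw [hQx, mem_Qx] at hwQ
            obtain ⟨i, hi, rfl⟩ := hwQ
            have hi3 : i ≠ 3 := by
              rintro rfl
              rw [hx3] at hw
              exact hdQ' hw
            exact ⟨i, hi, (hzi i (by omega)).symm⟩
        · rintro ⟨i, hi, rfl⟩
          by_cases hi3 : i = 3
          · rw [hi3, hz3]; exact hyQ'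
          · rw [hzi i (by omega)]; exact (hin i (by omega)).2
      refine ⟨fun a b => {w | ∃ p ∈ prs, a = z p.1 ∧ b = z p.2 ∧ w ∈ Sx z p.1 p.2},
        ⟨z, hz, hQ'z, ?_⟩, ?_⟩
      · intro p hp
        ext w
        simp only [Set.mem_ofPred_eq]
        constructor
        · rintro ⟨q, hq, e1, e2, hw⟩
          have hp' := mem_prs.1 hp
          have hq' := mem_prs.1 hq
          have i1 := PSt.inj hSz hp'.1 hq'.1 e1
          have i2 := PSt.inj hSz hp'.2.1 hq'.2.1 e2
          rw [i1, i2]; exact hw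
        · intro hw
          exact ⟨p, hp, rfl, rfl, hw⟩
      · intro a ha b hb hab
        rw [Finset.mem_inter] at ha hb
        have idx : ∀ w, w ∈ Q ∧ w ∈ Q' → ∃ i < 3, w = x i := by
          rintro w ⟨hw, hw'⟩
          rw [hQx, mem_Qx] at hw
          obtain ⟨i, hi, rfl⟩ := hw
          have hi3 : i ≠ 3 := by
            rintro rfl
            rw [hx3] at hw'
            exact hdQ' hw'
          exact ⟨i, by omega, rfl⟩
        obtain ⟨i, hi, rfl⟩ := idx a ha
        obtain ⟨j, hj, rfl⟩ := idx b hb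
        have hij : i ≠ j := fun h => hab (congrArg x h)
        have hp : (i, j) ∈ prs := mem_prs.2 ⟨by omega, by omega, hij⟩
        have e1 := hκx (i, j) hp
        simp only at e1
        rw [e1]
        have e2 : Sx z i j = Sx x i j := by
          interval_cases i <;> interval_cases j <;> first
            | (exact absurd rfl hij)
            | rfl
        rw [← e2]
        ext w
        simp only [Set.mem_ofPred_eq]
        constructor
        · rintro ⟨q, hq, g1, g2, hw⟩
          have hq' := mem_prs.1 hq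
          rw [← hzi i hi] at g1
          rw [← hzi j hj] at g2
          have i1 := PSt.inj hSz (by omega) hq'.1 g1
          have i2 := PSt.inj hSz (by omega) hq'.2.1 g2
          rw [i1, i2]; exact hw
        · intro hw
          exact ⟨(i, j), hp, (hzi i hi).symm, (hzi j hj).symm, hw⟩)
  have hfam : Family H κ := ⟨fun Q hQ => localOK_of_PSt hfix (h1 Q hQ), h2⟩
  exact ⟨asm H κ, core_of_family hH hT hfam⟩

end complete

end Pool.Agent.Helper74
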