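import Pool.Agent.Helper74.Fixpoint
import Pool.Agent.Helper74.Sound

/-!
The final recognition algorithm for clique graphs among graphs without `K₅` minor.
-/

namespace Pool.Agent.Helper74

open Function

/-- only-common-neighbour formula, with bound variable 3 -/
def fonly (a b c : ℕ) : Fm := .all 3 ((Fm.adj 3 a).imp ((Fm.adj 3 b).imp (.eq 3 c)))

/-- every 4-clique has a surviving local state -/
def finA : Fm :=
  .all 0 <| .all 1 <| .all 2 <| .all 3 <| (Fm.adj 0 1).imp <| (Fm.adj 0 2).imp <|
    (Fm.adj 0 3).imp <| (Fm.adj 1 2).imp <| (Fm.adj 1 3).imp <| (Fm.adj 2 3).imp <|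
    .ex 4 <| .ex 5 <| .ex 6 <| .ex 7 <| .ex 8 <| .ex 9 <| .ex 10 <| .ex 11 <| .ex 12 <|
    .ex 13 <| .ex 14 <| .ex 15 <|
      .rel [0, 1, 2, 3, 4, 5, 6, 7, 8, 9, 10, 11, 12, 13, 14, 15]

/-- the condition on triangles -/
def finB : Fm :=
  .all 0 <| .all 1 <| .all 2 <| (Fm.adj 0 1).imp <| (Fm.adj 1 2).imp <| (Fm.adj 0 2).imp <|
      ((Fm.ex 3 (.and (.adj 3 0) (.and (.adj 3 1) (.adj 3 2)))).or
        ((fonly 0 1 2).or ((fonly 1 2 0).or (fonly 0 2 1))))

/-- The final acceptance sentence. -/
def finF : Fm := .and finA finB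

section

variable {V : Type}

theorem holds_finF (H : SimpleGraph V) (R : List V → Prop) (x : ℕ → V) :
    finF.holds 16 H.Adj R x ↔
      (∀ a b c d, H.Adj a b → H.Adj a c → H.Adj a d → H.Adj b c → H.Adj b d → H.Adj c d →
        ∃ v4 v5 v6 v7 v8 v9 v10 v11 v12 v13 v14 v15,
          R [a, b, c, d, v4, v5, v6, v7, v8, v9, v10, v11, v12, v13, v14, v15]) ∧
      TriCond H := by
  simp only [finF, finA, finB, fonly, holds_all, holds_imp, holds_or, Fm.holds, TriCond, OnlyNb,
    Function.update_apply, List.map_cons, List.map_nil, List.length_cons, List.length_nil]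
  simp

/-- iterates of the consistency operator -/
def RP (adj : V → V → Prop) (d0 : V) : ℕ → List V → Prop
  | 0 => fun _ => True
  | j + 1 => fun s => stepF.holds 16 adj (RP adj d0 j) (fun i => s.getD i d0)

theorem lst_getD (x : ℕ → V) (d0 : V) : ∀ i < 16, (lst x).getD i d0 = x i := by
  intro i hi
  simp [lst, List.getD, hi]

theorem lst_of_length {s : List V} (hs : s.length = 16) (d0 : V) :
    lst (fun i => s.getD i d0) = s := by
  apply List.ext_getElem
  · simp [lst, hs]
  · intro i h1 h2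
    simp [lst, List.getD, h2]

theorem StepP.congr {adj : V → V → Prop} {R R' : List V → Prop} {x : ℕ → V}
    (hR : ∀ t : List V, t.length = 16 → (R t → R' t)) (hx : StepP adj R x) :
    StepP adj R' x := by
  obtain ⟨h1, h2, h3, h4, h5, h6, h7⟩ := hx
  refine ⟨h1, h2, h3, h4, h5, fun L hL => hR _ ?_ (h6 L hL), ?_⟩
  · simp only [prms, List.mem_cons, List.not_mem_nil, or_false] at hL
    rcases hL with rfl | rfl | rfl | rfl <;> rfl
  · intro y a b c
    obtain ⟨v1, v2, v3, v4, v5, v6, hv⟩ := h7 y a b c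
    exact ⟨v1, v2, v3, v4, v5, v6, hR _ rfl hv⟩

theorem StepP.congr_x {adj : V → V → Prop} {R : List V → Prop} {x y : ℕ → V}
    (h : ∀ i < 16, x i = y i) (hx : StepP adj R x) : StepP adj R y := by
  obtain ⟨h1, h2, h3, h4, h5, h6, h7⟩ := hx
  have hl : ∀ p ∈ prs, p.1 < 16 ∧ p.2 < 16 := by
    intro p hp
    rw [mem_prs] at hp
    omega
  have hS : ∀ p ∈ prs, Sx x p.1 p.2 = Sx y p.1 p.2 :=
    fun p hp => Sx_congr h (hl p hp).1 (hl p hp).2
  have hy : ∀ i < 16, y i = x i := fun i hi => (h i hi).symm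
  refine ⟨?_, ?_, ?_, ?_, ?_, ?_, ?_⟩
  · intro p hp
    rw [hy _ (hl p hp).1, hy _ (hl p hp).2]; exact h1 p hp
  · intro p hp
    rw [← hS p hp]; exact h2 p hp
  · intro p hp
    rw [← hS p hp, hy _ (hl p hp).1, hy _ (hl p hp).2]; exact h3 p hp
  · intro p hp q hq
    rw [← hS p hp, ← hS q hq, hy _ (hl q hq).1, hy _ (hl q hq).2]; exact h4 p hp q hq
  · intro p hp q hq hpq hpq'
    have hr : (p.1, q.2) ∈ prs := by
      rw [mem_prs] at hp hq ⊢
      exact ⟨hp.1, hq.2.1, hpq'⟩
    have e := hS _ hr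
    simp only at e
    rw [← hS p hp, ← hS q hq, ← e]
    exact h5 p hp q hq hpq hpq'
  · intro L hL
    have : L.map y = L.map x := by
      apply List.map_congr_left
      intro i hi
      apply hy
      have : ∀ L ∈ prms, ∀ i ∈ L, i < 16 := by decide
      exact this L hL i hi
    rw [this]; exact h6 L hL
  · intro z
    rw [hy 0 (by omega), hy 1 (by omega), hy 2 (by omega), hy 4 (by omega), hy 5 (by omega),
      hy 6 (by omega), hy 7 (by omega), hy 10 (by omega), hy 11 (by omega)]
    exact h7 z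

theorem RP_succ_lst (adj : V → V → Prop) (d0 : V) (j : ℕ) (x : ℕ → V) :
    RP adj d0 (j + 1) (lst x) ↔ StepP adj (RP adj d0 j) x := by
  rw [RP]
  beta_reduce
  rw [holds_stepF]
  constructor
  · exact StepP.congr_x (lst_getD x d0)
  · exact StepP.congr_x (fun i hi => (lst_getD x d0 i hi).symm)

theorem RP_anti (adj : V → V → Prop) (d0 : V) (j : ℕ) (s : List V) :
    RP adj d0 (j + 1) s → RP adj d0 j s := by
  induction j generalizing s with
  | zero => intro _; trivial
  | succ j ih =>
    intro h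
    rw [RP, holds_stepF] at h ⊢
    exact h.mono adj (fun t ht => ih t ht)

theorem RP_stable [Fintype V] (adj : V → V → Prop) (d0 : V) :
    ∀ s : List V, s.length = 16 → (RP adj d0 (Fintype.card V ^ 16) s ↔
      RP adj d0 (Fintype.card V ^ 16 + 1) s) := by
  classical
  let A : ℕ → Finset (Fin 16 → V) := fun j => Finset.univ.filter (fun f => RP adj d0 j
    (List.ofFn f))
  have hanti : ∀ j, A (j + 1) ⊆ A j := by
    intro j f hf
    simp only [A, Finset.mem_filter, Finset.mem_univ, true_and] at hf ⊢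
    exact RP_anti adj d0 j _ hf
  have hofn : ∀ s : List V, s.length = 16 → ∃ f : Fin 16 → V, List.ofFn f = s := by
    intro s hs
    refine ⟨fun i => s.get ⟨i.1, by omega⟩, ?_⟩
    apply List.ext_getElem
    · simp [hs]
    · intro i h1 h2
      rw [List.getElem_ofFn]
      rfl
  have hnext : ∀ j, A (j + 1) = A j → A (j + 2) = A (j + 1) := by
    intro j hj
    apply Finset.Subset.antisymm (hanti (j + 1))
    intro f hf
    simp only [A, Finset.mem_filter, Finset.mem_univ, true_and] at hf ⊢
    rw [RP, holds_stepF] at hf ⊢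
    refine hf.congr ?_
    intro t ht htR
    obtain ⟨g, rfl⟩ := hofn t ht
    have : g ∈ A j := by simpa [A] using htR
    rw [← hj] at this
    simpa [A] using this
  have hcard : Fintype.card (Fin 16 → V) = Fintype.card V ^ 16 := by simp
  set N := Fintype.card V ^ 16 with hN
  have hexists : ∃ j ≤ N, A (j + 1) = A j := by
    by_contra hcon
    push Not at hcon
    have key : ∀ j ≤ N + 1, (A j).card + j ≤ N := by
      intro j
      induction j with
      | zero =>
        intro _
        have := Finset.card_le_univ (A 0)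
        rw [hcard] at this
        omega
      | succ j ih =>
        intro hj
        have h1 := ih (by omega)
        have h2 : (A (j + 1)).card < (A j).card :=
          Finset.card_lt_card ((Finset.ssubset_iff_subset_ne).2 ⟨hanti j, hcon j (by omega)⟩)
        omega
    have := key (N + 1) le_rfl
    omega
  obtain ⟨j, hj, hAj⟩ := hexists
  have hall : ∀ m, A (j + m + 1) = A (j + m) := by
    intro m
    induction m with
    | zero => exact hAj
    | succ m ih => exact hnext _ ih
  have hfin := hall (N - j)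
  have : j + (N - j) = N := by omega
  rw [this] at hfin
  intro s hs
  obtain ⟨f, rfl⟩ := hofn s hs
  constructor
  · intro h
    have : f ∈ A N := by simpa [A] using h
    rw [← hfin] at this
    simpa [A] using this
  · exact RP_anti adj d0 N _

/-- Correctness of the local consistency test. -/
theorem main_iff [Fintype V] [Nonempty V] (H : SimpleGraph V)
    (hm : ¬ HasMinor (⊤ : SimpleGraph (Fin 5)) H) (d0 : V) (x : ℕ → V) :
    finF.holds 16 H.Adj (RP H.Adj d0 (Fintype.card V ^ 16)) x ↔ IsCliqueGraph H := by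
  classical
  have hH := noAttach_of_noMinor H hm
  rw [isCliqueGraph_iff_core, holds_finF]
  constructor
  · rintro ⟨h1, h2⟩
    refine core_of_fix hH h2 (RP H.Adj d0 (Fintype.card V ^ 16)) ?_ ?_
    · intro x hx
      rw [RP_stable H.Adj d0 (lst x) (by simp [lst])] at hx
      exact (RP_succ_lst H.Adj d0 _ x).1 hx
    · intro a b c d hab hac had hbc hbd hcd
      obtain ⟨v4, v5, v6, v7, v8, v9, v10, v11, v12, v13, v14, v15, hv⟩ :=
        h1 a b c d hab hac had hbc hbd hcd
      exact ⟨fun i => [a, b, c, d, v4, v5, v6, v7, v8, v9, v10, v11, v12, v13, v14, v15].getD i a,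
        rfl, rfl, rfl, rfl, hv⟩
  · rintro ⟨K, hK⟩
    have hall : ∀ j x, Enc H K x → RP H.Adj d0 j (lst x) := by
      intro j
      induction j with
      | zero => intro x _; trivial
      | succ j ih =>
        intro x hx
        rw [RP_succ_lst]
        exact stepP_of_enc hH hK _ ih x hx
    refine ⟨?_, triCond_of_core hK⟩
    intro a b c d hab hac had hbc hbd hcd
    obtain ⟨v4, v5, e01⟩ := exists_uv hH hK hab
    obtain ⟨v6, v7, e02⟩ := exists_uv hH hK hac
    obtain ⟨v8, v9, e03⟩ := exists_uv hH hK had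
    obtain ⟨v10, v11, e12⟩ := exists_uv hH hK hbc
    obtain ⟨v12, v13, e13⟩ := exists_uv hH hK hbd
    obtain ⟨v14, v15, e23⟩ := exists_uv hH hK hcd
    refine ⟨v4, v5, v6, v7, v8, v9, v10, v11, v12, v13, v14, v15, ?_⟩
    let z : ℕ → V := fun i =>
      [a, b, c, d, v4, v5, v6, v7, v8, v9, v10, v11, v12, v13, v14, v15].getD i a
    have hz : lst z = [a, b, c, d, v4, v5, v6, v7, v8, v9, v10, v11, v12, v13, v14, v15] := rfl
    rw [← hz]
    apply hall
    have Kz : ∀ i j, i < 4 → j < 4 → i < j → H.Adj (z i) (z j) ∧ K (z i) (z j) = Sx z i j := by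
      intro i j hi hj hij
      interval_cases i <;> interval_cases j <;> first
        | omega
        | exact ⟨hab, e01⟩
        | exact ⟨hac, e02⟩
        | exact ⟨had, e03⟩
        | exact ⟨hbc, e12⟩
        | exact ⟨hbd, e13⟩
        | exact ⟨hcd, e23⟩
    constructor
    · intro p hp
      rw [mem_prs] at hp
      rcases lt_or_gt_of_ne hp.2.2 with h | h
      · exact (Kz _ _ hp.1 hp.2.1 h).1
      · exact (Kz _ _ hp.2.1 hp.1 h).1.symm
    · intro p hp
      rw [mem_prs] at hp
      rcases lt_or_gt_of_ne hp.2.2 with h | h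
      · exact (Kz _ _ hp.1 hp.2.1 h).2
      · rw [hK.symm, Sx_symm _ hp.1 hp.2.1]
        exact (Kz _ _ hp.2.1 hp.1 h).2

end

open Classical in
/-- adjacency of a graph on `Fin n` as a bit function on naturals -/
noncomputable def adjE (G : Σ n : ℕ, SimpleGraph (Fin n)) (a b : ℕ) : Bool :=
  if h : a < G.1 ∧ b < G.1 then decide (G.2.Adj ⟨a, h.1⟩ ⟨b, h.2⟩) else false

theorem encodeGraph_eq (G : Σ n : ℕ, SimpleGraph (Fin n)) :
    encodeGraph G = encE G.1 (adjE G) := by
  classical
  unfold encodeGraph encE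
  congr 2
  simp only [tab]
  have h1 : ∀ (g : ℕ → List Bool) (n : ℕ), (List.range n).flatMap g
      = (List.finRange n).flatMap (fun i => g i.1) := by
    intro g n
    rw [← List.map_coe_finRange_eq_range, List.flatMap_map]
  rw [h1]
  congr 1
  funext i
  rw [h1]
  rw [List.map_eq_flatMap]
  congr 1
  funext j
  simp [adjE]

theorem opR_iter (n : ℕ) (hn : 0 < n) (E : ℕ → ℕ → Bool) (H : SimpleGraph (Fin n))
    (hE : ∀ a b : Fin n, E a.1 b.1 = true ↔ H.Adj a b) (j : ℕ) :
    ∀ t : List (Fin n), t.length = 16 →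
      (((opR n 16 E stepF)^[j] (fun _ => true)) (t.map Fin.val) = true ↔
        RP H.Adj ⟨0, hn⟩ j t) := by
  induction j with
  | zero => intro t _; simp [RP]
  | succ j ih =>
    intro t ht
    rw [Function.iterate_succ_apply', opR, RP]
    have h1 : (fun i => (t.map Fin.val).getD i 0) = fun i => (t.getD i ⟨0, hn⟩).1 := by
      funext i
      by_cases hi : i < t.length
      · simp [List.getD, hi]
      · simp [List.getD, hi]
    rw [h1]
    exact eval_iff_holds 16 H.Adj E hE _ _ ih stepF _

/-- Value of the fixpoint machine on graphs without `K₅` minor. -/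
theorem fixVal_iff (G : Σ n : ℕ, SimpleGraph (Fin n))
    (hm : ¬ HasMinor (⊤ : SimpleGraph (Fin 5)) G.2) :
    fixVal 16 16 stepF finF G.1 (adjE G) = true ↔ IsCliqueGraph G.2 := by
  obtain ⟨n, H⟩ := G
  simp only at hm ⊢
  rcases Nat.eq_zero_or_pos n with hn | hn
  · subst hn
    constructor
    · intro h
      simp [fixVal] at h
    · intro h
      obtain ⟨v⟩ := nonempty_of_isCliqueGraph H h
      exact v.elim0
  · have hne : Nonempty (Fin n) := ⟨⟨0, hn⟩⟩
    have hE : ∀ a b : Fin n, adjE ⟨n, H⟩ a.1 b.1 = true ↔ H.Adj a b := by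
      intro a b
      simp [adjE]
    have h1 := eval_iff_holds 16 H.Adj (adjE ⟨n, H⟩) hE
      ((opR n 16 (adjE ⟨n, H⟩) stepF)^[n ^ 16] (fun _ => true))
      (RP H.Adj ⟨0, hn⟩ (n ^ 16)) (opR_iter n hn _ H hE (n ^ 16)) finF (fun _ => ⟨0, hn⟩)
    have h2 := main_iff H hm ⟨0, hn⟩ (fun _ => ⟨0, hn⟩)
    rw [Fintype.card_fin] at h2
    rw [← h2, ← h1, fixVal]
    have : decide (n ≠ 0) = true := by simp; omega
    rw [this, Bool.true_and]

end Pool.Agent.Helper74
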