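import Pool.Agent.Helper74.Eval

/-!
Iterating a first-order operator polynomially many times on a machine.
-/

namespace Pool.Agent.Helper74

open Function Stk

/-- Enumerate all tuples and push the truth values of `p` on `out`;
`d` variables remain to be enumerated. -/
def genP (k : ℕ) (p : Fm) : ℕ → ℕ → Prog Stk
  | 0, l => .seq (evalF k l p) (move1 res out)
  | d + 1, l => .seq (forS num l (.seq (genP k p d (l + 1)) (.push (var (k - (d + 1))) true)))
      (clear (var (k - (d + 1))))

/-- cost of `genP` -/
def genC (n k : ℕ) (p : Fm) : ℕ → ℕ
  | 0 => evalC n k p + 4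
  | d + 1 => forC n (genC n k p d + 1) + (n * 2 + 1)

theorem runs_genP (n k : ℕ) (hn : 0 < n) (E : ℕ → ℕ → Bool) (R : List ℕ → Bool) (p : Fm)
    (d l : ℕ) (t : List ℕ) (ht : t.length + d = k) (htn : ∀ v ∈ t, v < n)
    (S : Stacks Stk) (hS : Inv n k l E R (fun i => t.getD i 0) S) :
    Runs (genP k p d l) S
      (update S out ((tab n d (fun s => p.eval n k E R (fun i => (t ++ s).getD i 0))).reverse
        ++ S out)) (genC n k p d) := by
  have hx : ∀ t : List ℕ, (∀ v ∈ t, v < n) → ∀ i, t.getD i 0 < n := by
    intro t htn i
    by_cases hi : i < t.length
    · have : t.getD i 0 = t[i] := by simp [List.getD, hi]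
      rw [this]
      exact htn _ (List.getElem_mem hi)
    · have : t.getD i 0 = 0 := by simp [List.getD, hi]
      rw [this]
      exact hn
  induction d generalizing l t S with
  | zero =>
    have h1 := runs_evalF n k E R p l _ (hx t htn) S hS
    have h2 := runs_move1 (k := res) (k' := out) (by simp)
      (update S res (p.eval n k E R (fun i => t.getD i 0) :: S res))
    refine (h1.seq h2).to ?_ le_rfl
    funext j
    by_cases j1 : j = out
    · subst j1; simp [tab]
    · by_cases j2 : j = res
      · subst j2; simp
      · simp [j1, j2]
  | succ d ih =>
    have hv : k - (d + 1) = t.length := by omega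
    rw [genP, genC, hv]
    set v := t.length with hvdef
    let g : ℕ → List Bool := fun a =>
      tab n d (fun s => p.eval n k E R (fun i => (t ++ (a :: s)).getD i 0))
    let J : ℕ → Stacks Stk := fun i =>
      update (update S (var v) (List.replicate i true)) out
        (((List.range i).flatMap g).reverse ++ S out)
    have hSv : S (var v) = [] := by
      rw [hS.var v]
      have : t.getD v 0 = 0 := by simp [List.getD, hvdef]
      rw [this]
      rfl
    have hJ0 : J 0 = S := by
      funext j
      by_cases j1 : j = out
      · subst j1; simp [J]
      · by_cases j2 : j = var v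
        · subst j2; simp [J, hSv]
        · simp [J, j1, j2]
    have s3 := runs_forS (src := num) (l := l)
      (body := .seq (genP k p d (l + 1)) (.push (var v) true)) n (genC n k p d + 1) J
      (by simp) (by simp)
      (by rw [hJ0]; exact hS.num)
      (by rw [hJ0]; exact hS.tmp)
      (by intro i _; simp only [J]; simpa using hS.cnt l le_rfl)
      (by
        intro i hi r
        have htn' : ∀ w ∈ t ++ [i], w < n := by
          intro w hw
          rw [List.mem_append, List.mem_singleton] at hw
          rcases hw with hw | hw
          · exact htn w hw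
          · rw [hw]; exact hi
        have hInv : Inv n k (l + 1) E R (fun j => (t ++ [i]).getD j 0)
            (update (J i) (cnt l) r) := by
          constructor
          · simp only [J]; simpa using hS.num
          · simp only [J]; simpa using hS.inp
          · simp only [J]; simpa using hS.arr
          · simp only [J]; simpa using hS.tmp
          · simp only [J]; simpa using hS.aux
          · intro l' hl'
            have h1 : l' ≠ l := by omega
            simp only [J]
            simpa [h1] using hS.cnt l' (by omega)
          · intro l' hl'
            simp only [J]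
            simpa using hS.sav l' (by omega)
          · intro j
            by_cases hj : j = v
            · subst hj
              have : (t ++ [i]).getD v 0 = i := by simp [List.getD, hvdef]
              rw [this]
              simp [J]
            · have : (t ++ [i]).getD j 0 = t.getD j 0 := by
                rcases lt_or_gt_of_ne hj with h1 | h1
                · simp only [List.getD]
                  rw [List.getElem?_append_left (by omega)]
                · simp only [List.getD]
                  rw [List.getElem?_append_right (by omega)]
                  have e1 : t[j]? = none := List.getElem?_eq_none (by omega)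
                  have e2 : ([i] : List ℕ)[j - t.length]? = none :=
                    List.getElem?_eq_none (by simp; omega)
                  rw [e1, e2]
              rw [this]
              simp only [J]
              simpa [hj] using hS.var j
        have b1 := ih (l + 1) (t ++ [i]) (by simp; omega) htn' _ hInv
        refine (b1.seq (runs_push (var v) true _)).to ?_ le_rfl
        have e1 : (tab n d fun s => Fm.eval n k E R p fun i_1 => (t ++ [i] ++ s).getD i_1 0)
            = g i := by
          simp [g]
        rw [e1]
        have e2 : (List.range (i + 1)).flatMap g = (List.range i).flatMap g ++ g i := by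
          rw [List.range_succ, List.flatMap_append]
          simp
        funext j
        by_cases j1 : j = var v
        · subst j1; simp [J, List.replicate_succ]
        · by_cases j2 : j = out
          · subst j2; simp [J, e2]
          · by_cases j3 : j = cnt l
            · subst j3; simp
            · simp [J, j1, j2, j3])
    rw [hJ0] at s3
    have s4 := runs_clear (var v) (J n)
    have hJv : (J n (var v)).length = n := by simp [J]
    rw [hJv] at s4
    refine (s3.seq s4).to ?_ le_rfl
    funext j
    by_cases j1 : j = var v
    · subst j1; simp [hSv]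
    · by_cases j2 : j = out
      · subst j2; simp [J, tab, g]
      · simp [J, j1, j2]

/-- Replace the table `arr` by the table of the formula `p`. -/
def assignP (k : ℕ) (p : Fm) (l : ℕ) : Prog Stk :=
  .seq (genP k p k l) (.seq (clear arr) (moveAll out arr))

/-- cost of `assignP` -/
def assignC (n k : ℕ) (p : Fm) : ℕ := genC n k p k + ((n ^ k * 2 + 1) + (n ^ k * 5 + 1))

/-- The operator on relations defined by a formula. -/
def opR (n k : ℕ) (E : ℕ → ℕ → Bool) (p : Fm) (R : List ℕ → Bool) : List ℕ → Bool :=
  fun s => p.eval n k E R (fun i => s.getD i 0)

theorem runs_assignP (n k : ℕ) (hn : 0 < n) (E : ℕ → ℕ → Bool) (R : List ℕ → Bool) (p : Fm)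
    (l : ℕ) (S : Stacks Stk) (hS : Inv n k l E R (fun _ => 0) S) (hout : S out = []) :
    Runs (assignP k p l) S (update S arr (tab n k (opR n k E p R))) (assignC n k p) := by
  have h1 := runs_genP n k hn E R p k l [] (by simp) (by simp) S (by simpa using hS)
  rw [hout, List.append_nil] at h1
  simp only [List.nil_append] at h1
  set S1 := update S out (tab n k (opR n k E p R)).reverse with hS1
  have h1' : Runs (genP k p k l) S S1 (genC n k p k) := h1
  have h2 := runs_clear arr S1
  have h3 := runs_moveAll (k := out) (k' := arr) (by simp) (update S1 arr [])
  refine (h1'.seq (h2.seq h3)).to ?_ ?_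
  · funext j
    by_cases j1 : j = arr
    · subst j1; simp [hS1]
    · by_cases j2 : j = out
      · subst j2; simp [hout]
      · simp [hS1, j1, j2]
  · have e1 : (S1 arr).length = n ^ k := by
      simp [hS1, hS.arr, tab_length]
    have e2 : ((update S1 arr []) out).length = n ^ k := by
      simp [hS1, tab_length]
    rw [e1, e2, assignC]

/-- `n ^ c` fold iteration. -/
def iterP (body : Prog Stk) : ℕ → ℕ → Prog Stk
  | 0, _ => body
  | c + 1, l => forS num l (iterP body c (l + 1))

/-- cost of `iterP` -/
def iterC (n T : ℕ) : ℕ → ℕ
  | 0 => T
  | c + 1 => forC n (iterC n T c)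

theorem runs_iterP (n k : ℕ) (hn : 0 < n) (E : ℕ → ℕ → Bool) (R : List ℕ → Bool) (p : Fm)
    (L c l : ℕ) (hl : l + c = L) (S : Stacks Stk) (hS : Inv n k l E R (fun _ => 0) S)
    (hout : S out = []) :
    Runs (iterP (assignP k p L) c l) S
      (update S arr (tab n k ((opR n k E p)^[n ^ c] R))) (iterC n (assignC n k p) c) := by
  induction c generalizing l S R with
  | zero =>
    have hl' : l = L := by omega
    subst hl'
    have := runs_assignP n k hn E R p l S hS hout
    refine this.to ?_ le_rfl
    simp
  | succ c ih =>
    rw [iterP, iterC]
    have := runs_forS (src := num) (l := l) (body := iterP (assignP k p L) c (l + 1)) n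
      (iterC n (assignC n k p) c)
      (fun i => update S arr (tab n k ((opR n k E p)^[i * n ^ c] R))) (by simp) (by simp)
      (by simpa using hS.num) (by simpa using hS.tmp)
      (by intro i _; simpa using hS.cnt l le_rfl)
      (by
        intro i hi r
        have hInv : Inv n k (l + 1) E ((opR n k E p)^[i * n ^ c] R) (fun _ => 0)
            (update (update S arr (tab n k ((opR n k E p)^[i * n ^ c] R))) (cnt l) r) := by
          constructor
          · simpa using hS.num
          · simpa using hS.inp
          · simp
          · simpa using hS.tmp
          · simpa using hS.aux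
          · intro l' hl'
            have h1 : l' ≠ l := by omega
            simpa [h1] using hS.cnt l' (by omega)
          · intro l' hl'
            simpa using hS.sav l' (by omega)
          · intro j
            simpa using hS.var j
        have h2 := ih ((opR n k E p)^[i * n ^ c] R) (l + 1) (by omega) _ hInv
          (by simpa using hout)
        refine h2.to ?_ le_rfl
        rw [← Function.iterate_add_apply]
        have : n ^ c + i * n ^ c = (i + 1) * n ^ c := by ring
        rw [this]
        funext j
        by_cases j1 : j = arr
        · subst j1; simp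
        · by_cases j2 : j = cnt l
          · subst j2; simp
          · simp [j1, j2])
    have h0 : update S arr (tab n k ((opR n k E p)^[0 * n ^ c] R)) = S := by
      have : tab n k ((opR n k E p)^[0 * n ^ c] R) = S arr := by simp [hS.arr]
      rw [this, update_eq_self]
    simp only [h0] at this
    refine this.to ?_ le_rfl
    rw [pow_succ, Nat.mul_comm]

/-- Fill `arr` with `n ^ c` true bits. -/
def fillP : ℕ → ℕ → Prog Stk
  | 0, _ => .push arr true
  | c + 1, l => forS num l (fillP c (l + 1))

/-- cost of `fillP` -/
def fillC (n : ℕ) : ℕ → ℕ
  | 0 => 1
  | c + 1 => forC n (fillC n c)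

theorem runs_fillP (n c l : ℕ) (S : Stacks Stk) (hn : (S num).length = n) (ht : S tmp = [])
    (hc : ∀ l' ≥ l, S (cnt l') = []) :
    Runs (fillP c l) S (update S arr (List.replicate (n ^ c) true ++ S arr)) (fillC n c) := by
  induction c generalizing l S with
  | zero => exact (runs_push arr true S).to (by simp) le_rfl
  | succ c ih =>
    rw [fillP, fillC]
    have := runs_forS (src := num) (l := l) (body := fillP c (l + 1)) n (fillC n c)
      (fun i => update S arr (List.replicate (i * n ^ c) true ++ S arr)) (by simp) (by simp)
      (by simpa using hn) (by simpa using ht)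
      (by intro i _; simpa using hc l le_rfl)
      (by
        intro i hi r
        have h2 := ih (l + 1)
          (update (update S arr (List.replicate (i * n ^ c) true ++ S arr)) (cnt l) r)
          (by simpa using hn) (by simpa using ht)
          (by
            intro l' hl'
            have h1 : l' ≠ l := by omega
            simpa [h1] using hc l' (by omega))
        refine h2.to ?_ le_rfl
        have : List.replicate ((i + 1) * n ^ c) true
            = List.replicate (n ^ c) true ++ List.replicate (i * n ^ c) true := by
          rw [← List.replicate_add]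
          congr 1
          ring
        funext j
        by_cases j1 : j = arr
        · subst j1
          simp only [update_self, ne_eq, reduceCtorEq, not_false_eq_true, update_of_ne, this,
            List.append_assoc]
        · by_cases j2 : j = cnt l
          · subst j2; simp
          · simp [j1, j2])
    simp only [Nat.zero_mul, List.replicate_zero, List.nil_append, update_eq_self] at this
    refine this.to ?_ le_rfl
    rw [pow_succ, Nat.mul_comm]

theorem tab_true (n k : ℕ) : tab n k (fun _ => true) = List.replicate (n ^ k) true := by
  rw [List.eq_replicate_iff]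
  refine ⟨tab_length n k _, ?_⟩
  induction k with
  | zero => intro b hb; simpa [tab] using hb
  | succ k ih =>
    intro b hb
    rw [tab, List.mem_flatMap] at hb
    obtain ⟨i, _, hb⟩ := hb
    exact ih b hb

/-- Encoding of a finite directed graph: `n` ones, a zero, and the adjacency matrix. -/
def encE (n : ℕ) (E : ℕ → ℕ → Bool) : List Bool :=
  List.replicate n true ++ false :: tab n 2 (fun t => E (t.getD 0 0) (t.getD 1 0))

/-- The value computed by the fixpoint machine. -/
def fixVal (k c : ℕ) (p q : Fm) (n : ℕ) (E : ℕ → ℕ → Bool) : Bool :=
  decide (n ≠ 0) && q.eval n k E ((opR n k E p)^[n ^ c] (fun _ => true)) (fun _ => 0)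

/-- The whole program. -/
def mainP (k c : ℕ) (p q : Fm) : Prog Stk :=
  .seq (.whil inp tt? (.seq (.pop inp) (.push num true))) <|
  .seq (.pop inp) <|
  .ite num ne?
    (.seq (fillP k 0) <| .seq (iterP (assignP k p c) c 0) <| .seq (evalF k 0 q) <|
      .seq (clear inp) <| .seq (clear num) (clear arr))
    (.push res false)

/-- cost of `mainP` -/
def mainC (k c : ℕ) (p q : Fm) (n : ℕ) : ℕ :=
  (n * 3 + 1) + (1 + (fillC n k + (iterC n (assignC n k p) c + (evalC n k q +
    ((n ^ 2 * 2 + 1) + ((n * 2 + 1) + (n ^ k * 2 + 1))))) + 1))

theorem runs_mainP (k c : ℕ) (p q : Fm) (n : ℕ) (E : ℕ → ℕ → Bool) :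
    Runs (mainP k c p q) (inState inp (encE n E)) (inState res [fixVal k c p q n E])
      (mainC k c p q n) := by
  set M := tab n 2 (fun t => E (t.getD 0 0) (t.getD 1 0)) with hM
  -- parsing
  let I : ℕ → Stacks Stk := fun i =>
    update (inState inp (List.replicate (n - i) true ++ false :: M)) num (List.replicate i true)
  have hI0 : I 0 = inState inp (encE n E) := by
    funext j
    by_cases j1 : j = num
    · subst j1; simp [I, inState]
    · simp [I, encE, hM, j1]
  have s1 := runs_while (k := inp) (c := tt?) (p := .seq (.pop inp) (.push num true)) n 2 I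
    (by
      intro i hi
      obtain ⟨m, hm⟩ : ∃ m, n - i = m + 1 := ⟨n - i - 1, by omega⟩
      simp [I, inState, hm, List.replicate_succ, tt?])
    (by simp [I, inState, tt?])
    (by
      intro i hi
      refine ((runs_pop inp _).seq (runs_push num true _)).to ?_ le_rfl
      obtain ⟨m, hm⟩ : ∃ m, n - i = m + 1 := ⟨n - i - 1, by omega⟩
      have hm' : n - (i + 1) = m := by omega
      funext j
      by_cases j1 : j = num
      · subst j1; simp [I, List.replicate_succ]
      · by_cases j2 : j = inp
        · subst j2; simp [I, inState, hm, hm', List.replicate_succ]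
        · simp [I, inState, j1, j2])
  rw [hI0] at s1
  set S1 : Stacks Stk := update (inState inp M) num (List.replicate n true) with hS1
  have s2 : Runs (.pop inp) (I n) S1 1 := by
    refine (runs_pop inp _).to ?_ le_rfl
    funext j
    by_cases j1 : j = num
    · subst j1; simp [I, hS1]
    · by_cases j2 : j = inp
      · subst j2; simp [I, inState, hS1]
      · simp [I, inState, hS1, j1, j2]
  rcases Nat.eq_zero_or_pos n with hn | hn
  · -- empty graph
    refine (s1.seq (s2.seq (runs_iteF ?_ (runs_push res false S1)))).to ?_ ?_
    · simp [hS1, hn, ne?]
    · have hM0 : M = [] := by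
        rw [hM, hn]; rfl
      funext j
      by_cases j1 : j = res
      · subst j1; simp [hS1, inState, fixVal, hn]
      · by_cases j2 : j = num
        · subst j2; simp [hS1, inState, hn]
        · by_cases j3 : j = inp
          · subst j3; simp [hS1, inState, hM0]
          · simp [hS1, inState, j1, j2, j3]
    · unfold mainC
      omega
  · have hother : ∀ j : Stk, j ≠ inp → j ≠ num → S1 j = [] := by
      intro j h1 h2
      simp [hS1, inState, h1, h2]
    have s3 := runs_fillP n k 0 S1 (by simp [hS1]) (hother _ (by simp) (by simp))
      (fun l' _ => hother _ (by simp) (by simp))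
    rw [hother arr (by simp) (by simp), List.append_nil, ← tab_true] at s3
    set S2 := update S1 arr (tab n k (fun _ => true)) with hS2
    have hother2 : ∀ j : Stk, j ≠ inp → j ≠ num → j ≠ arr → S2 j = [] := by
      intro j h1 h2 h3
      rw [hS2, update_of_ne h3]
      exact hother j h1 h2
    have hInv2 : Inv n k 0 E (fun _ => true) (fun _ => 0) S2 := by
      constructor
      · simp [hS2, hS1]
      · simp [hS2, hS1, inState, hM]
      · simp [hS2]
      · exact hother2 _ (by simp) (by simp) (by simp)
      · exact hother2 _ (by simp) (by simp) (by simp)
      · intro l' _; exact hother2 _ (by simp) (by simp) (by simp)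
      · intro l' _; exact hother2 _ (by simp) (by simp) (by simp)
      · intro i; simpa using hother2 (var i) (by simp) (by simp) (by simp)
    have s4 := runs_iterP n k hn E (fun _ => true) p c c 0 (by omega) S2 hInv2
      (hother2 _ (by simp) (by simp) (by simp))
    set R := (opR n k E p)^[n ^ c] (fun _ => true) with hR
    set S3 := update S2 arr (tab n k R) with hS3
    have hInv3 : Inv n k 0 E R (fun _ => 0) S3 := by
      constructor
      · simp [hS3, hS2, hS1]
      · simp [hS3, hS2, hS1, inState, hM]
      · simp [hS3]
      · simpa [hS3] using hInv2.tmp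
      · simpa [hS3] using hInv2.aux
      · intro l' hl'; simpa [hS3] using hInv2.cnt l' hl'
      · intro l' hl'; simpa [hS3] using hInv2.sav l' hl'
      · intro i; simpa [hS3] using hInv2.var i
    have s5 := runs_evalF n k E R q 0 (fun _ => 0) (fun _ => hn) S3 hInv3
    have hS3res : S3 res = [] := by
      rw [hS3, update_of_ne (by simp)]
      exact hother2 _ (by simp) (by simp) (by simp)
    rw [hS3res] at s5
    set S4 := update S3 res [q.eval n k E R (fun _ => 0)] with hS4
    have s6 := runs_clear inp S4
    have s7 := runs_clear num (update S4 inp [])
    have s8 := runs_clear arr (update (update S4 inp []) num [])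
    have l6 : (S4 inp).length = n ^ 2 := by
      simp [hS4, hS3, hS2, hS1, inState, hM, tab_length]
    have l7 : ((update S4 inp []) num).length = n := by
      simp [hS4, hS3, hS2, hS1]
    have l8 : ((update (update S4 inp []) num []) arr).length = n ^ k := by
      simp [hS4, hS3, tab_length]
    rw [l6] at s6
    rw [l7] at s7
    rw [l8] at s8
    refine (s1.seq (s2.seq (runs_iteT ?_ (s3.seq (s4.seq (s5.seq (s6.seq (s7.seq s8)))))))).to
      ?_ ?_
    · obtain ⟨m, hm⟩ : ∃ m, n = m + 1 := ⟨n - 1, by omega⟩
      simp [hS1, hm, ne?, List.replicate_succ]
    · funext j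
      by_cases j1 : j = arr
      · subst j1; simp [inState]
      · by_cases j2 : j = num
        · subst j2; simp [inState]
        · by_cases j3 : j = inp
          · subst j3; simp [inState]
          · by_cases j4 : j = res
            · subst j4
              have : decide (n ≠ 0) = true := by simp; omega
              simp [hS4, inState, fixVal, this, hR]
            · have := hother2 j j3 j2 j1
              simp [hS4, hS3, inState, j1, j2, j3, j4, this]
    · unfold mainC
      omega

/-- Polynomially bounded (and monotone in the bound) functions. -/
def PB (f : ℕ → ℕ) : Prop := ∃ P : Polynomial ℕ, ∀ n m, n ≤ m → f n ≤ P.eval m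

theorem PB.const (a : ℕ) : PB (fun _ => a) := ⟨Polynomial.C a, by intro n m _; simp⟩

theorem PB.id : PB (fun n => n) := ⟨Polynomial.X, by intro n m h; simpa using h⟩

theorem PB.add {f g : ℕ → ℕ} (hf : PB f) (hg : PB g) : PB (fun n => f n + g n) := by
  obtain ⟨P, hP⟩ := hf
  obtain ⟨Q, hQ⟩ := hg
  exact ⟨P + Q, fun n m h => by
    rw [Polynomial.eval_add]; exact add_le_add (hP n m h) (hQ n m h)⟩

theorem PB.mul {f g : ℕ → ℕ} (hf : PB f) (hg : PB g) : PB (fun n => f n * g n) := by
  obtain ⟨P, hP⟩ := hf
  obtain ⟨Q, hQ⟩ := hg
  exact ⟨P * Q, fun n m h => by
    rw [Polynomial.eval_mul]; exact Nat.mul_le_mul (hP n m h) (hQ n m h)⟩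

theorem PB.pow (k : ℕ) : PB (fun n => n ^ k) := by
  induction k with
  | zero => simpa using PB.const 1
  | succ k ih => simpa [pow_succ] using ih.mul PB.id

theorem PB.forC {f : ℕ → ℕ} (hf : PB f) : PB (fun n => forC n (f n)) := by
  unfold Helper74.forC
  exact ((PB.id.mul (PB.const 10)).add (PB.const 2)).add
    ((PB.id.mul (hf.add (PB.const 2))).add (PB.const 1))

theorem PB.skipBC (b : ℕ) : PB (fun n => skipBC n b) := by
  induction b with
  | zero => exact PB.const 4
  | succ b ih => exact ih.forC

theorem PB.skipIC (vs : List ℕ) : PB (fun n => skipIC n vs) := by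
  induction vs with
  | nil => exact PB.const 1
  | cons v vs ih => exact (PB.skipBC vs.length).forC.add ih

theorem PB.lookupC (vs : List ℕ) : PB (fun n => lookupC n vs) := by
  unfold Helper74.lookupC
  exact ((PB.skipIC vs).add (PB.const 2)).add
    (((PB.pow vs.length).mul (PB.const 5)).add (PB.const 1))

theorem PB.lin (a b : ℕ) : PB (fun n => n * a + b) :=
  (PB.id.mul (PB.const a)).add (PB.const b)

theorem PB.eqC : PB eqC := by
  unfold Helper74.eqC
  exact (PB.lin 10 2).add ((PB.lin 10 2).add ((PB.lin 4 1).add ((PB.const 3).add
    ((PB.lin 2 1).add (PB.lin 2 1)))))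

theorem PB.evalC (k : ℕ) (p : Fm) : PB (fun n => evalC n k p) := by
  induction p with
  | adj i j => exact PB.lookupC _
  | eq i j => exact PB.eqC
  | rel t =>
    by_cases ht : t.length = k
    · simpa [Helper74.evalC, ht] using PB.lookupC t
    · simpa [Helper74.evalC, ht] using PB.const 1
  | neg p ih => exact ih.add (PB.const 3)
  | and p q ihp ihq => exact ihp.add (ihq.add (PB.const 4))
  | ex m p ih =>
    exact (PB.lin 5 1).add ((PB.const 1).add ((ih.add (PB.const (4 + 1))).forC.add
      ((PB.lin 2 1).add (PB.lin 5 1))))

theorem PB.genC (k : ℕ) (p : Fm) (d : ℕ) : PB (fun n => genC n k p d) := by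
  induction d with
  | zero => exact (PB.evalC k p).add (PB.const 4)
  | succ d ih => exact (ih.add (PB.const 1)).forC.add (PB.lin 2 1)

theorem PB.assignC (k : ℕ) (p : Fm) : PB (fun n => assignC n k p) := by
  unfold Helper74.assignC
  exact (PB.genC k p k).add ((((PB.pow k).mul (PB.const 2)).add (PB.const 1)).add
    (((PB.pow k).mul (PB.const 5)).add (PB.const 1)))

theorem PB.iterC {f : ℕ → ℕ} (hf : PB f) (c : ℕ) : PB (fun n => iterC n (f n) c) := by
  induction c with
  | zero => exact hf
  | succ c ih => exact ih.forC

theorem PB.fillC (c : ℕ) : PB (fun n => fillC n c) := by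
  induction c with
  | zero => exact PB.const 1
  | succ c ih => exact ih.forC

theorem PB.mainC (k c : ℕ) (p q : Fm) : PB (mainC k c p q) := by
  unfold Helper74.mainC
  exact (PB.lin 3 1).add ((PB.const 1).add (((PB.fillC k).add (((PB.assignC k p).iterC c).add
    ((PB.evalC k q).add ((((PB.pow 2).mul (PB.const 2)).add (PB.const 1)).add
      ((PB.lin 2 1).add (((PB.pow k).mul (PB.const 2)).add (PB.const 1))))))).add
        (PB.const 1)))

/-- Any query defined by iterating a first-order operator `n ^ c` times and evaluating a
first-order sentence is computable in polynomial time by a Mathlib TM2 machine. -/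
theorem fixpoint_poly (k c : ℕ) (p q : Fm) {α : Type} (nn : α → ℕ) (EE : α → ℕ → ℕ → Bool)
    (ea : α → List Bool) (hea : ∀ a, ea a = encE (nn a) (EE a))
    (f : α → Bool) (hf : ∀ a, f a = fixVal k c p q (nn a) (EE a)) :
    Nonempty (Turing.TM2ComputableInPolyTime ea Computability.encodeBool f) := by
  obtain ⟨P, hP⟩ := PB.mainC k c p q
  refine poly_of_prog (mainP k c p q) inp res ea f P ?_
  intro a
  rw [hea, hf]
  refine (runs_mainP k c p q (nn a) (EE a)).mono (hP _ _ ?_)
  simp [encE]

end Pool.Agent.Helper74
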