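import Pool.Agent.Helper74.Loops

/-!
First-order formulas over a finite structure given by two bit tables, and stack programs
evaluating them.
-/

namespace Pool.Agent.Helper74

open Function

/-- Names of the stacks used by the formula evaluator. -/
inductive Stk : Type
  | inp | num | arr | out | res | tmp | aux
  | sav (l : ℕ) | cnt (l : ℕ) | var (i : ℕ)
  deriving DecidableEq

open Stk

/-- Run `body` once for every element of the stack `src`, using the counter of level `l`. -/
def forS (src : Stk) (l : ℕ) (body : Prog Stk) : Prog Stk :=
  .seq (copyTo tmp src (cnt l)) (forU (cnt l) body)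

/-- cost of `forS` -/
def forC (n T : ℕ) : ℕ := n * 10 + 2 + (n * (T + 2) + 1)

theorem forC_mono {n n' T T' : ℕ} (h : n ≤ n') (h' : T ≤ T') : forC n T ≤ forC n' T' := by
  unfold forC
  have : n * (T + 2) ≤ n' * (T' + 2) := Nat.mul_le_mul h (by omega)
  omega

theorem runs_forS {src : Stk} {l : ℕ} {body : Prog Stk} (n T : ℕ) (J : ℕ → Stacks Stk)
    (h1 : src ≠ tmp) (h2 : src ≠ cnt l) (hlen : (J 0 src).length = n) (ht : J 0 tmp = [])
    (hc : ∀ i ≤ n, J i (cnt l) = [])
    (step : ∀ i < n, ∀ r : List Bool,
      Runs body (update (J i) (cnt l) r) (update (J (i + 1)) (cnt l) r) T) :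
    Runs (forS src l body) (J 0) (J n) (forC n T) := by
  have hcopy := runs_copyTo (t := tmp) (s := src) (d := cnt l) h1.symm (by simp) h2 (J 0) ht
  rw [hc 0 (Nat.zero_le _), List.append_nil, hlen] at hcopy
  refine hcopy.seq ?_
  have := runs_forU (cnt l) body n T (fun i => update (J i) (cnt l) ((J 0 src).drop i))
    (by intro i hi; simp [hlen])
    (by
      intro i hi
      have := step i hi ((J 0 src).drop (i + 1))
      simpa using this)
  have h3 : update (J n) (cnt l) ((J 0 src).drop n) = J n := by
    rw [List.drop_eq_nil_of_le (by omega)]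
    rw [← hc n le_rfl]
    exact update_eq_self _ _
  simpa [h3] using this

/-- Move `n ^ b` elements from `a` to `aux`, where `num` has length `n`. -/
def skipB (a : Stk) : ℕ → ℕ → Prog Stk
  | 0, _ => move1 a aux
  | b + 1, l => forS num l (skipB a b (l + 1))

/-- cost of `skipB` -/
def skipBC (n : ℕ) : ℕ → ℕ
  | 0 => 4
  | b + 1 => forC n (skipBC n b)

/-- the state after moving `k` elements from `a` to `aux` -/
def movedS (a : Stk) (k : ℕ) (S : Stacks Stk) : Stacks Stk :=
  update (update S a ((S a).drop k)) aux (((S a).take k).reverse ++ S aux)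

theorem movedS_add {a : Stk} (ha : a ≠ aux) (k k' : ℕ) (S : Stacks Stk) :
    movedS a k' (movedS a k S) = movedS a (k + k') S := by
  unfold movedS
  simp only [update_self, update_of_ne ha]
  have : ((S a).take (k + k')).reverse
      = (((S a).drop k).take k').reverse ++ ((S a).take k).reverse := by
    rw [← List.reverse_append]
    congr 1
    rw [List.take_add]
  rw [this, List.drop_drop, List.append_assoc]
  funext j
  by_cases j1 : j = aux
  · subst j1; simp
  · by_cases j2 : j = a
    · subst j2; simp [j1]
    · simp [j1, j2]

theorem movedS_zero {a : Stk} (S : Stacks Stk) : movedS a 0 S = S := by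
  unfold movedS
  simp

theorem movedS_other {a j : Stk} (k : ℕ) (S : Stacks Stk) (h1 : j ≠ a) (h2 : j ≠ aux) :
    movedS a k S j = S j := by
  unfold movedS
  rw [update_of_ne h2, update_of_ne h1]

theorem movedS_update {a j : Stk} (k : ℕ) (S : Stacks Stk) (h1 : j ≠ a) (h2 : j ≠ aux)
    (r : List Bool) :
    movedS a k (update S j r) = update (movedS a k S) j r := by
  unfold movedS
  rw [update_of_ne h1.symm, update_of_ne h2.symm]
  rw [update_comm h2.symm, update_comm h1.symm]

theorem runs_skipB {a : Stk} (h : a = inp ∨ a = arr) (n : ℕ) (b l : ℕ) (S : Stacks Stk)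
    (hn : (S num).length = n) (ht : S tmp = []) (hc : ∀ l' ≥ l, S (cnt l') = []) :
    Runs (skipB a b l) S (movedS a (n ^ b) S) (skipBC n b) := by
  have ha : a ≠ aux ∧ a ≠ num ∧ a ≠ tmp ∧ ∀ l, a ≠ cnt l := by
    rcases h with h | h <;> subst h <;> simp
  obtain ⟨ha1, ha2, ha3, ha4⟩ := ha
  induction b generalizing l S with
  | zero =>
    refine (runs_move1 ha1 S).to ?_ le_rfl
    simp only [pow_zero, movedS]
    cases h : S a with
    | nil => simp
    | cons x L => rfl
  | succ b ih =>
    have := runs_forS (src := num) (l := l) (body := skipB a b (l + 1)) n (skipBC n b)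
      (fun i => movedS a (i * n ^ b) S) (by simp) (by simp)
      (by simp only [Nat.zero_mul, movedS_zero]; exact hn)
      (by simp only [Nat.zero_mul, movedS_zero]; exact ht)
      (by
        intro i _
        rw [movedS_other _ _ (ha4 l).symm (by simp)]
        exact hc l le_rfl)
      (by
        intro i _ r
        have h2 := ih (l + 1) (update (movedS a (i * n ^ b) S) (cnt l) r)
          (by rw [update_of_ne (by simp), movedS_other _ _ ha2.symm (by simp)]; exact hn)
          (by rw [update_of_ne (by simp), movedS_other _ _ ha3.symm (by simp)]; exact ht)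
          (by
            intro l' hl'
            rw [update_of_ne (by simp; omega), movedS_other _ _ (ha4 l').symm (by simp)]
            exact hc l' (by omega))
        refine h2.to ?_ le_rfl
        rw [movedS_update _ _ (ha4 l).symm (by simp), movedS_add ha1]
        congr 2
        ring)
    simp only [Nat.zero_mul, movedS_zero] at this
    refine this.to ?_ le_rfl
    congr 1
    ring

/-- index of a tuple in lexicographic order -/
def idx (n : ℕ) : List ℕ → ℕ
  | [] => 0
  | v :: vs => v * n ^ vs.length + idx n vs

/-- Move the number of elements given by the index of the variables `vs`. -/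
def skipI (a : Stk) (l : ℕ) : List ℕ → Prog Stk
  | [] => .skip
  | v :: vs => .seq (forS (var v) l (skipB a vs.length (l + 1))) (skipI a l vs)

/-- cost of `skipI` -/
def skipIC (n : ℕ) : List ℕ → ℕ
  | [] => 1
  | _ :: vs => forC n (skipBC n vs.length) + skipIC n vs

theorem runs_skipI {a : Stk} (h : a = inp ∨ a = arr) (n : ℕ) (l : ℕ) (vs : List ℕ)
    (x : ℕ → ℕ) (hx : ∀ i, x i < n) (S : Stacks Stk)
    (hn : (S num).length = n) (ht : S tmp = []) (hc : ∀ l' ≥ l, S (cnt l') = [])
    (hv : ∀ i, (S (var i)).length = x i) :
    Runs (skipI a l vs) S (movedS a (idx n (vs.map x)) S) (skipIC n vs) := by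
  have ha : a ≠ aux ∧ a ≠ num ∧ a ≠ tmp ∧ (∀ l, a ≠ cnt l) ∧ (∀ l, a ≠ var l) := by
    rcases h with h | h <;> subst h <;> simp
  obtain ⟨ha1, ha2, ha3, ha4, ha5⟩ := ha
  induction vs generalizing S with
  | nil =>
    refine (runs_skip S).to ?_ le_rfl
    simp [idx, movedS_zero]
  | cons v vs ih =>
    have h1 := runs_forS (src := var v) (l := l) (body := skipB a vs.length (l + 1)) (x v)
      (skipBC n vs.length)
      (fun i => movedS a (i * n ^ vs.length) S) (by simp) (by simp)
      (by simp only [Nat.zero_mul, movedS_zero]; exact hv v)
      (by simp only [Nat.zero_mul, movedS_zero]; exact ht)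
      (by
        intro i _
        rw [movedS_other _ _ (ha4 l).symm (by simp)]
        exact hc l le_rfl)
      (by
        intro i _ r
        have h2 := runs_skipB h n vs.length (l + 1)
          (update (movedS a (i * n ^ vs.length) S) (cnt l) r)
          (by rw [update_of_ne (by simp), movedS_other _ _ ha2.symm (by simp)]; exact hn)
          (by rw [update_of_ne (by simp), movedS_other _ _ ha3.symm (by simp)]; exact ht)
          (by
            intro l' hl'
            rw [update_of_ne (by simp; omega), movedS_other _ _ (ha4 l').symm (by simp)]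
            exact hc l' (by omega))
        refine h2.to ?_ le_rfl
        rw [movedS_update _ _ (ha4 l).symm (by simp), movedS_add ha1]
        congr 2
        ring)
    simp only [Nat.zero_mul, movedS_zero] at h1
    have h2 := ih (movedS a (x v * n ^ vs.length) S)
      (by rw [movedS_other _ _ ha2.symm (by simp)]; exact hn)
      (by rw [movedS_other _ _ ha3.symm (by simp)]; exact ht)
      (by
        intro l' hl'
        rw [movedS_other _ _ (ha4 l').symm (by simp)]
        exact hc l' hl')
      (by
        intro i
        rw [movedS_other _ _ (ha5 i).symm (by simp)]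
        exact hv i)
    refine (h1.seq h2).to ?_ ?_
    · rw [movedS_add ha1]
      simp [idx]
    · exact Nat.add_le_add_right (forC_mono (hx v).le le_rfl) _

/-- Look up the entry of table `a` at the variables `vs`; the bit is pushed on `res`. -/
def lookup (a : Stk) (l : ℕ) (vs : List ℕ) : Prog Stk :=
  .seq (skipI a l vs)
    (.seq (.ite a tt? (.push res true) (.push res false)) (moveAll aux a))

/-- cost of `lookup` -/
def lookupC (n : ℕ) (vs : List ℕ) : ℕ := skipIC n vs + 2 + (n ^ vs.length * 5 + 1)

theorem idx_lt (n : ℕ) (vs : List ℕ) (h : ∀ v ∈ vs, v < n) : idx n vs < n ^ vs.length := by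
  induction vs with
  | nil => simp [idx]
  | cons v vs ih =>
    have h1 := ih (fun w hw => h w (by simp [hw]))
    have h2 := h v (by simp)
    rw [idx, List.length_cons, pow_succ]
    calc v * n ^ vs.length + idx n vs < v * n ^ vs.length + n ^ vs.length := by omega
      _ = (v + 1) * n ^ vs.length := by ring
      _ ≤ n * n ^ vs.length := Nat.mul_le_mul_right _ h2
      _ = n ^ vs.length * n := by ring

theorem runs_lookup {a : Stk} (h : a = inp ∨ a = arr) (n : ℕ) (l : ℕ) (vs : List ℕ)
    (x : ℕ → ℕ) (hx : ∀ i, x i < n) (S : Stacks Stk)
    (hn : (S num).length = n) (ht : S tmp = []) (haux : S aux = [])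
    (hc : ∀ l' ≥ l, S (cnt l') = [])
    (hv : ∀ i, (S (var i)).length = x i) :
    Runs (lookup a l vs) S
      (update S res (tt? ((S a)[idx n (vs.map x)]?) :: S res)) (lookupC n vs) := by
  have ha : a ≠ aux ∧ a ≠ num ∧ a ≠ tmp ∧ (∀ l, a ≠ cnt l) ∧ (∀ l, a ≠ var l) ∧ a ≠ res := by
    rcases h with h | h <;> subst h <;> simp
  obtain ⟨ha1, ha2, ha3, ha4, ha5, ha6⟩ := ha
  set k := idx n (vs.map x) with hk
  have hklt : k < n ^ vs.length := by
    have := idx_lt n (vs.map x) (by
      intro v hv
      rw [List.mem_map] at hv
      obtain ⟨w, _, rfl⟩ := hv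
      exact hx w)
    simpa using this
  have h1 := runs_skipI h n l vs x hx S hn ht hc hv
  rw [← hk] at h1
  set S1 := movedS a k S with hS1
  have hS1a : S1 a = (S a).drop k := by
    simp [hS1, movedS, update_of_ne ha1]
  have hS1aux : S1 aux = ((S a).take k).reverse := by
    simp [hS1, movedS, haux]
  have h2 : Runs (.ite a tt? (.push res true) (.push res false)) S1
      (update S1 res (tt? ((S a)[k]?) :: S1 res)) 2 := by
    have hh : (S1 a).head? = (S a)[k]? := by
      rw [hS1a, List.head?_drop]
    cases hb : tt? ((S a)[k]?) with
    | true =>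
      exact runs_iteT (by rw [hh]; exact hb) (runs_push res true S1)
    | false =>
      exact runs_iteF (by rw [hh]; exact hb) (runs_push res false S1)
  have h3 := runs_moveAll (k := aux) (k' := a) ha1.symm
    (update S1 res (tt? ((S a)[k]?) :: S1 res))
  have h4 : (update S1 res (tt? ((S a)[k]?) :: S1 res)) aux = ((S a).take k).reverse := by
    rw [update_of_ne (by simp), hS1aux]
  have h5 : (update S1 res (tt? ((S a)[k]?) :: S1 res)) a = (S a).drop k := by
    rw [update_of_ne ha6, hS1a]
  rw [h4, h5] at h3
  refine (h1.seq (h2.seq h3)).to ?_ ?_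
  · funext j
    by_cases j1 : j = a
    · subst j1; simp [ha6]
    · by_cases j2 : j = aux
      · subst j2; simp [j1, haux]
      · by_cases j3 : j = res
        · subst j3
          have : S1 res = S res := movedS_other _ _ j1 j2
          simp [j1, this]
        · have : S1 j = S j := movedS_other _ _ j1 j2
          simp [j1, j2, j3, this]
  · unfold lookupC
    have : ((List.take k (S a)).reverse).length ≤ n ^ vs.length := by
      rw [List.length_reverse, List.length_take]
      omega
    omega

/-- Compare the values of the variables `i` and `j`. -/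
def eqP (l i j : ℕ) : Prog Stk :=
  .seq (copyTo tmp (var i) (cnt l)) <|
  .seq (copyTo tmp (var j) (cnt (l + 1))) <|
  .seq (forU (cnt l) (.ite (cnt (l + 1)) ne? (.pop (cnt (l + 1))) (.push aux true))) <|
  .seq (.ite aux ne? (.push res false)
    (.ite (cnt (l + 1)) ne? (.push res false) (.push res true))) <|
  .seq (clear aux) (clear (cnt (l + 1)))

/-- cost of `eqP` -/
def eqC (n : ℕ) : ℕ := (n * 10 + 2) + ((n * 10 + 2) + ((n * 4 + 1) + (3 + ((n * 2 + 1) +
  (n * 2 + 1)))))

theorem runs_eqP (n l i j : ℕ) (x : ℕ → ℕ) (hx : ∀ i, x i < n) (S : Stacks Stk)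
    (ht : S tmp = []) (haux : S aux = []) (hc : ∀ l' ≥ l, S (cnt l') = [])
    (hv : ∀ i, S (var i) = List.replicate (x i) true) :
    Runs (eqP l i j) S (update S res (decide (x i = x j) :: S res)) (eqC n) := by
  have hi : (List.replicate (x i) true).length = x i := by simp
  have hj : (List.replicate (x j) true).length = x j := by simp
  have c1 := runs_copyTo (t := tmp) (s := var i) (d := cnt l) (by simp) (by simp) (by simp) S ht
  rw [hc l le_rfl, List.append_nil, hv i, hi] at c1
  set S1 := update S (cnt l) (List.replicate (x i) true) with hS1
  have c2 := runs_copyTo (t := tmp) (s := var j) (d := cnt (l + 1)) (by simp) (by simp) (by simp)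
    S1 (by rw [hS1, update_of_ne (by simp)]; exact ht)
  have e1 : S1 (cnt (l + 1)) = [] := by
    rw [hS1, update_of_ne (by simp)]
    exact hc _ (by omega)
  have e2 : S1 (var j) = List.replicate (x j) true := by
    rw [hS1, update_of_ne (by simp)]
    exact hv j
  rw [e1, List.append_nil, e2, hj] at c2
  set S2 := update S1 (cnt (l + 1)) (List.replicate (x j) true) with hS2
  let I : ℕ → Stacks Stk := fun m =>
    update (update (update S2 (cnt l) (List.replicate (x i - m) true)) (cnt (l + 1))
      (List.replicate (x j - m) true)) aux (List.replicate (m - x j) true)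
  have hI0 : I 0 = S2 := by
    simp only [I, hS2, hS1, Nat.sub_zero, Nat.zero_sub, List.replicate_zero]
    funext k
    by_cases k1 : k = aux
    · subst k1; simp [haux]
    · by_cases k2 : k = cnt (l + 1)
      · subst k2; simp
      · by_cases k3 : k = cnt l
        · subst k3; simp
        · simp [k1, k2, k3]
  have c3 := runs_forU (cnt l) (.ite (cnt (l + 1)) ne? (.pop (cnt (l + 1))) (.push aux true))
    (x i) 2 I
    (by intro m hm; simp [I])
    (by
      intro m hm
      have g1 : (update (I m) (cnt l) (I m (cnt l)).tail) (cnt (l + 1))
          = List.replicate (x j - m) true := by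
        simp [I]
      have g2 : (update (I m) (cnt l) (I m (cnt l)).tail) aux
          = List.replicate (m - x j) true := by
        simp [I]
      have g3 : (I m (cnt l)).tail = List.replicate (x i - (m + 1)) true := by
        simp only [I]
        simp [List.tail_replicate]
        omega
      by_cases hmj : m < x j
      · refine (runs_iteT ?_ (runs_pop _ _)).to ?_ le_rfl
        · rw [g1]
          obtain ⟨t, ht⟩ : ∃ t, x j - m = t + 1 := ⟨x j - m - 1, by omega⟩
          rw [ht]
          simp [ne?, List.replicate_succ]
        · rw [g1, g3]
          have g4 : (List.replicate (x j - m) true).tail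
              = List.replicate (x j - (m + 1)) true := by
            simp [List.tail_replicate]
            omega
          rw [g4]
          have g5 : m - x j = m + 1 - x j := by omega
          funext k
          by_cases k1 : k = aux
          · subst k1; simp [I, g5]
          · by_cases k2 : k = cnt (l + 1)
            · subst k2; simp [I]
            · by_cases k3 : k = cnt l
              · subst k3; simp [I]
              · simp [I, k1, k2, k3]
      · refine (runs_iteF ?_ (runs_push _ _ _)).to ?_ le_rfl
        · rw [g1]
          have : x j - m = 0 := by omega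
          rw [this]
          simp [ne?]
        · rw [g2, g3]
          have g5 : true :: List.replicate (m - x j) true
              = List.replicate (m + 1 - x j) true := by
            rw [← List.replicate_succ]
            congr 1
            omega
          rw [g5]
          have g6 : x j - m = 0 := by omega
          have g7 : x j - (m + 1) = 0 := by omega
          funext k
          by_cases k1 : k = aux
          · subst k1; simp [I]
          · by_cases k2 : k = cnt (l + 1)
            · subst k2; simp [I, g6, g7]
            · by_cases k3 : k = cnt l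
              · subst k3; simp [I]
              · simp [I, k1, k2, k3])
  rw [hI0] at c3
  have hIaux : I (x i) aux = List.replicate (x i - x j) true := by simp [I]
  have hIc : I (x i) (cnt (l + 1)) = List.replicate (x j - x i) true := by simp [I]
  have c4 : Runs (.ite aux ne? (.push res false)
    (.ite (cnt (l + 1)) ne? (.push res false) (.push res true))) (I (x i))
      (update (I (x i)) res (decide (x i = x j) :: I (x i) res)) 3 := by
    by_cases h1 : x j < x i
    · have hd : decide (x i = x j) = false := by simp; omega
      rw [hd]
      refine (runs_iteT ?_ (runs_push _ _ _)).mono (by omega)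
      rw [hIaux]
      obtain ⟨t, ht⟩ : ∃ t, x i - x j = t + 1 := ⟨x i - x j - 1, by omega⟩
      rw [ht]
      simp [ne?, List.replicate_succ]
    · have ha : ne? (I (x i) aux).head? = false := by
        rw [hIaux]
        have : x i - x j = 0 := by omega
        rw [this]; simp [ne?]
      by_cases h2 : x i < x j
      · have hd : decide (x i = x j) = false := by simp; omega
        rw [hd]
        refine (runs_iteF ha (runs_iteT ?_ (runs_push _ _ _))).mono (by omega)
        rw [hIc]
        obtain ⟨t, ht⟩ : ∃ t, x j - x i = t + 1 := ⟨x j - x i - 1, by omega⟩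
        rw [ht]
        simp [ne?, List.replicate_succ]
      · have hd : decide (x i = x j) = true := by simp; omega
        rw [hd]
        refine (runs_iteF ha (runs_iteF ?_ (runs_push _ _ _))).mono (by omega)
        rw [hIc]
        have : x j - x i = 0 := by omega
        rw [this]; simp [ne?]
  set S4 := update (I (x i)) res (decide (x i = x j) :: I (x i) res) with hS4
  have c5 := runs_clear aux S4
  have c6 := runs_clear (cnt (l + 1)) (update S4 aux [])
  have hl5 : (S4 aux).length ≤ n := by
    have := hx i
    simp [hS4, hIaux]
    omega
  have hl6 : ((update S4 aux []) (cnt (l + 1))).length ≤ n := by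
    have := hx j
    simp [hS4, hIc]
    omega
  refine (c1.seq (c2.seq (c3.seq (c4.seq (c5.seq c6))))).to ?_ ?_
  · funext k
    by_cases k1 : k = aux
    · subst k1; simp [haux]
    · by_cases k2 : k = cnt (l + 1)
      · subst k2; simp [hc (l + 1) (by omega)]
      · by_cases k3 : k = cnt l
        · subst k3; simp [hS4, I, hc l le_rfl]
        · by_cases k4 : k = res
          · subst k4; simp [hS4, hS2, hS1, I]
          · simp [hS4, hS2, hS1, I, k1, k2, k3, k4]
  · have := hx i
    have := hx j
    unfold eqC
    omega

end Pool.Agent.Helper74
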