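import Pool.Agent.Helper74.PCGDefs

/-!
The 4-cliques of a graph without `K₅` minor form a forest-like structure.
-/

namespace Pool.Agent.Helper74

variable {V : Type}

/-- Vertices reachable from `x` while avoiding `Q`. -/
def Reach (H : SimpleGraph V) (Q : Finset V) (x : V) : Set V :=
  {z | Relation.ReflTransGen (fun u v => H.Adj u v ∧ v ∉ Q) x z}

/-- No 4-clique is completely attached to a connected set disjoint from it. -/
def NoAttach (H : SimpleGraph V) : Prop :=
  ∀ Q : Finset V, H.IsNClique 4 Q → ∀ x, x ∉ Q → ∃ b ∈ Q, ∀ y ∈ Reach H Q x, ¬ H.Adj b y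

theorem reach_self (H : SimpleGraph V) (Q : Finset V) (x : V) : x ∈ Reach H Q x :=
  Relation.ReflTransGen.refl

theorem reach_notMem (H : SimpleGraph V) (Q : Finset V) (x : V) (hx : x ∉ Q) :
    ∀ z ∈ Reach H Q x, z ∉ Q := by
  intro z hz
  cases hz with
  | refl => exact hx
  | tail _ h => exact h.2

theorem reach_connected (H : SimpleGraph V) (Q : Finset V) (x : V) :
    (H.induce (Reach H Q x)).Connected := by
  have key : ∀ z, Relation.ReflTransGen (fun u v => H.Adj u v ∧ v ∉ Q) x z →
      ∃ hz : z ∈ Reach H Q x,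
        (H.induce (Reach H Q x)).Reachable ⟨x, reach_self H Q x⟩ ⟨z, hz⟩ := by
    intro z hz
    induction hz with
    | refl => exact ⟨reach_self H Q x, SimpleGraph.Reachable.refl _⟩
    | @tail b c hb hc ih =>
      obtain ⟨hz, hr⟩ := ih
      have hc' : c ∈ Reach H Q x := Relation.ReflTransGen.tail hb hc
      refine ⟨hc', hr.trans ?_⟩
      apply SimpleGraph.Adj.reachable
      simpa using hc.1
  have hpre : (H.induce (Reach H Q x)).Preconnected := by
    rintro ⟨u, hu⟩ ⟨v, hv⟩
    obtain ⟨_, h1⟩ := key u hu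
    obtain ⟨_, h2⟩ := key v hv
    exact h1.symm.trans h2
  exact { preconnected := hpre, nonempty := ⟨⟨x, reach_self H Q x⟩⟩ }

theorem noAttach_of_noMinor (H : SimpleGraph V)
    (hm : ¬ HasMinor (⊤ : SimpleGraph (Fin 5)) H) : NoAttach H := by
  intro Q hQ x hx
  by_contra hcon
  push Not at hcon
  apply hm
  have hcard : Fintype.card Q = 4 := by rw [Fintype.card_coe]; exact hQ.2
  let f : Fin 4 ≃ Q := (Fintype.equivFinOfCardEq hcard).symm
  have hsing : ∀ v : V, (H.induce ({v} : Set V)).Connected := by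
    intro v
    have hpre : (H.induce ({v} : Set V)).Preconnected := by
      rintro ⟨a, ha⟩ ⟨b, hb⟩
      have h1 : a = v := ha
      have h2 : b = v := hb
      subst h1
      subst h2
      exact SimpleGraph.Reachable.refl _
    exact { preconnected := hpre, nonempty := ⟨⟨v, rfl⟩⟩ }
  refine ⟨fun i => if h : (i : ℕ) < 4 then {((f ⟨i, h⟩ : Q) : V)} else Reach H Q x, ?_, ?_, ?_⟩
  · intro i
    by_cases h : (i : ℕ) < 4
    · beta_reduce
      rw [dif_pos h]
      exact hsing _
    · beta_reduce
      rw [dif_neg h]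
      exact reach_connected H Q x
  · intro i j hij
    by_cases h : (i : ℕ) < 4 <;> by_cases h' : (j : ℕ) < 4
    · simp only [h, h', dite_true]
      rw [Set.disjoint_singleton]
      intro heq
      have := f.injective (Subtype.ext heq)
      apply hij
      apply Fin.ext
      simpa using this
    · simp only [h, h', dite_true, dite_false]
      rw [Set.disjoint_singleton_left]
      intro hmem
      exact reach_notMem H Q x hx _ hmem (f _).2
    · simp only [h, h', dite_true, dite_false]
      rw [Set.disjoint_singleton_right]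
      intro hmem
      exact reach_notMem H Q x hx _ hmem (f _).2
    · exfalso
      apply hij
      apply Fin.ext
      omega
  · intro i j hij
    rw [SimpleGraph.top_adj] at hij
    by_cases h : (i : ℕ) < 4 <;> by_cases h' : (j : ℕ) < 4
    · simp only [h, h', dite_true]
      refine ⟨_, rfl, _, rfl, ?_⟩
      apply hQ.1 (f _).2 (f _).2
      intro heq
      have := f.injective (Subtype.ext heq)
      apply hij
      apply Fin.ext
      simpa using this
    · simp only [h, h', dite_true, dite_false]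
      obtain ⟨y, hy, hadj⟩ := hcon _ (f ⟨i, h⟩).2
      exact ⟨_, rfl, y, hy, hadj⟩
    · simp only [h, h', dite_true, dite_false]
      obtain ⟨y, hy, hadj⟩ := hcon _ (f ⟨j, h'⟩).2
      exact ⟨y, hy, _, rfl, hadj.symm⟩
    · exfalso
      apply hij
      apply Fin.ext
      omega

/-- Among finitely many 4-cliques there is one meeting all its neighbours in the same triangle. -/
theorem exists_leaf [Finite V] [DecidableEq V] (H : SimpleGraph V) (hH : NoAttach H)
    (𝒲 : Finset (Finset V)) (hW : ∀ Q ∈ 𝒲, H.IsNClique 4 Q) (hne : 𝒲.Nonempty) :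
    ∃ Q' ∈ 𝒲, ∃ T : Finset V, ∀ Q'' ∈ 𝒲, Q'' ≠ Q' → (Q'' ∩ Q').card = 3 → Q'' ∩ Q' = T := by
  by_contra hcon
  push Not at hcon
  have key : ∀ n : ℕ, ∀ Q ∈ 𝒲, ∀ x, x ∉ Q → ∀ Q' ∈ 𝒲, x ∈ Q' → (Q ∩ Q').card = 3 →
      (Reach H Q x).ncard = n → False := by
    intro n
    induction n using Nat.strong_induction_on with
    | _ n ih =>
      intro Q hQ x hx Q' hQ' hxQ' hcard hn
      obtain ⟨Q'', hQ'', hne', hcard', hT⟩ := hcon Q' hQ' (Q ∩ Q')
      have cQ := (hW Q hQ).2
      have cQ' := (hW Q' hQ').2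
      have cQ'' := (hW Q'' hQ'').2
      -- elements of Q'
      have h1 : ∀ z ∈ Q', z = x ∨ z ∈ Q := by
        intro z hz
        by_contra hz'
        push Not at hz'
        have hsub : insert z (insert x (Q ∩ Q')) ⊆ Q' := by
          intro w hw
          simp only [Finset.mem_insert, Finset.mem_inter] at hw
          rcases hw with rfl | rfl | ⟨_, hw⟩ <;> assumption
        have := Finset.card_le_card hsub
        rw [Finset.card_insert_of_notMem, Finset.card_insert_of_notMem, hcard, cQ'] at this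
        · omega
        · simp [hx]
        · simp [hz'.1, hz'.2]
      have hxQ'' : x ∈ Q'' := by
        by_contra hxQ''
        apply hT
        apply Finset.eq_of_subset_of_card_le
        · intro w hw
          rw [Finset.mem_inter] at hw ⊢
          refine ⟨?_, hw.2⟩
          rcases h1 w hw.2 with rfl | h
          · exact absurd hw.1 hxQ''
          · exact h
        · rw [hcard', hcard]
      obtain ⟨a, haQ', haQ''⟩ : ∃ a ∈ Q', a ∉ Q'' := by
        by_contra hc
        push Not at hc
        have : Q'' ∩ Q' = Q' := Finset.inter_eq_right.2 hc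
        rw [this, cQ'] at hcard'
        omega
      obtain ⟨y, hyQ'', hyQ'⟩ : ∃ y ∈ Q'', y ∉ Q' := by
        by_contra hc
        push Not at hc
        have : Q'' ∩ Q' = Q'' := Finset.inter_eq_left.2 hc
        rw [this, cQ''] at hcard'
        omega
      have haQ : a ∈ Q := by
        rcases h1 a haQ' with rfl | h
        · exact absurd hxQ'' haQ''
        · exact h
      have ha_unique : ∀ z ∈ Q', z ∉ Q'' → z = a := by
        intro z hz hz''
        by_contra hza
        have hsub : insert z (insert a (Q'' ∩ Q')) ⊆ Q' := by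
          intro w hw
          simp only [Finset.mem_insert, Finset.mem_inter] at hw
          rcases hw with rfl | rfl | ⟨_, hw⟩ <;> assumption
        have := Finset.card_le_card hsub
        rw [Finset.card_insert_of_notMem, Finset.card_insert_of_notMem, hcard', cQ'] at this
        · omega
        · simp [haQ'']
        · simp [hza, hz'']
      obtain ⟨b, hbQ, hbQ'⟩ : ∃ b ∈ Q, b ∉ Q' := by
        by_contra hc
        push Not at hc
        have : Q ∩ Q' = Q := Finset.inter_eq_left.2 hc
        rw [this, cQ] at hcard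
        omega
      have hb_unique : ∀ z ∈ Q, z ∉ Q' → z = b := by
        intro z hz hz'
        by_contra hzb
        have hsub : insert z (insert b (Q ∩ Q')) ⊆ Q := by
          intro w hw
          simp only [Finset.mem_insert, Finset.mem_inter] at hw
          rcases hw with rfl | rfl | ⟨hw, _⟩ <;> assumption
        have := Finset.card_le_card hsub
        rw [Finset.card_insert_of_notMem, Finset.card_insert_of_notMem, hcard, cQ] at this
        · omega
        · simp [hbQ']
        · simp [hzb, hz']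
      have hyx : H.Adj y x := (hW Q'' hQ'').1 hyQ'' hxQ'' (fun h => hyQ' (h ▸ hxQ'))
      have hab : H.Adj a b := (hW Q hQ).1 haQ hbQ (fun h => hbQ' (h ▸ haQ'))
      -- separation at Q'
      obtain ⟨b', hb'Q', hb'⟩ := hH Q' (hW Q' hQ') y hyQ'
      have hb'a : b' = a := by
        apply ha_unique b' hb'Q'
        intro hb''
        apply hb' y (reach_self H Q' y)
        exact (hW Q'' hQ'').1 hb'' hyQ'' (fun h => hyQ' (h ▸ hb'Q'))
      rw [hb'a] at hb'
      -- separation at Q
      obtain ⟨b0, hb0Q, hb0⟩ := hH Q (hW Q hQ) x hx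
      have hb0b : b0 = b := by
        apply hb_unique b0 hb0Q
        intro hb0'
        apply hb0 x (reach_self H Q x)
        exact (hW Q' hQ').1 hb0' hxQ' (fun h => hx (h ▸ hb0Q))
      rw [hb0b] at hb0
      have hyQ : y ∉ Q := by
        intro hy
        have := hb_unique y hy hyQ'
        rw [this] at hyx
        exact hb0 x (reach_self H Q x) hyx
      have hmem : ∀ z ∈ Reach H Q' y, z ∉ Q := by
        intro z hz hzQ
        have h2 : z ∉ Q' := reach_notMem H Q' y hyQ' z hz
        have h3 := hb_unique z hzQ h2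
        rw [h3] at hz
        exact hb' b hz hab
      have hsub : Reach H Q' y ⊆ Reach H Q x := by
        intro z hz
        have : ∀ z, Relation.ReflTransGen (fun u v => H.Adj u v ∧ v ∉ Q') y z →
            z ∈ Reach H Q x := by
          intro z hz
          induction hz with
          | refl => exact Relation.ReflTransGen.single ⟨hyx.symm, hyQ⟩
          | @tail u v hu hv ih2 =>
            exact Relation.ReflTransGen.tail ih2
              ⟨hv.1, hmem v (Relation.ReflTransGen.tail hu hv)⟩
        exact this z hz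
      have hlt : (Reach H Q' y).ncard < (Reach H Q x).ncard := by
        apply Set.ncard_lt_ncard _ (Set.toFinite _)
        refine ⟨hsub, fun hsup => ?_⟩
        exact reach_notMem H Q' y hyQ' x (hsup (reach_self H Q x)) hxQ'
      rw [hn] at hlt
      exact ih _ hlt Q' hQ' y hyQ' Q'' hQ'' hyQ'' (by rw [Finset.inter_comm]; exact hcard') rfl
  obtain ⟨Q', hQ'⟩ := hne
  obtain ⟨Q'', hQ'', hne', hcard', _⟩ := hcon Q' hQ' ∅
  obtain ⟨y, hyQ'', hyQ'⟩ : ∃ y ∈ Q'', y ∉ Q' := by
    by_contra hc
    push Not at hc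
    have : Q'' ∩ Q' = Q'' := Finset.inter_eq_left.2 hc
    rw [this, (hW Q'' hQ'').2] at hcard'
    omega
  exact key _ Q' hQ' y hyQ' Q'' hQ'' hyQ'' (by rw [Finset.inter_comm]; exact hcard') rfl

/-- Tree-like gluing of local states on the 4-cliques. -/
theorem glue [Finite V] [DecidableEq V] (H : SimpleGraph V) (hH : NoAttach H)
    (P : Finset V → (V → V → Set V) → Prop)
    (init : ∀ Q : Finset V, H.IsNClique 4 Q → ∃ κ, P Q κ)
    (ext : ∀ Q Q' : Finset V, H.IsNClique 4 Q → H.IsNClique 4 Q' → (Q ∩ Q').card = 3 →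
      ∀ κ, P Q κ → ∃ κ', P Q' κ' ∧ ∀ a ∈ Q ∩ Q', ∀ b ∈ Q ∩ Q', a ≠ b → κ' a b = κ a b) :
    ∃ κ : Finset V → V → V → Set V, (∀ Q : Finset V, H.IsNClique 4 Q → P Q (κ Q)) ∧
      ∀ Q Q' : Finset V, H.IsNClique 4 Q → H.IsNClique 4 Q' → (Q ∩ Q').card = 3 →
        ∀ a ∈ Q ∩ Q', ∀ b ∈ Q ∩ Q', a ≠ b → κ Q a b = κ Q' a b := by
  classical
  have key : ∀ n : ℕ, ∀ 𝒲 : Finset (Finset V), 𝒲.card = n → (∀ Q ∈ 𝒲, H.IsNClique 4 Q) →
      ∃ κ : Finset V → V → V → Set V, (∀ Q ∈ 𝒲, P Q (κ Q)) ∧
      ∀ Q ∈ 𝒲, ∀ Q' ∈ 𝒲, (Q ∩ Q').card = 3 →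
        ∀ a ∈ Q ∩ Q', ∀ b ∈ Q ∩ Q', a ≠ b → κ Q a b = κ Q' a b := by
    intro n
    induction n with
    | zero =>
      intro 𝒲 hc _
      rw [Finset.card_eq_zero] at hc
      subst hc
      exact ⟨fun _ _ _ => ∅, by simp, by simp⟩
    | succ n ih =>
      intro 𝒲 hc hW
      have hne : 𝒲.Nonempty := by rw [← Finset.card_pos]; omega
      obtain ⟨Q₀, hQ₀, T, hT⟩ := exists_leaf H hH 𝒲 hW hne
      obtain ⟨κ, hκ1, hκ2⟩ := ih (𝒲.erase Q₀) (by rw [Finset.card_erase_of_mem hQ₀]; omega)
        (fun Q hQ => hW Q (Finset.mem_of_mem_erase hQ))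
      -- choose the state at the leaf
      have hchoose : ∃ κ₀, P Q₀ κ₀ ∧ ∀ Q ∈ 𝒲.erase Q₀, (Q ∩ Q₀).card = 3 →
          ∀ a ∈ Q ∩ Q₀, ∀ b ∈ Q ∩ Q₀, a ≠ b → κ₀ a b = κ Q a b := by
        by_cases hnb : ∃ Q ∈ 𝒲.erase Q₀, (Q ∩ Q₀).card = 3
        · obtain ⟨Q, hQ, hQc⟩ := hnb
          obtain ⟨κ₀, h1, h2⟩ := ext Q Q₀ (hW Q (Finset.mem_of_mem_erase hQ)) (hW Q₀ hQ₀) hQc
            (κ Q) (hκ1 Q hQ)
          refine ⟨κ₀, h1, ?_⟩
          intro Q2 hQ2 hQ2c a ha b hb hab
          have e1 := hT Q (Finset.mem_of_mem_erase hQ) (Finset.ne_of_mem_erase hQ) hQc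
          have e2 := hT Q2 (Finset.mem_of_mem_erase hQ2) (Finset.ne_of_mem_erase hQ2) hQ2c
          have ha' : a ∈ Q ∩ Q₀ := by rw [e1, ← e2]; exact ha
          have hb' : b ∈ Q ∩ Q₀ := by rw [e1, ← e2]; exact hb
          rw [h2 a ha' b hb' hab]
          by_cases hQQ2 : Q = Q2
          · rw [hQQ2]
          · have hsub : Q ∩ Q₀ ⊆ Q ∩ Q2 := by
              intro w hw
              rw [Finset.mem_inter]
              refine ⟨Finset.mem_of_mem_inter_left hw, ?_⟩
              rw [e1, ← e2] at hw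
              exact Finset.mem_of_mem_inter_left hw
            have hle := Finset.card_le_card hsub
            have hle2 : (Q ∩ Q2).card ≤ 3 := by
              by_contra hgt
              push Not at hgt
              apply hQQ2
              have c1 := (hW Q (Finset.mem_of_mem_erase hQ)).2
              have c2 := (hW Q2 (Finset.mem_of_mem_erase hQ2)).2
              have s1 : Q ∩ Q2 = Q := Finset.eq_of_subset_of_card_le Finset.inter_subset_left
                (by omega)
              have s2 : Q ∩ Q2 = Q2 := Finset.eq_of_subset_of_card_le Finset.inter_subset_right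
                (by omega)
              rw [← s1]; exact s2
            exact hκ2 Q hQ Q2 hQ2 (by omega) a (hsub ha') b (hsub hb') hab
        · obtain ⟨κ₀, h1⟩ := init Q₀ (hW Q₀ hQ₀)
          refine ⟨κ₀, h1, ?_⟩
          intro Q hQ hQc
          exact absurd ⟨Q, hQ, hQc⟩ hnb
      obtain ⟨κ₀, h1, h2⟩ := hchoose
      refine ⟨fun Q => if Q = Q₀ then κ₀ else κ Q, ?_, ?_⟩
      · intro Q hQ
        by_cases hQQ : Q = Q₀
        · simp only [hQQ, if_true]; exact h1
        · simp only [hQQ, if_false]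
          exact hκ1 Q (Finset.mem_erase.2 ⟨hQQ, hQ⟩)
      · intro Q hQ Q' hQ' hcc a ha b hb hab
        by_cases hQQ : Q = Q₀ <;> by_cases hQQ' : Q' = Q₀
        · simp only [hQQ, hQQ', if_true]
        · simp only [hQQ, hQQ', if_true, if_false]
          rw [hQQ, Finset.inter_comm] at hcc ha hb
          exact h2 Q' (Finset.mem_erase.2 ⟨hQQ', hQ'⟩) hcc a ha b hb hab
        · simp only [hQQ, hQQ', if_true, if_false]
          rw [hQQ'] at hcc ha hb
          exact (h2 Q (Finset.mem_erase.2 ⟨hQQ, hQ⟩) hcc a ha b hb hab).symm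
        · simp only [hQQ, hQQ', if_false]
          exact hκ2 Q (Finset.mem_erase.2 ⟨hQQ, hQ⟩) Q' (Finset.mem_erase.2 ⟨hQQ', hQ'⟩) hcc
            a ha b hb hab
  have : Fintype V := Fintype.ofFinite V
  obtain ⟨κ, h1, h2⟩ := key _ (Finset.univ.filter (fun Q : Finset V => H.IsNClique 4 Q)) rfl
    (by simp)
  exact ⟨κ, fun Q hQ => h1 Q (by simp [hQ]), fun Q Q' hQ hQ' => h2 Q (by simp [hQ]) Q'
    (by simp [hQ'])⟩

end Pool.Agent.Helper74
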