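import Pool.Agent.Helper74.Eval

/-!
Propositional semantics of formulas over an arbitrary type and transfer to the bit semantics.
-/

namespace Pool.Agent.Helper74

open Function

/-- Semantics over a type `V`. -/
def Fm.holds {V : Type} (k : ℕ) (adj : V → V → Prop) (R : List V → Prop) :
    Fm → (ℕ → V) → Prop
  | .adj i j, x => adj (x i) (x j)
  | .eq i j, x => x i = x j
  | .rel t, x => t.length = k ∧ R (t.map x)
  | .neg p, x => ¬ p.holds k adj R x
  | .and p q, x => p.holds k adj R x ∧ q.holds k adj R x
  | .ex m p, x => ∃ v, p.holds k adj R (update x m v)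

/-- disjunction -/
def Fm.or (p q : Fm) : Fm := .neg (.and (.neg p) (.neg q))

/-- implication -/
def Fm.imp (p q : Fm) : Fm := .neg (.and p (.neg q))

/-- universal quantifier -/
def Fm.all (m : ℕ) (p : Fm) : Fm := .neg (.ex m (.neg p))

/-- conjunction of a list of formulas -/
def Fm.conj : List Fm → Fm
  | [] => .eq 0 0
  | p :: l => .and p (Fm.conj l)

section lemmas

variable {V : Type} (k : ℕ) (adj : V → V → Prop) (R : List V → Prop)

theorem holds_or (p q : Fm) (x : ℕ → V) :
    (p.or q).holds k adj R x ↔ p.holds k adj R x ∨ q.holds k adj R x := by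
  simp only [Fm.or, Fm.holds]; tauto

theorem holds_imp (p q : Fm) (x : ℕ → V) :
    (p.imp q).holds k adj R x ↔ (p.holds k adj R x → q.holds k adj R x) := by
  simp only [Fm.imp, Fm.holds]; tauto

theorem holds_all (m : ℕ) (p : Fm) (x : ℕ → V) :
    (Fm.all m p).holds k adj R x ↔ ∀ v, p.holds k adj R (update x m v) := by
  simp only [Fm.all, Fm.holds]; push Not; rfl

theorem holds_conj (l : List Fm) (x : ℕ → V) :
    (Fm.conj l).holds k adj R x ↔ ∀ p ∈ l, p.holds k adj R x := by
  induction l with
  | nil => simp [Fm.conj, Fm.holds]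
  | cons p l ih => simp [Fm.conj, Fm.holds, ih]

end lemmas

theorem eval_iff_holds {n : ℕ} (k : ℕ) (adj : Fin n → Fin n → Prop)
    (E : ℕ → ℕ → Bool) (hE : ∀ a b : Fin n, E a.1 b.1 = true ↔ adj a b)
    (Rb : List ℕ → Bool) (R : List (Fin n) → Prop)
    (hR : ∀ t : List (Fin n), t.length = k → (Rb (t.map Fin.val) = true ↔ R t))
    (p : Fm) (x : ℕ → Fin n) :
    p.eval n k E Rb (fun i => (x i).1) = true ↔ p.holds k adj R x := by
  induction p generalizing x with
  | adj i j => simp [Fm.eval, Fm.holds, hE]
  | eq i j => simp [Fm.eval, Fm.holds, Fin.ext_iff]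
  | rel t =>
    by_cases ht : t.length = k
    · have h1 : (t.map fun i => (x i).1) = (t.map x).map Fin.val := by
        rw [List.map_map]; rfl
      simp only [Fm.eval, Fm.holds, ht, if_true, true_and]
      rw [h1]
      exact hR _ (by simpa using ht)
    · simp [Fm.eval, Fm.holds, ht]
  | neg p ih =>
    simp only [Fm.eval, Fm.holds, ← ih x]
    simp
  | and p q ihp ihq =>
    simp only [Fm.eval, Fm.holds, ← ihp x, ← ihq x]
    simp
  | ex m p ih =>
    simp only [Fm.eval, Fm.holds, List.any_eq_true, List.mem_range]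
    have hupd : ∀ v : Fin n, (fun i => (update x m v i).1)
        = update (fun i => (x i).1) m v.1 := by
      intro v
      funext i
      by_cases hi : i = m
      · subst hi; simp
      · simp [hi]
    constructor
    · rintro ⟨v, hv, h⟩
      refine ⟨⟨v, hv⟩, ?_⟩
      rw [← ih, hupd]
      exact h
    · rintro ⟨v, h⟩
      refine ⟨v.1, v.2, ?_⟩
      rw [← ih, hupd] at h
      exact h

end Pool.Agent.Helper74
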