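import Pool.Agent.Helper74.Core
import Pool.Agent.Helper74.Glue

/-!
Local states on 4-cliques and their assembly to a core function.
-/

namespace Pool.Agent.Helper74

variable {V : Type}

/-- Local conditions on a 4-clique `Q` for a system of complete sets `κ a b`. -/
structure LocalOK (H : SimpleGraph V) (Q : Finset V) (κ : V → V → Set V) : Prop where
  symm : ∀ a ∈ Q, ∀ b ∈ Q, a ≠ b → κ a b = κ b a
  mem : ∀ a ∈ Q, ∀ b ∈ Q, a ≠ b → a ∈ κ a b
  clique : ∀ a ∈ Q, ∀ b ∈ Q, a ≠ b → H.IsClique (κ a b)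
  dom : ∀ a ∈ Q, ∀ b ∈ Q, a ≠ b → κ a b = {a, b} ∨
    ∀ c, H.Adj c a → H.Adj c b → c ∈ κ a b ∨ ∃ w ∈ κ a b, w ≠ a ∧ w ≠ b ∧ H.Adj w c
  clos : ∀ a ∈ Q, ∀ b ∈ Q, a ≠ b → ∀ c ∈ Q, ∀ d ∈ Q, c ≠ d → c ∈ κ a b → d ∈ κ a b →
    κ c d ⊆ κ a b
  tri : ∀ a ∈ Q, ∀ b ∈ Q, ∀ c ∈ Q, a ≠ b → b ≠ c → a ≠ c →
    ∃ w, w ∈ κ a b ∧ w ∈ κ b c ∧ w ∈ κ a c

/-- `c` is the only common neighbour of `a` and `b`. -/
def OnlyNb (H : SimpleGraph V) (a b c : V) : Prop := ∀ y, H.Adj y a → H.Adj y b → y = c

/-- Triangles contained in no 4-clique have an edge contained in no other triangle. -/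
def TriCond (H : SimpleGraph V) : Prop :=
  ∀ a b c, H.Adj a b → H.Adj b c → H.Adj a c →
    (∃ d, H.Adj d a ∧ H.Adj d b ∧ H.Adj d c) ∨ OnlyNb H a b c ∨ OnlyNb H b c a ∨ OnlyNb H a c b

theorem core_dom {H : SimpleGraph V} {K : V → V → Set V} (hK : CoreFn H K) {a b : V}
    (hab : H.Adj a b) : K a b = {a, b} ∨
    ∀ c, H.Adj c a → H.Adj c b → c ∈ K a b ∨ ∃ w ∈ K a b, w ≠ a ∧ w ≠ b ∧ H.Adj w c := by
  by_cases hKab : K a b = {a, b}
  · exact Or.inl hKab
  right
  intro c hca hcb
  have ha : a ∈ K a b := hK.mem a b hab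
  have hb : b ∈ K a b := by rw [hK.symm]; exact hK.mem b a hab.symm
  obtain ⟨x, hx, hxa, hxb⟩ : ∃ x ∈ K a b, x ≠ a ∧ x ≠ b := by
    by_contra hc
    push Not at hc
    apply hKab
    ext x
    constructor
    · intro hx
      by_cases hxa : x = a
      · left; exact hxa
      · right; exact hc x hx hxa
    · rintro (rfl | hx)
      · exact ha
      · have : x = b := hx
        rw [this]; exact hb
  obtain ⟨w, w1, w2, w3⟩ := hK.tri a b c hab hcb.symm hca.symm
  by_cases hwc : w = c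
  · left; rw [← hwc]; exact w1
  by_cases hwa : w = a
  · -- K b c contains a, so contains K a b
    rw [hwa] at w2
    have hbb : b ∈ K b c := hK.mem b c hcb.symm
    have hsub := hK.clos b c hcb.symm a w2 b hbb hab.ne
    have hxc : x ∈ K b c := hsub hx
    by_cases hxc' : x = c
    · left; rw [← hxc']; exact hx
    · right
      have hcc : c ∈ K b c := by rw [hK.symm]; exact hK.mem c b hcb
      exact ⟨x, hx, hxa, hxb, hK.clique b c hcb.symm hxc hcc hxc'⟩
  by_cases hwb : w = b
  · rw [hwb] at w3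
    have haa : a ∈ K a c := hK.mem a c hca.symm
    have hsub := hK.clos a c hca.symm a haa b w3 hab.ne
    have hxc : x ∈ K a c := hsub hx
    by_cases hxc' : x = c
    · left; rw [← hxc']; exact hx
    · right
      have hcc : c ∈ K a c := by rw [hK.symm]; exact hK.mem c a hca
      exact ⟨x, hx, hxa, hxb, hK.clique a c hca.symm hxc hcc hxc'⟩
  right
  have hcc : c ∈ K b c := by rw [hK.symm]; exact hK.mem c b hcb
  exact ⟨w, w1, hwa, hwb, hK.clique b c hcb.symm w2 hcc hwc⟩

theorem localOK_of_core {H : SimpleGraph V} {K : V → V → Set V} (hK : CoreFn H K)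
    {Q : Finset V} (hQ : H.IsNClique 4 Q) : LocalOK H Q K where
  symm a _ b _ _ := hK.symm a b
  mem a ha b hb hab := hK.mem a b (hQ.1 ha hb hab)
  clique _ ha _ hb hab := hK.clique _ _ (hQ.1 ha hb hab)
  dom a ha b hb hab := core_dom hK (hQ.1 ha hb hab)
  clos a ha b hb hab c _ d _ hcd h1 h2 := hK.clos a b (hQ.1 ha hb hab) c h1 d h2 hcd
  tri a ha b hb c hc hab hbc hac := hK.tri a b c (hQ.1 ha hb hab) (hQ.1 hb hc hbc)
    (hQ.1 ha hc hac)

theorem triCond_of_core {H : SimpleGraph V} {K : V → V → Set V} (hK : CoreFn H K) :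
    TriCond H := by
  have main : ∀ a b c, H.Adj a b → H.Adj b c → H.Adj a c →
      (¬ ∃ d, H.Adj d a ∧ H.Adj d b ∧ H.Adj d c) → c ∈ K a b → OnlyNb H a b c := by
    intro a b c hab hbc hac hno hc y hya hyb
    by_contra hyc
    rcases core_dom hK hab with h | h
    · rw [h] at hc
      rcases hc with hc | hc
      · exact hac.ne hc.symm
      · have : c = b := hc
        exact hbc.ne this.symm
    · have hcl := hK.clique a b hab
      have ha : a ∈ K a b := hK.mem a b hab
      have hb : b ∈ K a b := by rw [hK.symm]; exact hK.mem b a hab.symm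
      rcases h y hya hyb with h1 | ⟨w, h1, h2, h3, h4⟩
      · exact hno ⟨y, hya, hyb, hcl h1 hc hyc⟩
      · by_cases hwc : w = c
        · rw [hwc] at h4
          exact hno ⟨y, hya, hyb, h4.symm⟩
        · exact hno ⟨w, hcl h1 ha h2, hcl h1 hb h3, hcl h1 hc hwc⟩
  intro a b c hab hbc hac
  by_cases hex : ∃ d, H.Adj d a ∧ H.Adj d b ∧ H.Adj d c
  · exact Or.inl hex
  right
  obtain ⟨w, w1, w2, w3⟩ := hK.tri a b c hab hbc hac
  have ha : a ∈ K a b := hK.mem a b hab
  have hb : b ∈ K a b := by rw [hK.symm]; exact hK.mem b a hab.symm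
  have hc : c ∈ K b c := by rw [hK.symm]; exact hK.mem c b hbc.symm
  by_cases hwc : w = c
  · left
    rw [hwc] at w1
    exact main a b c hab hbc hac hex w1
  by_cases hwa : w = a
  · right; left
    rw [hwa] at w2
    refine main b c a hbc hac.symm hab.symm ?_ w2
    rintro ⟨d, h1, h2, h3⟩
    exact hex ⟨d, h3, h1, h2⟩
  by_cases hwb : w = b
  · right; right
    rw [hwb] at w3
    refine main a c b hac hbc.symm hab ?_ w3
    rintro ⟨d, h1, h2, h3⟩
    exact hex ⟨d, h1, h3, h2⟩
  exact absurd ⟨w, hK.clique a b hab w1 ha hwa, hK.clique a b hab w1 hb hwb,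
    hK.clique b c hbc w2 hc hwc⟩ hex

theorem inK4_of [DecidableEq V] {H : SimpleGraph V} {a b c d : V} (hab : H.Adj a b)
    (hac : H.Adj a c) (had : H.Adj a d) (hbc : H.Adj b c) (hbd : H.Adj b d) (hcd : H.Adj c d) :
    H.IsNClique 4 {a, b, c, d} := by
  constructor
  · rw [SimpleGraph.isClique_iff]
    intro x hx y hy hxy
    simp only [Finset.coe_insert, Finset.coe_singleton, Set.mem_insert_iff,
      Set.mem_singleton_iff] at hx hy
    rcases hx with rfl | rfl | rfl | rfl <;> rcases hy with rfl | rfl | rfl | rfl <;>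
      first
        | exact absurd rfl hxy
        | assumption
        | (apply SimpleGraph.Adj.symm; assumption)
  · rw [Finset.card_eq_succ]
    refine ⟨a, {b, c, d}, ?_, rfl, ?_⟩
    · simp [hab.ne, hac.ne, had.ne]
    · exact Finset.card_eq_three.2 ⟨b, c, d, hbc.ne, hbd.ne, hcd.ne, rfl⟩

/-- A graph with no attached 4-clique has no 5-clique (in terms of vertices). -/
theorem no_five {H : SimpleGraph V} (hH : NoAttach H) {a b c d e : V}
    (hab : H.Adj a b) (hac : H.Adj a c) (had : H.Adj a d) (hbc : H.Adj b c) (hbd : H.Adj b d)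
    (hcd : H.Adj c d) (hea : H.Adj e a) (heb : H.Adj e b) (hec : H.Adj e c) (hed : H.Adj e d) :
    False := by
  classical
  have hQ : H.IsNClique 4 {a, b, c, d} := inK4_of hab hac had hbc hbd hcd
  obtain ⟨x, hx, hx2⟩ := hH {a, b, c, d} hQ e (by
    simp [hea.ne, heb.ne, hec.ne, hed.ne])
  have := hx2 e (reach_self H _ e)
  simp only [Finset.mem_insert, Finset.mem_singleton] at hx
  rcases hx with rfl | rfl | rfl | rfl
  · exact this hea.symm
  · exact this heb.symm
  · exact this hec.symm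
  · exact this hed.symm

theorem four_split [DecidableEq V] {H : SimpleGraph V} {Q : Finset V} (hQ : H.IsNClique 4 Q)
    {a b : V} (ha : a ∈ Q) (hb : b ∈ Q) (hab : a ≠ b) :
    ∃ c d, c ≠ a ∧ c ≠ b ∧ d ≠ a ∧ d ≠ b ∧ c ≠ d ∧ Q = {a, b, c, d} := by
  have h1 : ((Q.erase a).erase b).card = 2 := by
    rw [Finset.card_erase_of_mem (Finset.mem_erase.2 ⟨hab.symm, hb⟩),
      Finset.card_erase_of_mem ha, hQ.2]
  obtain ⟨c, d, hcd, h2⟩ := Finset.card_eq_two.1 h1
  have hc : c ∈ (Q.erase a).erase b := by rw [h2]; simp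
  have hd : d ∈ (Q.erase a).erase b := by rw [h2]; simp
  rw [Finset.mem_erase, Finset.mem_erase] at hc hd
  refine ⟨c, d, hc.2.1, hc.1, hd.2.1, hd.1, hcd, ?_⟩
  ext x
  simp only [Finset.mem_insert, Finset.mem_singleton]
  constructor
  · intro hx
    by_cases hxa : x = a
    · exact Or.inl hxa
    by_cases hxb : x = b
    · exact Or.inr (Or.inl hxb)
    have : x ∈ (Q.erase a).erase b := by
      rw [Finset.mem_erase, Finset.mem_erase]; exact ⟨hxb, hxa, hx⟩
    rw [h2] at this
    simpa using Or.inr (Or.inr this)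
  · rintro (rfl | rfl | rfl | rfl)
    · exact ha
    · exact hb
    · exact hc.2.2
    · exact hd.2.2

/-- A consistent family of local states. -/
structure Family (H : SimpleGraph V) [DecidableEq V] (κ : Finset V → V → V → Set V) : Prop where
  loc : ∀ Q : Finset V, H.IsNClique 4 Q → LocalOK H Q (κ Q)
  agr : ∀ Q Q' : Finset V, H.IsNClique 4 Q → H.IsNClique 4 Q' → (Q ∩ Q').card = 3 →
        ∀ a ∈ Q ∩ Q', ∀ b ∈ Q ∩ Q', a ≠ b → κ Q a b = κ Q' a b

section family

variable [DecidableEq V] {H : SimpleGraph V} {κ : Finset V → V → V → Set V}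

theorem Family.agr3 (hκ : Family H κ) {Q Q' : Finset V} (hQ : H.IsNClique 4 Q)
    (hQ' : H.IsNClique 4 Q') {a b w : V} (ha : a ∈ Q) (hb : b ∈ Q) (hw : w ∈ Q) (ha' : a ∈ Q')
    (hb' : b ∈ Q') (hw' : w ∈ Q') (hab : a ≠ b) (haw : a ≠ w) (hbw : b ≠ w) :
    κ Q a b = κ Q' a b := by
  by_cases hQQ : Q = Q'
  · rw [hQQ]
  have hsub : ({a, b, w} : Finset V) ⊆ Q ∩ Q' := by
    intro x hx
    simp only [Finset.mem_insert, Finset.mem_singleton] at hx
    rw [Finset.mem_inter]
    rcases hx with rfl | rfl | rfl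
    · exact ⟨ha, ha'⟩
    · exact ⟨hb, hb'⟩
    · exact ⟨hw, hw'⟩
  have hle := Finset.card_le_card hsub
  rw [Finset.card_eq_three.2 ⟨a, b, w, hab, haw, hbw, rfl⟩] at hle
  have hle2 : (Q ∩ Q').card ≤ 3 := by
    by_contra hgt
    push Not at hgt
    apply hQQ
    have c1 := hQ.2
    have c2 := hQ'.2
    have s1 : Q ∩ Q' = Q := Finset.eq_of_subset_of_card_le Finset.inter_subset_left (by omega)
    have s2 : Q ∩ Q' = Q' := Finset.eq_of_subset_of_card_le Finset.inter_subset_right (by omega)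
    rw [← s1]; exact s2
  exact hκ.agr Q Q' hQ hQ' (by omega) a (hsub (by simp)) b (hsub (by simp)) hab

/-- Structure of a nontrivial core: either a triangle through which all 4-cliques on the edge
pass, or a 4-clique. -/
theorem Family.shape (hH : NoAttach H) (hκ : Family H κ) {Q : Finset V}
    (hQ : H.IsNClique 4 Q) {a b : V} (ha : a ∈ Q) (hb : b ∈ Q) (hab : a ≠ b)
    (hne : κ Q a b ≠ {a, b}) :
    (∃ w, w ≠ a ∧ w ≠ b ∧ κ Q a b = {a, b, w} ∧
      ∀ Q' : Finset V, H.IsNClique 4 Q' → a ∈ Q' → b ∈ Q' → w ∈ Q') ∨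
    (∃ w w', w ≠ a ∧ w ≠ b ∧ w' ≠ a ∧ w' ≠ b ∧ w ≠ w' ∧ κ Q a b = {a, b, w, w'} ∧
      H.IsNClique 4 {a, b, w, w'} ∧
      ∀ Q' : Finset V, H.IsNClique 4 Q' → a ∈ Q' → b ∈ Q' → w ∈ Q' ∨ w' ∈ Q') := by
  have hloc := hκ.loc Q hQ
  have haC := hloc.mem a ha b hb hab
  have hbC : b ∈ κ Q a b := by rw [hloc.symm a ha b hb hab]; exact hloc.mem b hb a ha hab.symm
  have hCl := hloc.clique a ha b hb hab
  have hAdj : H.Adj a b := hQ.1 ha hb hab
  have hdom := (hloc.dom a ha b hb hab).resolve_left hne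
  set C := κ Q a b with hC
  obtain ⟨w, hw, hwa, hwb⟩ : ∃ w ∈ C, w ≠ a ∧ w ≠ b := by
    by_contra hc
    push Not at hc
    apply hne
    ext x
    constructor
    · intro hx
      by_cases hxa : x = a
      · left; exact hxa
      · right; exact hc x hx hxa
    · rintro (rfl | hx)
      · exact haC
      · have : x = b := hx
        rw [this]; exact hbC
  have hwaA := hCl hw haC hwa
  have hwbA := hCl hw hbC hwb
  by_cases hex : ∃ w' ∈ C, w' ≠ a ∧ w' ≠ b ∧ w' ≠ w
  · right
    obtain ⟨w', hw', hw'a, hw'b, hw'w⟩ := hex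
    have hw'aA := hCl hw' haC hw'a
    have hw'bA := hCl hw' hbC hw'b
    have hw'wA := hCl hw' hw hw'w
    have hCeq : C = {a, b, w, w'} := by
      ext x
      simp only [Set.mem_insert_iff, Set.mem_singleton_iff]
      constructor
      · intro hx
        by_contra hcon
        push Not at hcon
        obtain ⟨h1, h2, h3, h4⟩ := hcon
        exact no_five hH hAdj hwaA.symm hw'aA.symm hwbA.symm hw'bA.symm hw'wA.symm
          (hCl hx haC h1) (hCl hx hbC h2) (hCl hx hw h3) (hCl hx hw' h4)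
      · rintro (rfl | rfl | rfl | rfl) <;> assumption
    have hK4 : H.IsNClique 4 {a, b, w, w'} :=
      inK4_of hAdj hwaA.symm hw'aA.symm hwbA.symm hw'bA.symm hw'wA.symm
    refine ⟨w, w', hwa, hwb, hw'a, hw'b, hw'w.symm, hCeq, hK4, ?_⟩
    intro Q' hQ' ha' hb'
    by_contra hcon
    push Not at hcon
    obtain ⟨c, d, hca, hcb, hda, hdb, hcd, hQ'eq⟩ := four_split hQ' ha' hb' hab
    have hcQ' : c ∈ Q' := by rw [hQ'eq]; simp
    have hdQ' : d ∈ Q' := by rw [hQ'eq]; simp
    have hcw : c ≠ w := fun h => hcon.1 (h ▸ hcQ')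
    have hcw' : c ≠ w' := fun h => hcon.2 (h ▸ hcQ')
    have hdw : d ≠ w := fun h => hcon.1 (h ▸ hdQ')
    have hdw' : d ≠ w' := fun h => hcon.2 (h ▸ hdQ')
    have hcaA := hQ'.1 hcQ' ha' hca
    have hcbA := hQ'.1 hcQ' hb' hcb
    have hdaA := hQ'.1 hdQ' ha' hda
    have hdbA := hQ'.1 hdQ' hb' hdb
    have hcdA := hQ'.1 hcQ' hdQ' hcd
    have adjw : ∀ z, H.Adj z a → H.Adj z b → z ≠ a → z ≠ b → z ≠ w → z ≠ w' →
        H.Adj w z ∨ H.Adj w' z := by
      intro z hza hzb h1 h2 h3 h4
      rcases hdom z hza hzb with h | ⟨y, hy, hya, hyb, hyz⟩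
      · rw [hCeq] at h
        simp only [Set.mem_insert_iff, Set.mem_singleton_iff] at h
        tauto
      · rw [hCeq] at hy
        simp only [Set.mem_insert_iff, Set.mem_singleton_iff] at hy
        rcases hy with h | h | h | h
        · exact absurd h hya
        · exact absurd h hyb
        · left; rw [← h]; exact hyz
        · right; rw [← h]; exact hyz
    have h5 : ∀ z, (z = w ∨ z = w') → H.Adj z c → H.Adj z d → False := by
      intro z hz hzc hzd
      have hza : H.Adj z a := by rcases hz with rfl | rfl <;> assumption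
      have hzb : H.Adj z b := by rcases hz with rfl | rfl <;> assumption
      exact no_five hH hAdj hcaA.symm hdaA.symm hcbA.symm hdbA.symm hcdA hza hzb hzc hzd
    -- the attachment of the 4-clique a b w w' to {c, d}
    have h6 : (H.Adj w c ∨ H.Adj w d) ∧ (H.Adj w' c ∨ H.Adj w' d) := by
      have hc1 := adjw c hcaA hcbA hca hcb hcw hcw'
      have hd1 := adjw d hdaA hdbA hda hdb hdw hdw'
      have f1 := h5 w (Or.inl rfl)
      have f2 := h5 w' (Or.inr rfl)
      tauto
    have hcnot : c ∉ ({a, b, w, w'} : Finset V) := by simp [hca, hcb, hcw, hcw']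
    have hdnot : d ∉ ({a, b, w, w'} : Finset V) := by simp [hda, hdb, hdw, hdw']
    obtain ⟨z, hz, hz2⟩ := hH _ hK4 c hcnot
    have rc := hz2 c (reach_self H _ c)
    have rd := hz2 d (Relation.ReflTransGen.single ⟨hcdA, hdnot⟩)
    simp only [Finset.mem_insert, Finset.mem_singleton] at hz
    rcases hz with rfl | rfl | rfl | rfl
    · exact rc hcaA.symm
    · exact rc hcbA.symm
    · rcases h6.1 with h | h
      · exact rc h
      · exact rd h
    · rcases h6.2 with h | h
      · exact rc h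
      · exact rd h
  · left
    push Not at hex
    have hCeq : C = {a, b, w} := by
      ext x
      simp only [Set.mem_insert_iff, Set.mem_singleton_iff]
      constructor
      · intro hx
        by_cases h1 : x = a
        · exact Or.inl h1
        by_cases h2 : x = b
        · exact Or.inr (Or.inl h2)
        exact Or.inr (Or.inr (hex x hx h1 h2))
      · rintro (rfl | rfl | rfl) <;> assumption
    refine ⟨w, hwa, hwb, hCeq, ?_⟩
    intro Q' hQ' ha' hb'
    by_contra hcon
    obtain ⟨c, d, hca, hcb, hda, hdb, hcd, hQ'eq⟩ := four_split hQ' ha' hb' hab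
    have hcQ' : c ∈ Q' := by rw [hQ'eq]; simp
    have hdQ' : d ∈ Q' := by rw [hQ'eq]; simp
    have hcw : c ≠ w := fun h => hcon (h ▸ hcQ')
    have hdw : d ≠ w := fun h => hcon (h ▸ hdQ')
    have hcaA := hQ'.1 hcQ' ha' hca
    have hcbA := hQ'.1 hcQ' hb' hcb
    have hdaA := hQ'.1 hdQ' ha' hda
    have hdbA := hQ'.1 hdQ' hb' hdb
    have hcdA := hQ'.1 hcQ' hdQ' hcd
    have adjw : ∀ z, H.Adj z a → H.Adj z b → z ≠ a → z ≠ b → z ≠ w → H.Adj w z := by
      intro z hza hzb h1 h2 h3
      rcases hdom z hza hzb with h | ⟨y, hy, hya, hyb, hyz⟩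
      · rw [hCeq] at h
        simp only [Set.mem_insert_iff, Set.mem_singleton_iff] at h
        tauto
      · rw [hCeq] at hy
        simp only [Set.mem_insert_iff, Set.mem_singleton_iff] at hy
        rcases hy with h | h | h
        · exact absurd h hya
        · exact absurd h hyb
        · rw [← h]; exact hyz
    exact no_five hH hAdj hcaA.symm hdaA.symm hcbA.symm hdbA.symm hcdA hwaA hwbA
      (adjw c hcaA hcbA hca hcb hcw) (adjw d hdaA hdbA hda hdb hdw)

theorem Family.agree (hH : NoAttach H) (hκ : Family H κ) {Q Q' : Finset V}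
    (hQ : H.IsNClique 4 Q) (hQ' : H.IsNClique 4 Q') {a b : V} (ha : a ∈ Q) (hb : b ∈ Q)
    (ha' : a ∈ Q') (hb' : b ∈ Q') (hab : a ≠ b) : κ Q a b = κ Q' a b := by
  have main : ∀ Q Q' : Finset V, H.IsNClique 4 Q → H.IsNClique 4 Q' → a ∈ Q → b ∈ Q →
      a ∈ Q' → b ∈ Q' → κ Q a b ≠ {a, b} → κ Q a b = κ Q' a b := by
    intro Q Q' hQ hQ' ha hb ha' hb' hne
    rcases hκ.shape hH hQ ha hb hab hne with ⟨w, hwa, hwb, _, hall⟩ |
      ⟨w, w', hwa, hwb, hw'a, hw'b, hww', _, hK4, hall⟩
    · exact hκ.agr3 hQ hQ' ha hb (hall Q hQ ha hb) ha' hb' (hall Q' hQ' ha' hb') hab hwa.symm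
        hwb.symm
    · have toC : ∀ Q' : Finset V, H.IsNClique 4 Q' → a ∈ Q' → b ∈ Q' →
          κ Q' a b = κ {a, b, w, w'} a b := by
        intro Q' hQ' ha' hb'
        rcases hall Q' hQ' ha' hb' with h | h
        · exact hκ.agr3 hQ' hK4 ha' hb' h (by simp) (by simp) (by simp) hab hwa.symm hwb.symm
        · exact hκ.agr3 hQ' hK4 ha' hb' h (by simp) (by simp) (by simp) hab hw'a.symm hw'b.symm
      rw [toC Q hQ ha hb, toC Q' hQ' ha' hb']
  by_cases h1 : κ Q a b = {a, b}
  · by_cases h2 : κ Q' a b = {a, b}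
    · rw [h1, h2]
    · exact (main Q' Q hQ' hQ ha' hb' ha hb h2).symm
  · exact main Q Q' hQ hQ' ha hb ha' hb' h1

/-- the edge `ab` lies in a 4-clique -/
def InK4 (H : SimpleGraph V) (a b : V) : Prop := ∃ Q : Finset V, H.IsNClique 4 Q ∧ a ∈ Q ∧ b ∈ Q

open Classical in
/-- the assembled core function -/
noncomputable def asm (H : SimpleGraph V) (κ : Finset V → V → V → Set V) (a b : V) : Set V :=
  if h : a ≠ b ∧ InK4 H a b then κ h.2.choose a b
  else {x | x = a ∨ x = b ∨ (H.Adj x a ∧ H.Adj x b ∧ OnlyNb H a b x)}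

theorem asm_K4 (hH : NoAttach H) (hκ : Family H κ) {Q : Finset V} (hQ : H.IsNClique 4 Q)
    {a b : V} (ha : a ∈ Q) (hb : b ∈ Q) (hab : a ≠ b) : asm H κ a b = κ Q a b := by
  have h : a ≠ b ∧ InK4 H a b := ⟨hab, Q, hQ, ha, hb⟩
  rw [asm, dif_pos h]
  have hs := h.2.choose_spec
  exact hκ.agree hH hs.1 hQ hs.2.1 hs.2.2 ha hb hab

theorem asm_not {a b : V} (h : ¬ (InK4 H a b)) :
    asm H κ a b = {x | x = a ∨ x = b ∨ (H.Adj x a ∧ H.Adj x b ∧ OnlyNb H a b x)} := by
  rw [asm, dif_neg (fun hh => h hh.2)]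

/-- if `a b x` is a triangle and `ab` is in no 4-clique then `K a x ⊆ {a, b, x}` -/
theorem asm_tri (hH : NoAttach H) (hκ : Family H κ) {a b x : V} (hab : H.Adj a b)
    (hax : H.Adj a x) (hbx : H.Adj b x) (hno : ¬ InK4 H a b) :
    ∀ z ∈ asm H κ a x, z = a ∨ z = b ∨ z = x := by
  by_cases hin : InK4 H a x
  · obtain ⟨Q, hQ, haQ, hxQ⟩ := hin
    rw [asm_K4 hH hκ hQ haQ hxQ hax.ne]
    have hloc := hκ.loc Q hQ
    by_cases heq : κ Q a x = {a, x}
    · intro z hz
      rw [heq] at hz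
      rcases hz with h | h
      · exact Or.inl h
      · exact Or.inr (Or.inr h)
    · exfalso
      have hcl := hloc.clique a haQ x hxQ hax.ne
      have haC := hloc.mem a haQ x hxQ hax.ne
      have hxC : x ∈ κ Q a x := by
        rw [hloc.symm a haQ x hxQ hax.ne]; exact hloc.mem x hxQ a haQ hax.ne.symm
      rcases (hloc.dom a haQ x hxQ hax.ne).resolve_left heq b hab.symm hbx with h | ⟨w, h1, h2,
        h3, h4⟩
      · rcases hκ.shape hH hQ haQ hxQ hax.ne heq with ⟨w, hwa, hwx, hC, hall⟩ |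
          ⟨w, w', hwa, hwx, hw'a, hw'x, hww', hC, hK4, hall⟩
        · rw [hC] at h
          simp only [Set.mem_insert_iff, Set.mem_singleton_iff] at h
          rcases h with h | h | h
          · exact hab.ne h.symm
          · exact hbx.ne h
          · apply hno
            exact ⟨Q, hQ, haQ, h ▸ hall Q hQ haQ hxQ⟩
        · apply hno
          refine ⟨_, hK4, by simp, ?_⟩
          rw [hC] at h
          simpa using h
      · apply hno
        have hwa := hcl h1 haC h2
        have hwx := hcl h1 hxC h3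
        exact ⟨{a, b, x, w}, inK4_of hab hax hwa.symm hbx h4.symm hwx.symm, by simp, by simp⟩
  · rw [asm_not hin]
    intro z hz
    rcases hz with h | h | ⟨_, _, h3⟩
    · exact Or.inl h
    · exact Or.inr (Or.inr h)
    · right; left
      exact (h3 b hab.symm hbx).symm

theorem core_of_family (hH : NoAttach H) (hT : TriCond H) (hκ : Family H κ) :
    CoreFn H (asm H κ) := by
  have hsymm : ∀ a b, asm H κ a b = asm H κ b a := by
    intro a b
    by_cases hab : a = b
    · rw [hab]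
    by_cases hin : InK4 H a b
    · obtain ⟨Q, hQ, ha, hb⟩ := hin
      rw [asm_K4 hH hκ hQ ha hb hab, asm_K4 hH hκ hQ hb ha (Ne.symm hab)]
      exact (hκ.loc Q hQ).symm a ha b hb hab
    · have hin' : ¬ InK4 H b a := fun ⟨Q, hQ, hb, ha⟩ => hin ⟨Q, hQ, ha, hb⟩
      rw [asm_not hin, asm_not hin']
      ext x
      simp only [Set.mem_ofPred_eq, OnlyNb]
      constructor
      · rintro (h | h | ⟨h1, h2, h3⟩)
        · exact Or.inr (Or.inl h)
        · exact Or.inl h
        · exact Or.inr (Or.inr ⟨h2, h1, fun y h4 h5 => h3 y h5 h4⟩)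
      · rintro (h | h | ⟨h1, h2, h3⟩)
        · exact Or.inr (Or.inl h)
        · exact Or.inl h
        · exact Or.inr (Or.inr ⟨h2, h1, fun y h4 h5 => h3 y h5 h4⟩)
  have hmem : ∀ a b, H.Adj a b → a ∈ asm H κ a b := by
    intro a b hab
    by_cases hin : InK4 H a b
    · obtain ⟨Q, hQ, ha, hb⟩ := hin
      rw [asm_K4 hH hκ hQ ha hb hab.ne]
      exact (hκ.loc Q hQ).mem a ha b hb hab.ne
    · rw [asm_not hin]
      exact Or.inl rfl
  refine ⟨hsymm, hmem, ?_, ?_, ?_⟩
  · intro a b hab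
    by_cases hin : InK4 H a b
    · obtain ⟨Q, hQ, ha, hb⟩ := hin
      rw [asm_K4 hH hκ hQ ha hb hab.ne]
      exact (hκ.loc Q hQ).clique a ha b hb hab.ne
    · rw [asm_not hin]
      rintro x hx y hy hxy
      rcases hx with rfl | rfl | ⟨h1, h2, h3⟩ <;> rcases hy with rfl | rfl | ⟨h4, h5, h6⟩
      · exact absurd rfl hxy
      · exact hab
      · exact h4.symm
      · exact hab.symm
      · exact absurd rfl hxy
      · exact h5.symm
      · exact h1
      · exact h2
      · exact absurd (h6 x h1 h2) hxy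
  · intro a b hab c hc d hd hcd
    by_cases hin : InK4 H a b
    · obtain ⟨Q, hQ, ha, hb⟩ := hin
      have e1 := asm_K4 hH hκ hQ ha hb hab.ne
      by_cases heq : κ Q a b = {a, b}
      · have hc' := hc
        have hd' := hd
        rw [e1, heq] at hc' hd'
        simp only [Set.mem_insert_iff, Set.mem_singleton_iff] at hc' hd'
        rcases hc' with rfl | rfl <;> rcases hd' with rfl | rfl
        · exact absurd rfl hcd
        · exact subset_rfl
        · rw [hsymm]
        · exact absurd rfl hcd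
      · rcases hκ.shape hH hQ ha hb hab.ne heq with ⟨w, hwa, hwb, hC, hall⟩ |
          ⟨w, w', hwa, hwb, hw'a, hw'b, hww', hC, hK4, hall⟩
        · have hw := hall Q hQ ha hb
          have inQ : ∀ z, z ∈ asm H κ a b → z ∈ Q := by
            intro z hz
            rw [e1, hC] at hz
            simp only [Set.mem_insert_iff, Set.mem_singleton_iff] at hz
            rcases hz with rfl | rfl | rfl <;> assumption
          have hcQ := inQ c hc
          have hdQ := inQ d hd
          rw [asm_K4 hH hκ hQ hcQ hdQ hcd, e1]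
          rw [e1] at hc hd
          exact (hκ.loc Q hQ).clos a ha b hb hab.ne c hcQ d hdQ hcd hc hd
        · have inQ : ∀ z, z ∈ asm H κ a b → z ∈ ({a, b, w, w'} : Finset V) := by
            intro z hz
            rw [e1, hC] at hz
            simpa using hz
          have hcQ := inQ c hc
          have hdQ := inQ d hd
          have e2 := asm_K4 hH hκ hK4 (a := a) (b := b) (by simp) (by simp) hab.ne
          rw [asm_K4 hH hκ hK4 hcQ hdQ hcd, e2]
          rw [e2] at hc hd
          exact (hκ.loc _ hK4).clos a (by simp) b (by simp) hab.ne c hcQ d hdQ hcd hc hd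
    · rw [asm_not hin] at hc hd ⊢
      have hin' : ¬ InK4 H b a := fun ⟨Q, hQ, hb, ha⟩ => hin ⟨Q, hQ, ha, hb⟩
      intro z hz
      rcases hc with rfl | rfl | ⟨h1, h2, h3⟩ <;> rcases hd with rfl | rfl | ⟨h4, h5, h6⟩
      · exact absurd rfl hcd
      · rw [asm_not hin] at hz; exact hz
      · rcases asm_tri hH hκ hab h4.symm h5.symm hin z hz with h | h | h
        · exact Or.inl h
        · exact Or.inr (Or.inl h)
        · exact Or.inr (Or.inr (by rw [h]; exact ⟨h4, h5, h6⟩))
      · rw [hsymm, asm_not hin] at hz; exact hz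
      · exact absurd rfl hcd
      · rcases asm_tri hH hκ hab.symm h5.symm h4.symm hin' z hz with h | h | h
        · exact Or.inr (Or.inl h)
        · exact Or.inl h
        · exact Or.inr (Or.inr (by rw [h]; exact ⟨h4, h5, h6⟩))
      · rw [hsymm] at hz
        rcases asm_tri hH hκ hab h1.symm h2.symm hin z hz with h | h | h
        · exact Or.inl h
        · exact Or.inr (Or.inl h)
        · exact Or.inr (Or.inr (by rw [h]; exact ⟨h1, h2, h3⟩))
      · rw [hsymm] at hz
        rcases asm_tri hH hκ hab.symm h2.symm h1.symm hin' z hz with h | h | h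
        · exact Or.inr (Or.inl h)
        · exact Or.inl h
        · exact Or.inr (Or.inr (by rw [h]; exact ⟨h1, h2, h3⟩))
      · exact absurd (h6 c h1 h2) hcd
  · intro a b c hab hbc hac
    have notin : ∀ x y z, H.Adj x y → OnlyNb H x y z → ¬ InK4 H x y := by
      intro x y z hxy hon ⟨Q, hQ, hx, hy⟩
      obtain ⟨u, v, hux, huy, hvx, hvy, huv, hQeq⟩ := four_split hQ hx hy hxy.ne
      have hu : u ∈ Q := by rw [hQeq]; simp
      have hv : v ∈ Q := by rw [hQeq]; simp
      exact huv ((hon u (hQ.1 hu hx hux) (hQ.1 hu hy huy)).trans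
        (hon v (hQ.1 hv hx hvx) (hQ.1 hv hy hvy)).symm)
    rcases hT a b c hab hbc hac with ⟨d, hda, hdb, hdc⟩ | h | h | h
    · have hQ := inK4_of hab hac hda.symm hbc hdb.symm hdc.symm
      rw [asm_K4 hH hκ hQ (by simp) (by simp) hab.ne, asm_K4 hH hκ hQ (by simp) (by simp) hbc.ne,
        asm_K4 hH hκ hQ (by simp) (by simp) hac.ne]
      exact (hκ.loc _ hQ).tri a (by simp) b (by simp) c (by simp) hab.ne hbc.ne hac.ne
    · refine ⟨c, ?_, ?_, ?_⟩
      · rw [asm_not (notin a b c hab h)]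
        exact Or.inr (Or.inr ⟨hac.symm, hbc.symm, h⟩)
      · rw [hsymm]; exact hmem c b hbc.symm
      · rw [hsymm]; exact hmem c a hac.symm
    · refine ⟨a, hmem a b hab, ?_, hmem a c hac⟩
      rw [asm_not (notin b c a hbc h)]
      exact Or.inr (Or.inr ⟨hab, hac, h⟩)
    · refine ⟨b, ?_, hmem b c hbc, ?_⟩
      · rw [hsymm]; exact hmem b a hab.symm
      · rw [asm_not (notin a c b hac h)]
        exact Or.inr (Or.inr ⟨hab.symm, hbc, h⟩)

end family

end Pool.Agent.Helper74
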