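import Pool.Agent.Helper74.Prog

/-!
Basic reusable program pieces and their cost bounds.
-/

namespace Pool.Agent.Helper74

open Function

section general

variable {K : Type} [DecidableEq K]

theorem Runs.mono {p : Prog K} {S S' : Stacks K} {T T' : ℕ} (h : Runs p S S' T) (hT : T ≤ T') :
    Runs p S S' T' := by
  obtain ⟨t, ht, he⟩ := h
  exact ⟨t, ht.trans hT, he⟩

theorem Runs.seq {p q : Prog K} {S S' S'' : Stacks K} {T T' : ℕ} (h : Runs p S S' T)
    (h' : Runs q S' S'' T') : Runs (.seq p q) S S'' (T + T') := by
  obtain ⟨t, ht, he⟩ := h
  obtain ⟨t', ht', he'⟩ := h'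
  exact ⟨t + t', add_le_add ht ht', Exec.seq he he'⟩

theorem Runs.to {p : Prog K} {S S' S'' : Stacks K} {T T' : ℕ} (h : Runs p S S' T)
    (hS : S' = S'') (hT : T ≤ T') : Runs p S S'' T' := by
  subst hS
  exact h.mono hT

theorem runs_skip (S : Stacks K) : Runs .skip S S 1 := ⟨1, le_refl _, Exec.skip S⟩

theorem runs_push (k : K) (b : Bool) (S : Stacks K) :
    Runs (.push k b) S (update S k (b :: S k)) 1 := ⟨1, le_refl _, Exec.push k b S⟩

theorem runs_pop (k : K) (S : Stacks K) :
    Runs (.pop k) S (update S k (S k).tail) 1 := ⟨1, le_refl _, Exec.pop k S⟩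

theorem runs_iteT {k : K} {c : Option Bool → Bool} {p q : Prog K} {S S' : Stacks K} {T : ℕ}
    (hc : c (S k).head? = true) (h : Runs p S S' T) : Runs (.ite k c p q) S S' (T + 1) := by
  obtain ⟨t, ht, he⟩ := h
  exact ⟨t + 1, by omega, Exec.iteT hc he⟩

theorem runs_iteF {k : K} {c : Option Bool → Bool} {p q : Prog K} {S S' : Stacks K} {T : ℕ}
    (hc : c (S k).head? = false) (h : Runs q S S' T) : Runs (.ite k c p q) S S' (T + 1) := by
  obtain ⟨t, ht, he⟩ := h
  exact ⟨t + 1, by omega, Exec.iteF hc he⟩

theorem runs_while {k : K} {c : Option Bool → Bool} {p : Prog K} (m T : ℕ) (I : ℕ → Stacks K)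
    (hc : ∀ i < m, c (I i k).head? = true) (hend : c (I m k).head? = false)
    (step : ∀ i < m, Runs p (I i) (I (i + 1)) T) :
    Runs (.whil k c p) (I 0) (I m) (m * (T + 1) + 1) := by
  have key : ∀ j ≤ m, Runs (.whil k c p) (I (m - j)) (I m) (j * (T + 1) + 1) := by
    intro j
    induction j with
    | zero =>
      intro _
      exact ⟨1, by omega, Exec.whilF (by simpa using hend)⟩
    | succ j ih =>
      intro hj
      obtain ⟨t, ht, he⟩ := ih (by omega)
      obtain ⟨t', ht', he'⟩ := step (m - (j + 1)) (by omega)
      have h1 : m - (j + 1) + 1 = m - j := by omega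
      rw [h1] at he'
      refine ⟨t' + t + 1, ?_, Exec.whilT (hc _ (by omega)) he' he⟩
      rw [Nat.succ_mul]
      omega
  have := key m le_rfl
  simpa using this

/-- nonemptiness test -/
def ne? : Option Bool → Bool := fun o => o.isSome

/-- test for a true bit -/
def tt? : Option Bool → Bool := fun o => o == some true

/-- Loop popping the counter stack `c` once per round. -/
def forU (c : K) (body : Prog K) : Prog K := .whil c ne? (.seq (.pop c) body)

theorem runs_forU (c : K) (body : Prog K) (m T : ℕ) (I : ℕ → Stacks K)
    (hlen : ∀ i ≤ m, (I i c).length = m - i)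
    (step : ∀ i < m, Runs body (update (I i) c (I i c).tail) (I (i + 1)) T) :
    Runs (forU c body) (I 0) (I m) (m * (T + 2) + 1) := by
  have h1 : ∀ i < m, ne? (I i c).head? = true := by
    intro i hi
    have := hlen i hi.le
    cases h : I i c with
    | nil => rw [h] at this; simp at this; omega
    | cons a l => simp [ne?]
  have h2 : ne? (I m c).head? = false := by
    have := hlen m le_rfl
    cases h : I m c with
    | nil => simp [ne?]
    | cons a l => rw [h] at this; simp at this
  have h3 := runs_while (p := .seq (.pop c) body) m (1 + T) I h1 h2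
    (fun i hi => (runs_pop c (I i)).seq (step i hi))
  refine h3.mono ?_
  have : 1 + T + 1 = T + 2 := by omega
  rw [this]

/-- Move one element from `k` to `k'` (nothing happens if `k` is empty). -/
def move1 (k k' : K) : Prog K :=
  .ite k tt? (.seq (.pop k) (.push k' true))
    (.ite k ne? (.seq (.pop k) (.push k' false)) .skip)

theorem runs_move1 {k k' : K} (hk : k ≠ k') (S : Stacks K) :
    Runs (move1 k k') S (update (update S k (S k).tail) k' ((S k).head?.toList ++ S k')) 4 := by
  rw [move1]
  rcases h : S k with _ | ⟨b, l⟩
  · refine (runs_iteF (by simp [h, tt?]) (runs_iteF (by simp [h, ne?]) (runs_skip S))).to ?_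
      (by omega)
    have h1 : update S k [] = S := by rw [← h]; exact update_eq_self k S
    simp [h1]
  · cases b with
    | true =>
      refine (runs_iteT (by simp [h, tt?]) ((runs_pop k S).seq (runs_push k' true _))).to ?_
        (by omega)
      simp [h, update_of_ne hk.symm]
    | false =>
      refine (runs_iteF (by simp [h, tt?]) (runs_iteT (by simp [h, ne?])
        ((runs_pop k S).seq (runs_push k' false _)))).to ?_ (by omega)
      simp [h, update_of_ne hk.symm]

/-- Move everything from `k` to `k'` (reversing). -/
def moveAll (k k' : K) : Prog K := .whil k ne? (move1 k k')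

theorem take_succ_rev {α : Type} (L : List α) (i : ℕ) (h : i < L.length) :
    (L.take (i + 1)).reverse = L[i] :: (L.take i).reverse := by
  rw [List.take_succ_eq_append_getElem h]
  simp

theorem runs_moveAll {k k' : K} (hk : k ≠ k') (S : Stacks K) :
    Runs (moveAll k k') S (update (update S k []) k' ((S k).reverse ++ S k'))
      ((S k).length * 5 + 1) := by
  let I : ℕ → Stacks K := fun i =>
    update (update S k ((S k).drop i)) k' (((S k).take i).reverse ++ S k')
  have hIk : ∀ i, I i k = (S k).drop i := by
    intro i; simp [I, update_of_ne hk]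
  have h := runs_while (k := k) (c := ne?) (p := move1 k k') (S k).length 4 I
    (by
      intro i hi
      rw [hIk]
      simp [ne?, hi])
    (by rw [hIk]; simp [ne?])
    (by
      intro i hi
      refine (runs_move1 hk (I i)).to ?_ le_rfl
      rw [hIk]
      simp only [I, update_self]
      rw [List.tail_drop]
      have h2 : ((S k).drop i).head?.toList ++ (((S k).take i).reverse ++ S k')
          = ((S k).take (i + 1)).reverse ++ S k' := by
        rw [take_succ_rev _ _ hi, List.head?_drop, List.getElem?_eq_getElem hi]
        simp
      rw [h2, update_comm hk.symm, update_idem, update_idem])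
  refine Runs.to (S' := I (S k).length) ?_ ?_ le_rfl
  · have h0 : I 0 = S := by
      simp [I]
    rw [h0] at h
    exact h
  · simp [I]

/-- Empty a stack. -/
def clear (k : K) : Prog K := .whil k ne? (.pop k)

theorem runs_clear (k : K) (S : Stacks K) :
    Runs (clear k) S (update S k []) ((S k).length * 2 + 1) := by
  let I : ℕ → Stacks K := fun i => update S k ((S k).drop i)
  have hIk : ∀ i, I i k = (S k).drop i := by
    intro i; simp [I]
  have h := runs_while (k := k) (c := ne?) (p := .pop k) (S k).length 1 I
    (by
      intro i hi
      rw [hIk]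
      simp [ne?, hi])
    (by rw [hIk]; simp [ne?])
    (by
      intro i hi
      refine (runs_pop k (I i)).to ?_ le_rfl
      simp [I])
  have h0 : I 0 = S := by simp [I]
  have h1 : I (S k).length = update S k [] := by simp [I]
  rw [h0, h1] at h
  exact h

/-- Move everything from `t` to both `k` and `k'`. -/
def move2 (t k k' : K) : Prog K :=
  .whil t ne? (.ite t tt? (.seq (.pop t) (.seq (.push k true) (.push k' true)))
    (.seq (.pop t) (.seq (.push k false) (.push k' false))))

theorem runs_move2 {t k k' : K} (h1 : t ≠ k) (h2 : t ≠ k') (h3 : k ≠ k') (S : Stacks K) :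
    Runs (move2 t k k') S
      (update (update (update S t []) k ((S t).reverse ++ S k)) k' ((S t).reverse ++ S k'))
      ((S t).length * 5 + 1) := by
  let I : ℕ → Stacks K := fun i =>
    update (update (update S t ((S t).drop i)) k (((S t).take i).reverse ++ S k)) k'
      (((S t).take i).reverse ++ S k')
  have hIk : ∀ i, I i t = (S t).drop i := by
    intro i; simp [I, update_of_ne h1, update_of_ne h2]
  have h := runs_while (k := t) (c := ne?)
    (p := .ite t tt? (.seq (.pop t) (.seq (.push k true) (.push k' true)))
    (.seq (.pop t) (.seq (.push k false) (.push k' false)))) (S t).length 4 I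
    (by
      intro i hi
      rw [hIk]
      simp [ne?, hi])
    (by rw [hIk]; simp [ne?])
    (by
      intro i hi
      have hhd : (I i t).head? = some (S t)[i] := by
        rw [hIk, List.head?_drop, List.getElem?_eq_getElem hi]
      have hfin : ∀ b, (S t)[i] = b →
          update (update (update (I i) t (I i t).tail) k
            (b :: (update (I i) t (I i t).tail) k)) k'
            (b :: (update (update (I i) t (I i t).tail) k
              (b :: (update (I i) t (I i t).tail) k)) k') = I (i + 1) := by
        intro b hb
        rw [hIk]
        simp only [I, update_self, update_of_ne h1.symm, update_of_ne h2.symm,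
          update_of_ne h3, update_of_ne h3.symm, List.tail_drop]
        rw [take_succ_rev _ _ hi, hb]
        funext j
        by_cases j1 : j = k'
        · subst j1; simp
        · by_cases j2 : j = k
          · subst j2; simp [j1]
          · by_cases j3 : j = t
            · subst j3; simp [j1, j2]
            · simp [j1, j2, j3]
      cases hb : (S t)[i] with
      | true =>
        refine (runs_iteT (by rw [hhd, hb]; rfl)
          ((runs_pop t (I i)).seq ((runs_push k true _).seq (runs_push k' true _)))).to ?_
          le_rfl
        exact hfin true hb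
      | false =>
        refine (runs_iteF (by rw [hhd, hb]; rfl)
          ((runs_pop t (I i)).seq ((runs_push k false _).seq (runs_push k' false _)))).to ?_
          le_rfl
        exact hfin false hb)
  refine Runs.to (S' := I (S t).length) ?_ ?_ le_rfl
  · have h0 : I 0 = S := by
      simp [I]
    rw [h0] at h
    exact h
  · simp [I]

/-- Copy the stack `s` on top of `d` using the scratch stack `t`. -/
def copyTo (t s d : K) : Prog K := .seq (moveAll s t) (move2 t s d)

theorem runs_copyTo {t s d : K} (h1 : t ≠ s) (h2 : t ≠ d) (h3 : s ≠ d) (S : Stacks K)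
    (ht : S t = []) :
    Runs (copyTo t s d) S (update S d (S s ++ S d)) ((S s).length * 10 + 2) := by
  refine ((runs_moveAll h1.symm S).seq (runs_move2 h1 h2 h3 _)).to ?_ ?_
  · simp only [update_self, update_of_ne h1.symm, update_of_ne h2.symm, update_of_ne h3.symm, ht]
    funext j
    by_cases j1 : j = d
    · subst j1; simp
    · by_cases j2 : j = s
      · subst j2; simp [j1]
      · by_cases j3 : j = t
        · subst j3; simp [j1, j2, ht]
        · simp [j1, j2, j3]
  · simp [ht]
    omega

end general

end Pool.Agent.Helper74
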