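import Mathlib

/-!
Definitions for the recognition problem of planar clique graphs.
-/

namespace Pool.Agent.Helper74

/-- The clique graph `K(G)`: its vertices are the cliques (maximal complete sets) of `G`, two
distinct cliques being adjacent when they share a vertex. -/
def cliqueGraph {W : Type} (G : SimpleGraph W) :
    SimpleGraph {s : Set W // Maximal G.IsClique s} where
  Adj s t := s ≠ t ∧ (s.1 ∩ t.1).Nonempty
  symm := ⟨fun s t h => ⟨h.1.symm, by rw [Set.inter_comm]; exact h.2⟩⟩
  loopless := ⟨fun s h => h.1 rfl⟩

/-- `H` is a clique graph: it is isomorphic to `K(G)` for some finite graph `G`. -/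
def IsCliqueGraph {V : Type} (H : SimpleGraph V) : Prop :=
  ∃ (W : Type) (_ : Finite W) (G : SimpleGraph W), Nonempty (H ≃g cliqueGraph G)

/-- `M` is a minor of `H`: there are pairwise disjoint connected branch sets, one for every
vertex of `M`, with an edge of `H` between the branch sets of adjacent vertices of `M`. -/
def HasMinor {U V : Type} (M : SimpleGraph U) (H : SimpleGraph V) : Prop :=
  ∃ B : U → Set V, (∀ u, (H.induce (B u)).Connected) ∧
    (∀ u u', u ≠ u' → Disjoint (B u) (B u')) ∧
    ∀ u u', M.Adj u u' → ∃ x ∈ B u, ∃ y ∈ B u', H.Adj x y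

/-- Planarity, in Wagner's form: no `K₅` minor and no `K₃,₃` minor. -/
def IsPlanar {V : Type} (H : SimpleGraph V) : Prop :=
  ¬ HasMinor (⊤ : SimpleGraph (Fin 5)) H ∧
    ¬ HasMinor (completeBipartiteGraph (Fin 3) (Fin 3)) H

open Classical in
/-- Encoding of a graph on `{0, …, n-1}` by a bit string: `n` ones, a zero, and the rows of the
adjacency matrix. -/
noncomputable def encodeGraph (G : Σ n : ℕ, SimpleGraph (Fin n)) : List Bool :=
  List.replicate G.1 true ++ false ::
    (List.finRange G.1).flatMap fun i => (List.finRange G.1).map fun j => decide (G.2.Adj i j)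

end Pool.Agent.Helper74
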