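import Mathlib

/-!
Structured programs on finitely many stacks of bits, with a big-step cost semantics,
and their compilation to Mathlib's TM2 machines.
-/

namespace Pool.Agent.Helper74

open Function

/-- Structured stack programs over bit stacks indexed by `K`. -/
inductive Prog (K : Type) : Type
  | skip : Prog K
  | push (k : K) (b : Bool) : Prog K
  | pop (k : K) : Prog K
  | seq (p q : Prog K) : Prog K
  | ite (k : K) (c : Option Bool → Bool) (p q : Prog K) : Prog K
  | whil (k : K) (c : Option Bool → Bool) (p : Prog K) : Prog K

/-- The content of all stacks. -/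
abbrev Stacks (K : Type) := K → List Bool

/-- Big-step semantics with exact cost. -/
inductive Exec {K : Type} [DecidableEq K] : Prog K → Stacks K → Stacks K → ℕ → Prop
  | skip (S : Stacks K) : Exec .skip S S 1
  | push (k : K) (b : Bool) (S : Stacks K) : Exec (.push k b) S (update S k (b :: S k)) 1
  | pop (k : K) (S : Stacks K) : Exec (.pop k) S (update S k (S k).tail) 1
  | seq {p q : Prog K} {S S' S'' : Stacks K} {t t' : ℕ} :
      Exec p S S' t → Exec q S' S'' t' → Exec (.seq p q) S S'' (t + t')
  | iteT {k : K} {c : Option Bool → Bool} {p q : Prog K} {S S' : Stacks K} {t : ℕ} :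
      c (S k).head? = true → Exec p S S' t → Exec (.ite k c p q) S S' (t + 1)
  | iteF {k : K} {c : Option Bool → Bool} {p q : Prog K} {S S' : Stacks K} {t : ℕ} :
      c (S k).head? = false → Exec q S S' t → Exec (.ite k c p q) S S' (t + 1)
  | whilF {k : K} {c : Option Bool → Bool} {p : Prog K} {S : Stacks K} :
      c (S k).head? = false → Exec (.whil k c p) S S 1
  | whilT {k : K} {c : Option Bool → Bool} {p : Prog K} {S S' S'' : Stacks K} {t t' : ℕ} :
      c (S k).head? = true → Exec p S S' t → Exec (.whil k c p) S' S'' t' →
      Exec (.whil k c p) S S'' (t + t' + 1)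

/-- The program runs from `S` to `S'` within `T` steps. -/
def Runs {K : Type} [DecidableEq K] (p : Prog K) (S S' : Stacks K) (T : ℕ) : Prop :=
  ∃ t, t ≤ T ∧ Exec p S S' t

section compile

variable {K : Type} [DecidableEq K]

/-- Labels of a compiled program. -/
inductive Lab : Prog K → Type
  | skip : Lab .skip
  | push {k : K} {b : Bool} : Lab (.push k b)
  | pop {k : K} : Lab (.pop k)
  | seqL {p q : Prog K} : Lab p → Lab (.seq p q)
  | seqR {p q : Prog K} : Lab q → Lab (.seq p q)
  | iteH {k : K} {c : Option Bool → Bool} {p q : Prog K} : Lab (.ite k c p q)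
  | iteL {k : K} {c : Option Bool → Bool} {p q : Prog K} : Lab p → Lab (.ite k c p q)
  | iteR {k : K} {c : Option Bool → Bool} {p q : Prog K} : Lab q → Lab (.ite k c p q)
  | whH {k : K} {c : Option Bool → Bool} {p : Prog K} : Lab (.whil k c p)
  | whB {k : K} {c : Option Bool → Bool} {p : Prog K} : Lab p → Lab (.whil k c p)

instance labFinite : (p : Prog K) → Finite (Lab p)
  | .skip => Finite.of_surjective (fun _ : Unit => Lab.skip) (fun x => by cases x; exact ⟨(), rfl⟩)
  | .push _ _ =>
      Finite.of_surjective (fun _ : Unit => Lab.push) (fun x => by cases x; exact ⟨(), rfl⟩)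
  | .pop _ => Finite.of_surjective (fun _ : Unit => Lab.pop) (fun x => by cases x; exact ⟨(), rfl⟩)
  | .seq p q => by
      have := labFinite p
      have := labFinite q
      refine Finite.of_surjective (fun x : Lab p ⊕ Lab q => Sum.elim Lab.seqL Lab.seqR x) ?_
      intro x
      cases x with
      | seqL l => exact ⟨Sum.inl l, rfl⟩
      | seqR l => exact ⟨Sum.inr l, rfl⟩
  | .ite _ _ p q => by
      have := labFinite p
      have := labFinite q
      refine Finite.of_surjective
        (fun x : Option (Lab p ⊕ Lab q) => match x with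
          | none => Lab.iteH
          | some (Sum.inl l) => Lab.iteL l
          | some (Sum.inr l) => Lab.iteR l) ?_
      intro x
      cases x with
      | iteH => exact ⟨none, rfl⟩
      | iteL l => exact ⟨some (Sum.inl l), rfl⟩
      | iteR l => exact ⟨some (Sum.inr l), rfl⟩
  | .whil _ _ p => by
      have := labFinite p
      refine Finite.of_surjective
        (fun x : Option (Lab p) => match x with
          | none => Lab.whH
          | some l => Lab.whB l) ?_
      intro x
      cases x with
      | whH => exact ⟨none, rfl⟩
      | whB l => exact ⟨some l, rfl⟩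

/-- Entry label. -/
def entry : (p : Prog K) → Lab p
  | .skip => .skip
  | .push _ _ => .push
  | .pop _ => .pop
  | .seq p _ => .seqL (entry p)
  | .ite _ _ _ _ => .iteH
  | .whil _ _ _ => .whH

/-- Compiled code, relative to an embedding of labels and an exit label. -/
def code {Λ : Type} : (p : Prog K) → (Lab p → Λ) → Λ → Lab p →
    Turing.TM2.Stmt (fun _ : K => Bool) Λ (Option Bool)
  | .skip, _, ex, .skip => .goto (fun _ => ex)
  | .push k b, _, ex, .push => .push k (fun _ => b) (.goto (fun _ => ex))
  | .pop k, _, ex, .pop => .pop k (fun s _ => s) (.goto (fun _ => ex))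
  | .seq p q, em, _, .seqL l => code p (fun x => em (.seqL x)) (em (.seqR (entry q))) l
  | .seq _ q, em, ex, .seqR l => code q (fun x => em (.seqR x)) ex l
  | .ite k c p q, em, _, .iteH =>
      .peek k (fun _ o => o) (.branch c
          (.goto (fun _ => em (.iteL (entry p))))
          (.goto (fun _ => em (.iteR (entry q)))))
  | .ite _ _ p _, em, ex, .iteL l => code p (fun x => em (.iteL x)) ex l
  | .ite _ _ _ q, em, ex, .iteR l => code q (fun x => em (.iteR x)) ex l
  | .whil k c p, em, ex, .whH =>
      .peek k (fun _ o => o) (.branch c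
          (.goto (fun _ => em (.whB (entry p))))
          (.goto (fun _ => ex)))
  | .whil _ _ p, em, _, .whB l => code p (fun x => em (.whB x)) (em .whH) l

/-- iterate of the step function -/
abbrev iterStep {Λ : Type} (M : Λ → Turing.TM2.Stmt (fun _ : K => Bool) Λ (Option Bool))
    (n : ℕ) (c : Option (Turing.TM2.Cfg (fun _ : K => Bool) Λ (Option Bool))) :=
  (flip bind (Turing.TM2.step M))^[n] c

theorem exec_sim {Λ : Type} (M : Λ → Turing.TM2.Stmt (fun _ : K => Bool) Λ (Option Bool))
    {p : Prog K} {S S' : Stacks K} {t : ℕ} (h : Exec p S S' t) :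
    ∀ (em : Lab p → Λ) (ex : Λ), (∀ l, M (em l) = code p em ex l) → ∀ v : Option Bool,
      ∃ v', iterStep M t (some ⟨some (em (entry p)), v, S⟩) = some ⟨some ex, v', S'⟩ := by
  induction h with
  | skip S =>
    intro em ex hM v
    refine ⟨v, ?_⟩
    simp [iterStep, flip, Turing.TM2.step, hM, code, entry]
  | push k b S =>
    intro em ex hM v
    refine ⟨v, ?_⟩
    simp [iterStep, flip, Turing.TM2.step, hM, code, entry]
  | pop k S =>
    intro em ex hM v
    refine ⟨v, ?_⟩
    simp [iterStep, flip, Turing.TM2.step, hM, code, entry]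
  | @seq p q S S' S'' t t' h1 h2 ih1 ih2 =>
    intro em ex hM v
    obtain ⟨v1, h1⟩ := ih1 (fun x => em (.seqL x)) (em (.seqR (entry q)))
      (fun l => by rw [hM]; rfl) v
    obtain ⟨v2, h2⟩ := ih2 (fun x => em (.seqR x)) ex (fun l => by rw [hM]; rfl) v1
    refine ⟨v2, ?_⟩
    rw [iterStep, Nat.add_comm, Function.iterate_add_apply]
    rw [iterStep] at h1 h2
    have he : entry (Prog.seq p q) = .seqL (entry p) := rfl
    rw [he, h1, h2]
  | @iteT k c p q S S' t hc h ih =>
    intro em ex hM v
    obtain ⟨v1, h1⟩ := ih (fun x => em (.iteL x)) ex (fun l => by rw [hM]; rfl)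
      (S k).head?
    refine ⟨v1, ?_⟩
    rw [iterStep, Function.iterate_succ_apply]
    have : flip bind (Turing.TM2.step M)
        (some ⟨some (em (entry (Prog.ite k c p q))), v, S⟩)
        = some ⟨some (em (.iteL (entry p))), (S k).head?, S⟩ := by
      simp [flip, Turing.TM2.step, entry, hM, code, hc]
    rw [this]
    exact h1
  | @iteF k c p q S S' t hc h ih =>
    intro em ex hM v
    obtain ⟨v1, h1⟩ := ih (fun x => em (.iteR x)) ex (fun l => by rw [hM]; rfl)
      (S k).head?
    refine ⟨v1, ?_⟩
    rw [iterStep, Function.iterate_succ_apply]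
    have : flip bind (Turing.TM2.step M)
        (some ⟨some (em (entry (Prog.ite k c p q))), v, S⟩)
        = some ⟨some (em (.iteR (entry q))), (S k).head?, S⟩ := by
      simp [flip, Turing.TM2.step, entry, hM, code, hc]
    rw [this]
    exact h1
  | @whilF k c p S hc =>
    intro em ex hM v
    refine ⟨(S k).head?, ?_⟩
    simp [iterStep, flip, Turing.TM2.step, entry, hM, code, hc]
  | @whilT k c p S S' S'' t t' hc h1 h2 ih1 ih2 =>
    intro em ex hM v
    obtain ⟨v1, h1⟩ := ih1 (fun x => em (.whB x)) (em .whH) (fun l => by rw [hM]; rfl)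
      (S k).head?
    obtain ⟨v2, h2⟩ := ih2 em ex hM v1
    refine ⟨v2, ?_⟩
    rw [iterStep, Function.iterate_succ_apply]
    have : flip bind (Turing.TM2.step M)
        (some ⟨some (em (entry (Prog.whil k c p))), v, S⟩)
        = some ⟨some (em (.whB (entry p))), (S k).head?, S⟩ := by
      simp [flip, Turing.TM2.step, entry, hM, code, hc]
    rw [this, Nat.add_comm, Function.iterate_add_apply]
    rw [iterStep] at h1 h2
    rw [h1]
    exact h2

end compile


section restrict

variable {K : Type} [DecidableEq K]

/-- All stacks mentioned by a program. -/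
def Prog.stacks : Prog K → Finset K
  | .skip => ∅
  | .push k _ => {k}
  | .pop k => {k}
  | .seq p q => p.stacks ∪ q.stacks
  | .ite k _ p q => {k} ∪ (p.stacks ∪ q.stacks)
  | .whil k _ p => {k} ∪ p.stacks

/-- Renaming of stacks. -/
def Prog.map {K' : Type} (g : K → K') : Prog K → Prog K'
  | .skip => .skip
  | .push k b => .push (g k) b
  | .pop k => .pop (g k)
  | .seq p q => .seq (p.map g) (q.map g)
  | .ite k c p q => .ite (g k) c (p.map g) (q.map g)
  | .whil k c p => .whil (g k) c (p.map g)

theorem exec_restrict (s : Finset K) (g : K → {k // k ∈ s}) (hg : ∀ k (h : k ∈ s), g k = ⟨k, h⟩)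
    {p : Prog K} {S S' : Stacks K} {t : ℕ} (h : Exec p S S' t) (hp : p.stacks ⊆ s) :
    Exec (p.map g) (fun k => S k.1) (fun k => S' k.1) t := by
  have hup : ∀ (S : Stacks K) (k : K) (h : k ∈ s) (v : List Bool),
      (fun j : {k // k ∈ s} => update S k v j.1) = update (fun j => S j.1) ⟨k, h⟩ v := by
    intro S k h v
    funext j
    by_cases hj : j.1 = k
    · have : j = ⟨k, h⟩ := Subtype.ext hj
      subst this
      simp
    · have : j ≠ ⟨k, h⟩ := fun e => hj (by rw [e])
      rw [update_of_ne hj, update_of_ne this]
  induction h with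
  | skip S => exact Exec.skip _
  | push k b S =>
    have hk : k ∈ s := hp (by simp [Prog.stacks])
    have := Exec.push (g k) b (fun j : {k // k ∈ s} => S j.1)
    rw [hg k hk] at this
    rw [hup S k hk, Prog.map, hg k hk]
    exact this
  | pop k S =>
    have hk : k ∈ s := hp (by simp [Prog.stacks])
    have := Exec.pop (g k) (fun j : {k // k ∈ s} => S j.1)
    rw [hg k hk] at this
    rw [hup S k hk, Prog.map, hg k hk]
    exact this
  | @seq p q S S' S'' t t' h1 h2 ih1 ih2 =>
    refine Exec.seq (ih1 ?_) (ih2 ?_)
    · exact (Finset.subset_union_left).trans hp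
    · exact (Finset.subset_union_right).trans hp
  | @iteT k c p q S S' t hc h ih =>
    have hk : k ∈ s := hp (by simp [Prog.stacks])
    refine Exec.iteT ?_ (ih ?_)
    · rw [hg k hk]; exact hc
    · intro x hx; apply hp; simp [Prog.stacks, hx]
  | @iteF k c p q S S' t hc h ih =>
    have hk : k ∈ s := hp (by simp [Prog.stacks])
    refine Exec.iteF ?_ (ih ?_)
    · rw [hg k hk]; exact hc
    · intro x hx; apply hp; simp [Prog.stacks, hx]
  | @whilF k c p S hc =>
    have hk : k ∈ s := hp (by simp [Prog.stacks])
    refine Exec.whilF ?_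
    rw [hg k hk]; exact hc
  | @whilT k c p S S' S'' t t' hc h1 h2 ih1 ih2 =>
    have hk : k ∈ s := hp (by simp [Prog.stacks])
    refine Exec.whilT ?_ (ih1 ?_) (ih2 hp)
    · rw [hg k hk]; exact hc
    · intro x hx; apply hp; simp [Prog.stacks, hx]

end restrict

section machine

variable {K : Type} [DecidableEq K] [Fintype K]

/-- The TM2 machine of a program. -/
noncomputable def machine (p : Prog K) (kin kout : K) : Turing.FinTM2 where
  K := K
  k₀ := kin
  k₁ := kout
  Γ := fun _ => Bool
  Λ := Option (Lab p)
  main := some (entry p)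
  ΛFin := Fintype.ofFinite _
  σ := Option Bool
  initialState := none
  m := fun l => match l with
    | none => .load (fun _ => none) .halt
    | some l => code p some none l

/-- Input state. -/
def inState (kin : K) (L : List Bool) : Stacks K := fun k => if k = kin then L else []

theorem machine_outputs (p : Prog K) (kin kout : K) (L : List Bool) (M : List Bool) (t : ℕ)
    (h : Exec p (inState kin L) (inState kout M) t) :
    (flip bind (machine p kin kout).step)^[t + 1]
      (some (Turing.initList (machine p kin kout) L))
      = some (Turing.haltList (machine p kin kout) M) := by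
  have hi : Turing.initList (machine p kin kout) L
      = ⟨some (some (entry p)), none, inState kin L⟩ := by
    have : (Turing.initList (machine p kin kout) L).stk = inState kin L := by
      refine funext fun (k : K) => ?_
      by_cases hk : k = kin
      · cases hk
        simp [Turing.initList, inState, machine] <;> rfl
      · have h2 : ¬ (k = (machine p kin kout).k₀) := hk
        have h3 : inState kin L k = [] := if_neg hk
        rw [h3]
        exact dif_neg h2
    exact congrArg (fun z => (⟨some (some (entry p)), none, z⟩ :
      Turing.TM2.Cfg (fun _ : K => Bool) (Option (Lab p)) (Option Bool))) this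
  have ho : Turing.haltList (machine p kin kout) M
      = ⟨none, none, inState kout M⟩ := by
    have : (Turing.haltList (machine p kin kout) M).stk = inState kout M := by
      refine funext fun (k : K) => ?_
      by_cases hk : k = kout
      · cases hk
        simp [Turing.haltList, inState, machine] <;> rfl
      · have h2 : ¬ (k = (machine p kin kout).k₁) := hk
        have h3 : inState kout M k = [] := if_neg hk
        rw [h3]
        exact dif_neg h2
    exact congrArg (fun z => (⟨none, none, z⟩ :
      Turing.TM2.Cfg (fun _ : K => Bool) (Option (Lab p)) (Option Bool))) this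
  obtain ⟨v', hv⟩ := exec_sim (machine p kin kout).m h (fun l => some l) none (fun l => rfl) none
  rw [hi, ho, Nat.add_comm, Function.iterate_add_apply]
  have : (flip bind (machine p kin kout).step)^[t]
      (some ⟨some (some (entry p)), none, inState kin L⟩)
      = some ⟨some none, v', inState kout M⟩ := hv
  rw [this]
  rfl

end machine

/-- A program on any type of stacks deciding `f` within polynomial time gives a Mathlib
polynomial time machine. -/
theorem poly_of_prog {K : Type} [DecidableEq K] (p : Prog K) (kin kout : K) {α : Type}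
    (ea : α → List Bool) (f : α → Bool) (T : Polynomial ℕ)
    (h : ∀ a, Runs p (inState kin (ea a)) (inState kout [f a]) (T.eval (ea a).length)) :
    Nonempty (Turing.TM2ComputableInPolyTime ea Computability.encodeBool f) := by
  classical
  set s : Finset K := p.stacks ∪ {kin, kout} with hs
  have hin : kin ∈ s := by simp [hs]
  have hout : kout ∈ s := by simp [hs]
  let g : K → {k // k ∈ s} := fun k => if h : k ∈ s then ⟨k, h⟩ else ⟨kin, hin⟩
  have hg : ∀ k (h : k ∈ s), g k = ⟨k, h⟩ := fun k h => dif_pos h
  have hst : ∀ (k0 : K) (h0 : k0 ∈ s) (L : List Bool),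
      (fun k : {k // k ∈ s} => inState k0 L k.1) = inState ⟨k0, h0⟩ L := by
    intro k0 h0 L
    funext k
    simp only [inState]
    congr 1
    exact propext ⟨fun e => Subtype.ext e, fun e => by rw [e]⟩
  have key : ∀ a, ∃ t, t ≤ (T + 1).eval (ea a).length ∧
      (flip bind (machine (p.map g) ⟨kin, hin⟩ ⟨kout, hout⟩).step)^[t]
      (some (Turing.initList (machine (p.map g) ⟨kin, hin⟩ ⟨kout, hout⟩) (ea a)))
      = some (Turing.haltList (machine (p.map g) ⟨kin, hin⟩ ⟨kout, hout⟩) [f a]) := by
    intro a
    obtain ⟨t, ht, he⟩ := h a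
    refine ⟨t + 1, by simpa using ht, ?_⟩
    apply machine_outputs
    have := exec_restrict s g hg he Finset.subset_union_left
    rw [hst kin hin, hst kout hout] at this
    exact this
  choose t ht he using key
  refine ⟨{ tm := machine (p.map g) ⟨kin, hin⟩ ⟨kout, hout⟩
            inputAlphabet := Equiv.refl Bool
            outputAlphabet := Equiv.refl Bool
            time := T + 1
            outputsFun := fun a => ⟨⟨t a, ?_⟩, ht a⟩ }⟩
  have h1 : List.map (Equiv.refl Bool).invFun (ea a) = ea a := by
    simp
  have h2 : List.map (Equiv.refl Bool).invFun (Computability.encodeBool (f a)) = [f a] := by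
    simp [Computability.encodeBool]
  have aux : ∀ L' : List Bool, L' = ea a → ∀ M' : List Bool, M' = [f a] →
      (flip bind (machine (p.map g) ⟨kin, hin⟩ ⟨kout, hout⟩).step)^[t a]
      (some (Turing.initList (machine (p.map g) ⟨kin, hin⟩ ⟨kout, hout⟩) L'))
      = Option.map (Turing.haltList (machine (p.map g) ⟨kin, hin⟩ ⟨kout, hout⟩)) (some M') := by
    intro L' hL M' hM
    subst hL hM
    exact he a
  exact aux _ h1 _ h2

end Pool.Agent.Helper74
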