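import Pool.Agent.Helper74.Holds
import Pool.Agent.Helper74.Local

/-!
The first-order operator for local consistency and its meaning.
-/

namespace Pool.Agent.Helper74

open Function

/-- Indices of the two extra variables attached to the pair `i j`. -/
def uv : ℕ → ℕ → ℕ × ℕ
  | 0, 1 => (4, 5)
  | 1, 0 => (4, 5)
  | 0, 2 => (6, 7)
  | 2, 0 => (6, 7)
  | 0, 3 => (8, 9)
  | 3, 0 => (8, 9)
  | 1, 2 => (10, 11)
  | 2, 1 => (10, 11)
  | 1, 3 => (12, 13)
  | 3, 1 => (12, 13)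
  | 2, 3 => (14, 15)
  | 3, 2 => (14, 15)
  | _, _ => (0, 0)

/-- ordered pairs of distinct indices below four -/
def prs : List (ℕ × ℕ) :=
  [(0, 1), (0, 2), (0, 3), (1, 0), (1, 2), (1, 3), (2, 0), (2, 1), (2, 3), (3, 0), (3, 1), (3, 2)]

theorem mem_prs {p : ℕ × ℕ} : p ∈ prs ↔ p.1 < 4 ∧ p.2 < 4 ∧ p.1 ≠ p.2 := by
  obtain ⟨i, j⟩ := p
  constructor
  · intro h
    simp only [prs, List.mem_cons, Prod.mk.injEq, List.not_mem_nil, or_false] at h
    omega
  · rintro ⟨h1, h2, h3⟩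
    simp only at h1 h2 h3
    interval_cases i <;> interval_cases j <;> simp_all [prs]

theorem uv_lt (i j : ℕ) : (uv i j).1 < 16 ∧ (uv i j).2 < 16 := by
  unfold uv
  split <;> simp

theorem uv_symm (i j : ℕ) (hi : i < 4) (hj : j < 4) : uv i j = uv j i := by
  interval_cases i <;> interval_cases j <;> rfl

/-- The set attached to the pair `i j`. -/
def Sx {V : Type} (x : ℕ → V) (i j : ℕ) : Set V :=
  {w | w = x i ∨ w = x j ∨ w = x (uv i j).1 ∨ w = x (uv i j).2}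

theorem Sx_congr {V : Type} {x y : ℕ → V} (h : ∀ i < 16, x i = y i) {i j : ℕ} (hi : i < 16)
    (hj : j < 16) : Sx x i j = Sx y i j := by
  unfold Sx
  rw [h i hi, h j hj, h _ (uv_lt i j).1, h _ (uv_lt i j).2]

theorem Sx_update {V : Type} (x : ℕ → V) (m : ℕ) (v : V) (hm : 16 ≤ m) {i j : ℕ} (hi : i < 16)
    (hj : j < 16) : Sx (update x m v) i j = Sx x i j := by
  apply Sx_congr _ hi hj
  intro i hi
  rw [update_of_ne (by omega)]

/-- Permutations moving one index to the last place, with the induced action on variables. -/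
def prms : List (List ℕ) :=
  [[0, 1, 2, 3, 4, 5, 6, 7, 8, 9, 10, 11, 12, 13, 14, 15],
   [0, 1, 3, 2, 4, 5, 8, 9, 6, 7, 12, 13, 10, 11, 14, 15],
   [0, 2, 3, 1, 6, 7, 8, 9, 4, 5, 14, 15, 10, 11, 12, 13],
   [1, 2, 3, 0, 10, 11, 12, 13, 4, 5, 14, 15, 6, 7, 8, 9]]

/-- Meaning of the consistency step. -/
structure StepP {V : Type} (adj : V → V → Prop) (R : List V → Prop) (x : ℕ → V) : Prop where
  k4 : ∀ p ∈ prs, adj (x p.1) (x p.2)
  clq : ∀ p ∈ prs, ∀ a ∈ Sx x p.1 p.2, ∀ b ∈ Sx x p.1 p.2, a = b ∨ adj a b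
  dom : ∀ p ∈ prs, (∀ a ∈ Sx x p.1 p.2, a = x p.1 ∨ a = x p.2) ∨
    ∀ c, adj c (x p.1) → adj c (x p.2) → c ∈ Sx x p.1 p.2 ∨
      ∃ w, w ∈ Sx x p.1 p.2 ∧ w ≠ x p.1 ∧ w ≠ x p.2 ∧ adj w c
  clos : ∀ p ∈ prs, ∀ q ∈ prs, x q.1 ∈ Sx x p.1 p.2 → x q.2 ∈ Sx x p.1 p.2 →
    ∀ w ∈ Sx x q.1 q.2, w ∈ Sx x p.1 p.2
  tri : ∀ p ∈ prs, ∀ q ∈ prs, p.2 = q.1 → p.1 ≠ q.2 →
    ∃ w, w ∈ Sx x p.1 p.2 ∧ w ∈ Sx x q.1 q.2 ∧ w ∈ Sx x p.1 q.2
  prm : ∀ L ∈ prms, R (L.map x)
  face : ∀ y, adj y (x 0) → adj y (x 1) → adj y (x 2) → ∃ v1 v2 v3 v4 v5 v6,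
    R [x 0, x 1, x 2, y, x 4, x 5, x 6, x 7, v1, v2, x 10, x 11, v3, v4, v5, v6]

/-- membership formula -/
def fmem (w i j : ℕ) : Fm :=
  (Fm.eq w i).or ((Fm.eq w j).or ((Fm.eq w (uv i j).1).or (Fm.eq w (uv i j).2)))

/-- completeness formula -/
def fclq (i j : ℕ) : Fm :=
  .conj ([i, j, (uv i j).1, (uv i j).2].map fun a =>
    .conj ([i, j, (uv i j).1, (uv i j).2].map fun b => (Fm.eq a b).or (Fm.adj a b)))

/-- domain formula -/
def fdom (i j : ℕ) : Fm :=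
  (Fm.conj ([i, j, (uv i j).1, (uv i j).2].map fun a => (Fm.eq a i).or (Fm.eq a j))).or
    (.all 16 (Fm.imp (.adj 16 i) (Fm.imp (.adj 16 j) ((fmem 16 i j).or
      (.ex 17 (.and (fmem 17 i j) (.and (.neg (.eq 17 i)) (.and (.neg (.eq 17 j))
        (.adj 17 16)))))))))

/-- closure formula -/
def fclos (i j k l : ℕ) : Fm :=
  (fmem k i j).imp ((fmem l i j).imp
    (.conj ([k, l, (uv k l).1, (uv k l).2].map fun w => fmem w i j)))

/-- triangle formula -/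
def ftri (i j k : ℕ) : Fm := .ex 16 (.and (fmem 16 i j) (.and (fmem 16 j k) (fmem 16 i k)))

/-- face formula -/
def fface : Fm :=
  .all 16 (Fm.imp (.adj 16 0) (Fm.imp (.adj 16 1) (Fm.imp (.adj 16 2)
    (.ex 17 (.ex 18 (.ex 19 (.ex 20 (.ex 21 (.ex 22
      (.rel [0, 1, 2, 16, 4, 5, 6, 7, 17, 18, 10, 11, 19, 20, 21, 22]))))))))))

/-- the formula of the consistency step -/
def stepF : Fm :=
  .conj [.conj (prs.map fun p => .adj p.1 p.2),
    .conj (prs.map fun p => fclq p.1 p.2),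
    .conj (prs.map fun p => fdom p.1 p.2),
    .conj (prs.map fun p => .conj (prs.map fun q => fclos p.1 p.2 q.1 q.2)),
    .conj (prs.map fun p => .conj ((prs.filter fun q => p.2 = q.1 ∧ p.1 ≠ q.2).map fun q =>
      ftri p.1 p.2 q.2)),
    .conj (prms.map fun L => .rel L),
    fface]

section sem

variable {V : Type} (adj : V → V → Prop) (R : List V → Prop)

theorem holds_fmem (w i j : ℕ) (x : ℕ → V) :
    (fmem w i j).holds 16 adj R x ↔ x w ∈ Sx x i j := by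
  simp only [fmem, holds_or, Fm.holds, Sx, Set.mem_ofPred_eq]

theorem forall_four {α : Type} (P : α → Prop) (a b c d : α) :
    (∀ p ∈ [a, b, c, d], P p) ↔ P a ∧ P b ∧ P c ∧ P d := by
  simp

theorem Sx_forall (P : V → Prop) (x : ℕ → V) (i j : ℕ) :
    (∀ a ∈ Sx x i j, P a) ↔ ∀ a ∈ [i, j, (uv i j).1, (uv i j).2], P (x a) := by
  rw [forall_four]
  constructor
  · intro h
    exact ⟨h _ (Or.inl rfl), h _ (Or.inr (Or.inl rfl)), h _ (Or.inr (Or.inr (Or.inl rfl))),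
      h _ (Or.inr (Or.inr (Or.inr rfl)))⟩
  · rintro ⟨h1, h2, h3, h4⟩ a (rfl | rfl | rfl | rfl) <;> assumption

theorem holds_conj_map {α : Type} (l : List α) (f : α → Fm) (x : ℕ → V) :
    (Fm.conj (l.map f)).holds 16 adj R x ↔ ∀ a ∈ l, (f a).holds 16 adj R x := by
  rw [holds_conj]
  simp

theorem holds_fclq (i j : ℕ) (x : ℕ → V) :
    (fclq i j).holds 16 adj R x ↔ ∀ a ∈ Sx x i j, ∀ b ∈ Sx x i j, a = b ∨ adj a b := by
  simp only [fclq, holds_conj_map, holds_or, Fm.holds, Sx_forall]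

theorem holds_fdom (i j : ℕ) (hi : i < 16) (hj : j < 16) (x : ℕ → V) :
    (fdom i j).holds 16 adj R x ↔ (∀ a ∈ Sx x i j, a = x i ∨ a = x j) ∨
    ∀ c, adj c (x i) → adj c (x j) → c ∈ Sx x i j ∨
      ∃ w, w ∈ Sx x i j ∧ w ≠ x i ∧ w ≠ x j ∧ adj w c := by
  have e1 : i ≠ 16 := by omega
  have e2 : j ≠ 16 := by omega
  have e3 : i ≠ 17 := by omega
  have e4 : j ≠ 17 := by omega
  simp only [fdom, holds_or, holds_conj_map, holds_all, holds_imp, holds_fmem, Fm.holds,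
    Sx_forall, Sx_update _ 16 _ (le_refl 16) hi hj, Sx_update _ 17 _ (by omega : 16 ≤ 17) hi hj,
    update_self, update_of_ne e1, update_of_ne e2, update_of_ne e3, update_of_ne e4,
    update_of_ne (by omega : (16 : ℕ) ≠ 17), ne_eq]

theorem holds_fclos (i j k l : ℕ) (x : ℕ → V) :
    (fclos i j k l).holds 16 adj R x ↔ (x k ∈ Sx x i j → x l ∈ Sx x i j →
      ∀ w ∈ Sx x k l, w ∈ Sx x i j) := by
  simp only [fclos, holds_imp, holds_conj_map, holds_fmem]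
  rw [Sx_forall (fun w => w ∈ Sx x i j) x k l]

theorem holds_ftri (i j k : ℕ) (hi : i < 16) (hj : j < 16) (hk : k < 16) (x : ℕ → V) :
    (ftri i j k).holds 16 adj R x ↔
      ∃ w, w ∈ Sx x i j ∧ w ∈ Sx x j k ∧ w ∈ Sx x i k := by
  simp only [ftri, Fm.holds, holds_fmem, update_self, Sx_update _ 16 _ (le_refl 16) hi hj,
    Sx_update _ 16 _ (le_refl 16) hj hk, Sx_update _ 16 _ (le_refl 16) hi hk]

theorem holds_fface (x : ℕ → V) :
    fface.holds 16 adj R x ↔ ∀ y, adj y (x 0) → adj y (x 1) → adj y (x 2) →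
    ∃ v1 v2 v3 v4 v5 v6,
    R [x 0, x 1, x 2, y, x 4, x 5, x 6, x 7, v1, v2, x 10, x 11, v3, v4, v5, v6] := by
  simp [fface, holds_all, holds_imp, Fm.holds, Function.update]

theorem holds_stepF (x : ℕ → V) : stepF.holds 16 adj R x ↔ StepP adj R x := by
  have hl : ∀ p ∈ prs, p.1 < 16 ∧ p.2 < 16 := by
    intro p hp
    rw [mem_prs] at hp
    omega
  rw [stepF, holds_conj]
  simp only [List.forall_mem_cons, List.not_mem_nil, false_imp_iff, implies_true, and_true,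
    holds_conj_map, holds_fclq, holds_fclos, holds_fface]
  constructor
  · rintro ⟨h1, h2, h3, h4, h5, h6, h7⟩
    refine ⟨h1, h2, ?_, h4, ?_, ?_, h7⟩
    · intro p hp
      exact (holds_fdom adj R p.1 p.2 (hl p hp).1 (hl p hp).2 x).1 (h3 p hp)
    · intro p hp q hq hpq hpq'
      have := h5 p hp q (by simp [hq, hpq, hpq'])
      rw [holds_ftri adj R _ _ _ (hl p hp).1 (hl p hp).2 (hl q hq).2] at this
      rw [← hpq]
      exact this
    · intro L hL
      exact (h6 L hL).2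
  · rintro ⟨h1, h2, h3, h4, h5, h6, h7⟩
    refine ⟨h1, h2, ?_, h4, ?_, ?_, h7⟩
    · intro p hp
      exact (holds_fdom adj R p.1 p.2 (hl p hp).1 (hl p hp).2 x).2 (h3 p hp)
    · intro p hp q hq
      rw [List.mem_filter] at hq
      have h8 := hq.2
      simp only [ne_eq, decide_eq_true_eq] at h8
      rw [holds_ftri adj R _ _ _ (hl p hp).1 (hl p hp).2 (hl q hq.1).2]
      have := h5 p hp q hq.1 h8.1 h8.2
      rw [← h8.1] at this
      exact this
    · intro L hL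
      refine ⟨?_, h6 L hL⟩
      simp only [prms, List.mem_cons, List.not_mem_nil, or_false] at hL
      rcases hL with rfl | rfl | rfl | rfl <;> rfl

theorem StepP.mono {R R' : List V → Prop} (h : ∀ t, R t → R' t) {x : ℕ → V}
    (hx : StepP adj R x) : StepP adj R' x := by
  obtain ⟨h1, h2, h3, h4, h5, h6, h7⟩ := hx
  refine ⟨h1, h2, h3, h4, h5, fun L hL => h _ (h6 L hL), ?_⟩
  intro y a b c
  obtain ⟨v1, v2, v3, v4, v5, v6, hv⟩ := h7 y a b c
  exact ⟨v1, v2, v3, v4, v5, v6, h _ hv⟩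

end sem

end Pool.Agent.Helper74
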